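import Pool.Agent.Work.MP_e3f5d9_al_helper91.RealI

/-!
# The exceptional real parameters `0` and `-2`
-/

set_option autoImplicit false

open Polynomial unitInterval PCF R4 R4.Rl

namespace RealB

/-! ### Growth of groups -/

lemma ballSize_congr {G H : Type} [Group G] [Group H] (e : G ≃* H) (S : Finset H) (n : ℕ) :
    ballSize S n = ballSize (S.map e.symm.toEquiv.toEmbedding) n := by
  unfold ballSize
  apply Nat.card_congr
  refine Equiv.subtypeEquiv e.symm.toEquiv ?_
  intro h
  constructor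
  · rintro ⟨l, h1, h2, h3⟩
    refine ⟨l.map e.symm, by simpa using h1, ?_, ?_⟩
    · intro x hx
      obtain ⟨y, hy, rfl⟩ := List.mem_map.1 hx
      rcases h2 y hy with h4 | h4
      · left
        exact Finset.mem_map.2 ⟨y, h4, rfl⟩
      · right
        exact Finset.mem_map.2 ⟨y⁻¹, h4, by simp⟩
    · rw [← h3]
      exact (map_list_prod e.symm l).symm
  · rintro ⟨l, h1, h2, h3⟩
    refine ⟨l.map e, by simpa using h1, ?_, ?_⟩
    · intro x hx
      obtain ⟨y, hy, rfl⟩ := List.mem_map.1 hx
      rcases h2 y hy with h4 | h4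
      · left
        obtain ⟨z, hz, hz'⟩ := Finset.mem_map.1 h4
        have : z = e y := by rw [← hz']; simp
        rwa [← this]
      · right
        obtain ⟨z, hz, hz'⟩ := Finset.mem_map.1 h4
        have : z = (e y)⁻¹ := by
          rw [← map_inv, ← hz']; simp
        rwa [← this]
    · rw [← map_list_prod, h3]
      exact e.apply_symm_apply h

lemma closure_congr {G H : Type} [Group G] [Group H] (e : G ≃* H) (S : Finset H)
    (hS : Subgroup.closure (S : Set H) = ⊤) :
    Subgroup.closure ((S.map e.symm.toEquiv.toEmbedding : Finset G) : Set G) = ⊤ := by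
  have h1 : ((S.map e.symm.toEquiv.toEmbedding : Finset G) : Set G) =
      e.symm.toMonoidHom '' (S : Set H) := by
    rw [Finset.coe_map]; rfl
  rw [h1, ← MonoidHom.map_closure, hS]
  exact Subgroup.map_top_of_surjective _ e.symm.surjective

lemma ig_of_equiv {G H : Type} [Group G] [Group H] (e : G ≃* H) (h : IntermediateGrowth G) :
    IntermediateGrowth H := by
  obtain ⟨⟨S, hS⟩, h2⟩ := h
  refine ⟨⟨S.map e.toEquiv.toEmbedding, ?_⟩, ?_⟩
  · exact closure_congr e.symm S hS
  · intro T hT
    have h3 := h2 _ (closure_congr e T hT)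
    have h4 : ballSize T = ballSize (T.map e.symm.toEquiv.toEmbedding) :=
      funext fun n => ballSize_congr e T n
    rw [h4]
    exact h3

/-- A polynomial upper bound for the growth. -/
lemma not_ig_of_bound {G : Type} [Group G] (S : Finset G) (hS : Subgroup.closure (S : Set G) = ⊤)
    (k : ℕ) (hb : ∀ n, ballSize S n ≤ 2 * (2 * n + 1) ^ k) : ¬ IntermediateGrowth G := by
  intro h
  obtain ⟨n₀, hn₀⟩ := (h.2 S hS).1 (k + 1)
  set n := max n₀ (2 * 3 ^ k + 1) with hn
  have h1 := hn₀ n (le_max_left _ _)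
  have h2 := hb n
  have h3 : 2 * 3 ^ k + 1 ≤ n := le_max_right _ _
  have h4 : (2 * n + 1) ^ k ≤ (3 * n) ^ k := Nat.pow_le_pow_left (by omega) k
  have h5 : n ^ (k + 1) ≤ 2 * 3 ^ k * n ^ k := by
    calc n ^ (k + 1) ≤ 2 * (2 * n + 1) ^ k := h1.trans h2
      _ ≤ 2 * (3 * n) ^ k := Nat.mul_le_mul_left 2 h4
      _ = 2 * 3 ^ k * n ^ k := by rw [mul_pow]; ring
  have h6 : 0 < n ^ k := Nat.pow_pos (by omega)
  rw [pow_succ, mul_comm (n ^ k) n] at h5
  have h7 := Nat.le_of_mul_le_mul_right h5 h6
  omega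

/-- Commutative groups do not have intermediate growth. -/
lemma not_ig_comm {G : Type} [Group G] (hcomm : ∀ a b : G, a * b = b * a) :
    ¬ IntermediateGrowth G := by
  classical
  intro hG
  obtain ⟨S, hS⟩ := hG.1
  refine not_ig_of_bound S hS S.card (fun n => ?_) hG
  let _ : CommGroup G := { (inferInstance : Group G) with mul_comm := hcomm }
  -- normal form
  have key : ∀ l : List G, (∀ x ∈ l, x ∈ S ∨ x⁻¹ ∈ S) → ∃ k : S → ℤ, (∀ s, |k s| ≤ l.length) ∧
      l.prod = ∏ s : S, (s : G) ^ (k s) := by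
    intro l
    induction l with
    | nil => intro _; exact ⟨fun _ => 0, by simp, by simp⟩
    | cons x l ih =>
      intro hl
      obtain ⟨k, hk1, hk2⟩ := ih (fun y hy => hl y (List.mem_cons_of_mem _ hy))
      have hupd : ∀ (s₀ : S) (δ : ℤ), |δ| ≤ 1 → ∃ k' : S → ℤ,
          (∀ s, |k' s| ≤ (((x :: l).length : ℕ) : ℤ)) ∧
          ∏ s : S, (s : G) ^ (k' s) = (s₀ : G) ^ δ * l.prod := by
        intro s₀ δ hδ
        refine ⟨fun s => k s + (Pi.single s₀ δ : S → ℤ) s, ?_, ?_⟩
        · intro s
          rw [List.length_cons]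
          push_cast
          have h1 := hk1 s
          have h2 : |(Pi.single s₀ δ : S → ℤ) s| ≤ 1 := by
            by_cases e : s = s₀
            · rw [e, Pi.single_eq_same]; exact hδ
            · rw [Pi.single_eq_of_ne e]; simp
          exact (abs_add_le _ _).trans (add_le_add h1 h2)
        · have h1 : ∀ s : S, (s : G) ^ (k s + (Pi.single s₀ δ : S → ℤ) s) =
              (s : G) ^ ((Pi.single s₀ δ : S → ℤ) s) * (s : G) ^ (k s) := by
            intro s
            rw [zpow_add, mul_comm]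
          rw [Finset.prod_congr rfl (fun s _ => h1 s), Finset.prod_mul_distrib, ← hk2]
          congr 1
          rw [Finset.prod_eq_single s₀]
          · rw [Pi.single_eq_same]
          · intro s _ hs
            rw [Pi.single_eq_of_ne hs, zpow_zero]
          · intro h; exact absurd (Finset.mem_univ _) h
      rcases hl x List.mem_cons_self with hx | hx
      · obtain ⟨k', h1, h2⟩ := hupd ⟨x, hx⟩ 1 (by norm_num)
        refine ⟨k', h1, ?_⟩
        rw [h2, List.prod_cons, zpow_one]
      · obtain ⟨k', h1, h2⟩ := hupd ⟨x⁻¹, hx⟩ (-1) (by norm_num)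
        refine ⟨k', h1, ?_⟩
        rw [h2, List.prod_cons, zpow_neg_one, inv_inv]
  let F : (S → Fin (2 * n + 1)) → G := fun k => ∏ s : S, (s : G) ^ (((k s : ℕ) : ℤ) - n)
  have hsub : {g : G | ∃ l : List G, l.length ≤ n ∧ (∀ x ∈ l, x ∈ S ∨ x⁻¹ ∈ S) ∧ l.prod = g} ⊆
      Set.range F := by
    rintro g ⟨l, h1, h2, rfl⟩
    obtain ⟨k, hk1, hk2⟩ := key l h2
    have hb : ∀ s, 0 ≤ k s + n ∧ k s + n < 2 * n + 1 := by
      intro s
      have h3 := abs_le.1 (hk1 s)
      have h4 : (l.length : ℤ) ≤ n := by exact_mod_cast h1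
      constructor <;> linarith [h3.1, h3.2]
    refine ⟨fun s => ⟨(k s + n).toNat, ?_⟩, ?_⟩
    · have := hb s
      omega
    · show (∏ s : S, (s : G) ^ ((((k s + n).toNat : ℕ) : ℤ) - n)) = l.prod
      rw [hk2]
      apply Finset.prod_congr rfl
      intro s _
      congr 1
      have := (hb s).1
      rw [Int.toNat_of_nonneg this]
      ring
  unfold ballSize
  have hfin : (Set.range F).Finite := Set.finite_range F
  have h1 : Nat.card {g : G // ∃ l : List G, l.length ≤ n ∧ (∀ x ∈ l, x ∈ S ∨ x⁻¹ ∈ S) ∧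
      l.prod = g} ≤ Nat.card (Set.range F) := Nat.card_mono hfin hsub
  have h2 : Nat.card (Set.range F) ≤ (2 * n + 1) ^ S.card := by
    calc Nat.card (Set.range F) ≤ Nat.card (S → Fin (2 * n + 1)) :=
          Finite.card_range_le F
      _ = (2 * n + 1) ^ S.card := by
          rw [Nat.card_eq_fintype_card, Fintype.card_fun, Fintype.card_fin, Fintype.card_coe]
  calc _ ≤ _ := h1
    _ ≤ (2 * n + 1) ^ S.card := h2
    _ ≤ 2 * (2 * n + 1) ^ S.card := by omega

/-- Groups generated by two involutions do not have intermediate growth. -/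
lemma not_ig_dihedral {G : Type} [Group G] (a b : G) (ha : a * a = 1) (hb : b * b = 1)
    (hgen : Subgroup.closure ({a, b} : Set G) = ⊤) : ¬ IntermediateGrowth G := by
  classical
  refine not_ig_of_bound {a, b} (by rw [Finset.coe_pair]; exact hgen) 1 (fun n => ?_)
  have hai : a⁻¹ = a := inv_eq_of_mul_eq_one_left ha
  have hbi : b⁻¹ = b := inv_eq_of_mul_eq_one_left hb
  set t := a * b with ht
  have hta : ∀ k : ℤ, a * t ^ k = t ^ (-k) * a := by
    intro k
    have h1 : a * t * a⁻¹ = t⁻¹ := by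
      rw [ht, mul_inv_rev, hai, hbi, ← mul_assoc, ha, one_mul]
    have h2 : a * t ^ k * a⁻¹ = t ^ (-k) := by
      rw [← conj_zpow, h1, inv_zpow, zpow_neg]
    rw [← h2]
    group
  have htb : ∀ k : ℤ, b * t ^ k = t ^ (-k - 1) * a := by
    intro k
    have h1 : b = t⁻¹ * a := by
      rw [ht, mul_inv_rev, hai, hbi, mul_assoc, ha, mul_one]
    calc b * t ^ k = t⁻¹ * (a * t ^ k) := by rw [h1]; group
      _ = t⁻¹ * (t ^ (-k) * a) := by rw [hta]
      _ = t ^ (-k - 1) * a := by
          rw [← mul_assoc, ← zpow_neg_one, ← zpow_add]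
          congr 2
          ring
  have key : ∀ l : List G, (∀ x ∈ l, x ∈ ({a, b} : Finset G) ∨ x⁻¹ ∈ ({a, b} : Finset G)) →
      ∃ (k : ℤ) (e : Bool), |k| ≤ l.length ∧ l.prod = t ^ k * (if e then a else 1) := by
    intro l
    induction l with
    | nil => intro _; exact ⟨0, false, by simp, by simp⟩
    | cons x l ih =>
      intro hl
      obtain ⟨k, e, hk, hp⟩ := ih (fun y hy => hl y (List.mem_cons_of_mem _ hy))
      have hx : x = a ∨ x = b := by
        rcases hl x List.mem_cons_self with h | h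
        · simpa using h
        · rw [Finset.mem_insert, Finset.mem_singleton] at h
          rcases h with h | h
          · left; rw [← inv_inv x, h, hai]
          · right; rw [← inv_inv x, h, hbi]
      have hk' := abs_le.1 hk
      rcases hx with rfl | rfl
      · refine ⟨-k, !e, ?_, ?_⟩
        · rw [List.length_cons, abs_neg]; push_cast; linarith
        · rw [List.prod_cons, hp, ← mul_assoc, hta]
          cases e
          · simp
          · simp [mul_assoc, ha]
      · refine ⟨-k - 1, !e, ?_, ?_⟩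
        · rw [List.length_cons, abs_le]; push_cast
          constructor <;> linarith [hk'.1, hk'.2]
        · rw [List.prod_cons, hp, ← mul_assoc, htb]
          cases e
          · simp
          · simp [mul_assoc, ha]
  let F : Bool × Fin (2 * n + 1) → G := fun p =>
    t ^ (((p.2 : ℕ) : ℤ) - n) * (if p.1 then a else 1)
  have hsub : {g : G | ∃ l : List G, l.length ≤ n ∧ (∀ x ∈ l, x ∈ ({a, b} : Finset G) ∨
      x⁻¹ ∈ ({a, b} : Finset G)) ∧ l.prod = g} ⊆ Set.range F := by
    rintro g ⟨l, h1, h2, rfl⟩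
    obtain ⟨k, e, hk1, hk2⟩ := key l h2
    have h3 := abs_le.1 hk1
    have h4 : (l.length : ℤ) ≤ n := by exact_mod_cast h1
    refine ⟨(e, ⟨(k + n).toNat, by omega⟩), ?_⟩
    show t ^ ((((k + n).toNat : ℕ) : ℤ) - n) * (if e then a else 1) = l.prod
    rw [hk2, Int.toNat_of_nonneg (by linarith [h3.1])]
    congr 2
    ring
  unfold ballSize
  have hfin : (Set.range F).Finite := Set.finite_range F
  have h1 : Nat.card {g : G // ∃ l : List G, l.length ≤ n ∧ (∀ x ∈ l, x ∈ ({a, b} : Finset G) ∨
      x⁻¹ ∈ ({a, b} : Finset G)) ∧ l.prod = g} ≤ Nat.card (Set.range F) := Nat.card_mono hfin hsub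
  have h2 : Nat.card (Set.range F) ≤ 2 * (2 * n + 1) := by
    calc Nat.card (Set.range F) ≤ Nat.card (Bool × Fin (2 * n + 1)) := Finite.card_range_le F
      _ = 2 * (2 * n + 1) := by
          rw [Nat.card_eq_fintype_card, Fintype.card_prod, Fintype.card_bool, Fintype.card_fin]
  calc _ ≤ _ := h1
    _ ≤ 2 * (2 * n + 1) := h2
    _ = 2 * (2 * n + 1) ^ 1 := by rw [pow_one]

/-! ### The parameter `-2` -/

lemma orb_neg_two (n : ℕ) : orb (-2) (n + 2) = 2 := by
  induction n with
  | zero => rw [zero_add, orb_two]; norm_num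
  | succ n ih => rw [show n + 1 + 2 = (n + 2) + 1 from rfl, orb_succ, ih]; norm_num

theorem not_ig_neg_two (hfin : (postCrit (qf (-2))).Finite) (t : ℂ)
    (ht : t ∉ postCrit (qf (-2))) : ¬ IntermediateGrowth (IMG (qf (-2)) t) := by
  have h0 : ∀ n, 1 ≤ n → orb (-2) n ≠ 0 := by
    intro n hn
    rcases Nat.lt_or_ge n 2 with h | h
    · have : n = 1 := by omega
      rw [this, orb_one]; norm_num
    · obtain ⟨m, rfl⟩ : ∃ m, n = m + 2 := ⟨n - 2, by omega⟩
      rw [orb_neg_two]; norm_num
  obtain ⟨P, hP, hmem, hiso⟩ := img_ks (-2) hfin h0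
  obtain ⟨e⟩ := hiso t ht
  intro hig
  refine not_ig_dihedral (G := (ks hP).grp) ⟨actp hP (ks hP).o, actp_mem hP _⟩
    ⟨actp hP ((ks hP).nxt (ks hP).o), actp_mem hP _⟩ ?_ ?_ ?_ (ig_of_equiv e hig)
  · apply Subtype.ext
    ext1 w
    exact act_invol hP w _
  · apply Subtype.ext
    ext1 w
    exact act_invol hP w _
  · refine Eq.trans ?_ (Subgroup.closure_closure_coe_preimage
      (k := {g : Equiv.Perm (List Bool) | ∃ i, ∀ x, g x = (ks hP).act i x}))
    congr 1
    ext g
    constructor
    · intro hg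
      rcases hg with rfl | rfl
      · exact ⟨(ks hP).o, fun _ => rfl⟩
      · exact ⟨(ks hP).nxt (ks hP).o, fun _ => rfl⟩
    · rintro ⟨i, hi⟩
      have h1 : g = ⟨actp hP i, actp_mem hP i⟩ := by
        apply Subtype.ext
        ext1 w
        exact hi w
      obtain ⟨n, hn, he⟩ := (hmem i.1).1 i.2
      rcases Nat.lt_or_ge n 2 with h | h
      · have h2 : n = 1 := by omega
        rw [h2, orb_one] at he
        have h3 : i = (ks hP).o := Subtype.ext he
        left
        rw [h1, h3]
      · obtain ⟨m, rfl⟩ : ∃ m, n = m + 2 := ⟨n - 2, by omega⟩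
        rw [orb_neg_two] at he
        have h3 : i = (ks hP).nxt (ks hP).o := by
          apply Subtype.ext
          rw [ks_nxt, ks_o, he]; norm_num
        right
        rw [h1, h3]
        rfl

/-! ### The parameter `0` -/

lemma it_qf_zero (n : ℕ) (z : ℂ) : it (qf 0) n z = z ^ (2 ^ n) := by
  induction n with
  | zero => simp [it_zero]
  | succ n ih =>
    rw [it_succ, ih, qf_eval]
    push_cast
    rw [add_zero, ← pow_mul, pow_succ]

theorem not_ig_zero (t : ℂ) (ht : t ∉ postCrit (qf 0)) : ¬ IntermediateGrowth (IMG (qf 0) t) := by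
  have horb : ∀ n, orb 0 n = 0 := by
    intro n
    induction n with
    | zero => simp [orb]
    | succ n ih => rw [orb_succ, ih]; norm_num
  have hpc : postCrit (qf 0) = {0} := by
    ext z
    rw [mem_postCrit]
    constructor
    · rintro ⟨n, hn, rfl⟩
      rw [horb]; simp
    · intro hz
      refine ⟨1, le_refl _, ?_⟩
      rw [horb, hz]
      simp
  have hfin : (postCrit (qf 0)).Finite := by rw [hpc]; exact Set.finite_singleton _
  have hA : Adm (qf 0) {0} := by
    rw [← hpc]
    exact adm_postCrit _ (by rw [qf_deg]) hfin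
  have ht0 : t ≠ 0 := by
    intro h; apply ht; rw [hpc, h]; rfl
  -- elements act by multiplication
  have key : ∀ g ∈ IMG (qf 0) t, ∀ v v' : Vertex (qf 0) t, v.1.1 = v'.1.1 →
      (g v).1.1 = v.1.1 ∧ (g v).1.2 * v'.1.2 = (g v').1.2 * v.1.2 := by
    intro g hg
    have hne : ∀ v : Vertex (qf 0) t, v.1.2 ≠ 0 := by
      intro v hv
      apply ht0
      have := v.2
      rw [it_qf_zero, hv, zero_pow (by positivity)] at this
      exact this.symm
    refine Subgroup.closure_induction (p := fun g _ => ∀ v v' : Vertex (qf 0) t,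
      v.1.1 = v'.1.1 → (g v).1.1 = v.1.1 ∧ (g v).1.2 * v'.1.2 = (g v').1.2 * v.1.2)
      ?_ ?_ ?_ ?_ hg
    · rintro g ⟨γ, h0, h1, hγ, hact⟩ v v' hvv
      obtain ⟨h2, Γ, h3, h4, h5⟩ := hact v
      obtain ⟨h6, Γ', h7, h8, h9⟩ := hact v'
      refine ⟨h2, ?_⟩
      rw [hpc] at hγ
      set ζ : ℂ := v'.1.2 / v.1.2 with hζ
      have hζ1 : ζ ^ (2 ^ v.1.1) = 1 := by
        have e1 := v.2
        have e2 := v'.2
        rw [it_qf_zero] at e1 e2
        rw [hζ, div_pow, e1, hvv, e2, div_self ht0]
      have h10 : (fun s : I => ζ * Γ s) = Γ' := by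
        apply hA.lift_unique v.1.1 (by fun_prop) Γ'.continuous _ _ 0
        · show ζ * Γ 0 = Γ' 0
          rw [h3, h7, hζ, div_mul_cancel₀ _ (hne v)]
        · intro s
          have e1 := h5 s
          have e2 := h9 s
          rw [← hvv] at e2
          rw [e2, it_qf_zero, mul_pow, hζ1, one_mul, ← it_qf_zero, e1]
        · intro s
          rw [it_qf_zero, mul_pow, hζ1, one_mul, ← it_qf_zero, h5 s]
          exact hγ s
      have h11 : ζ * Γ 1 = Γ' 1 := congrFun h10 1
      rw [h4, h8] at h11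
      rw [← h11, hζ]
      field_simp [hne v]
    · intro v v' _
      exact ⟨rfl, by simp [mul_comm]⟩
    · intro g k _ _ hg hk v v' hvv
      have h1 := hk v v' hvv
      have h1' := hk v' v hvv.symm
      have h2 := hg (k v) (k v') (by rw [h1.1, h1'.1, hvv])
      refine ⟨h2.1.trans h1.1, ?_⟩
      have h3 := h2.2
      have h4 := h1.2
      have h5 := hne (k v)
      have h6 := hne (k v')
      rw [Equiv.Perm.mul_apply, Equiv.Perm.mul_apply]
      have h7 : ((g (k v)).1.2 * v'.1.2) * ((k v).1.2 * (k v').1.2) =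
          ((g (k v')).1.2 * v.1.2) * ((k v).1.2 * (k v').1.2) := by
        calc ((g (k v)).1.2 * v'.1.2) * ((k v).1.2 * (k v').1.2)
            = ((g (k v)).1.2 * (k v').1.2) * ((k v).1.2 * v'.1.2) := by ring
          _ = ((g (k v')).1.2 * (k v).1.2) * ((k v').1.2 * v.1.2) := by rw [h3, h4]
          _ = _ := by ring
      exact mul_right_cancel₀ (mul_ne_zero h5 h6) h7
    · intro g _ hg v v' hvv
      have hlev : ∀ w : Vertex (qf 0) t, (g⁻¹ w).1.1 = w.1.1 := by
        intro w
        have := (hg (g⁻¹ w) (g⁻¹ w) rfl).1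
        have hw : g (g⁻¹ w) = w := by simp
        rw [hw] at this
        exact this.symm
      have h1 := hg (g⁻¹ v) (g⁻¹ v') (by rw [hlev, hlev, hvv])
      have hw : g (g⁻¹ v) = v := by simp
      have hw' : g (g⁻¹ v') = v' := by simp
      rw [hw, hw'] at h1
      refine ⟨hlev v, ?_⟩
      rw [mul_comm _ v'.1.2, mul_comm _ v.1.2]
      exact h1.2.symm
  apply not_ig_comm
  rintro ⟨g, hg⟩ ⟨k, hk⟩
  apply Subtype.ext
  ext1 v
  show g (k v) = k (g v)
  have hne : ∀ v : Vertex (qf 0) t, v.1.2 ≠ 0 := by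
    intro v hv
    apply ht0
    have := v.2
    rw [it_qf_zero, hv, zero_pow (by positivity)] at this
    exact this.symm
  have h1 := key k hk v (g v) ((key g hg v v rfl).1).symm
  have h2 := key g hg v (k v) ((key k hk v v rfl).1).symm
  have h3 := (key g hg (k v) (k v) rfl).1
  have h4 := (key k hk (g v) (g v) rfl).1
  apply Subtype.ext
  apply Prod.ext
  · rw [h3, h4, h1.1, h2.1]
  · apply mul_right_cancel₀ (hne v)
    rw [← h1.2, ← h2.2, mul_comm]

end RealB
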