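import Pool.Agent.Work.MP_e3f5d9_al_helper91.RealI

/-!
# Maximal restrictive intervals
-/

set_option autoImplicit false

open Set Filter Topology

namespace RealB

variable {c : ℝ} {n : ℕ} {p : ℝ}

/-- `[-b, b]` is a restrictive interval of period `n`. -/
structure Rst (c : ℝ) (n : ℕ) (b : ℝ) : Prop where
  pos : 0 < b
  inv : ∀ x, |x| ≤ b → |(fc c)^[n] x| ≤ b
  out : ∀ k, 0 < k → k < n → ∀ x, |x| ≤ b → b ≤ |(fc c)^[k] x|

lemma rst_of_renorm (h : RealRenorm c) : ∃ n b, 2 ≤ n ∧ Rst c n b := by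
  obtain ⟨n, hn, b, hb, h1, h2⟩ := h
  exact ⟨n, b, hn, ⟨hb, h1, h2⟩⟩

lemma Rst.le_abs (hn : 2 ≤ n) {b : ℝ} (h : Rst c n b) : b ≤ |c| := by
  have := h.out 1 one_pos (by omega) 0 (by simpa using h.pos.le)
  simpa [fc] using this

lemma closure_abs_lt {b : ℝ} (hb : 0 < b) {x : ℝ} (hx : |x| ≤ b) :
    x ∈ closure {y : ℝ | |y| < b} := by
  have : {y : ℝ | |y| < b} = Metric.ball 0 b := by
    ext y; simp
  rw [this, closure_ball 0 hb.ne', Metric.mem_closedBall, dist_zero_right]
  exact hx

/-- There is a maximal restrictive interval of a given period. -/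
lemma exists_max (hn : 2 ≤ n) {b : ℝ} (h : Rst c n b) :
    ∃ p, Rst c n p ∧ ∀ b', Rst c n b' → b' ≤ p := by
  have hbdd : BddAbove {b | Rst c n b} := ⟨|c|, fun b hb => hb.le_abs hn⟩
  have hne : {b | Rst c n b}.Nonempty := ⟨b, h⟩
  set p := sSup {b | Rst c n b} with hp
  have hle : ∀ b', Rst c n b' → b' ≤ p := fun b' hb' => le_csSup hbdd hb'
  have hpos : 0 < p := lt_of_lt_of_le h.pos (hle b h)
  refine ⟨p, ⟨hpos, ?_, ?_⟩, hle⟩
  · intro x hx
    have h1 : {y : ℝ | |y| < p} ⊆ {y | |(fc c)^[n] y| ≤ p} := by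
      intro y hy
      obtain ⟨b', hb', hyb⟩ := exists_lt_of_lt_csSup hne hy
      exact (Rst.inv hb' y hyb.le).trans (hle b' hb')
    have h2 : IsClosed {y | |(fc c)^[n] y| ≤ p} :=
      isClosed_le (continuous_abs.comp (fc_iter_cont c n)) continuous_const
    exact (closure_minimal h1 h2) (closure_abs_lt hpos hx)
  · intro k hk hkn x hx
    have h1 : {y : ℝ | |y| < p} ⊆ {y | p ≤ |(fc c)^[k] y|} := by
      intro y hy
      show p ≤ _
      apply le_of_forall_lt
      intro r hr
      obtain ⟨b', hb', hyb⟩ := exists_lt_of_lt_csSup hne (max_lt hy hr)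
      have h3 := Rst.out hb' k hk hkn y ((le_max_left _ _).trans hyb.le)
      exact lt_of_lt_of_le (lt_of_le_of_lt (le_max_right _ _) hyb) h3
    have h2 : IsClosed {y | p ≤ |(fc c)^[k] y|} :=
      isClosed_le continuous_const (continuous_abs.comp (fc_iter_cont c k))
    exact (closure_minimal h1 h2) (closure_abs_lt hpos hx)

/-! ### The lap -/

/-- The lap of `f ^ m` right of `0`. -/
def Lap (c : ℝ) (m : ℕ) : Set ℝ :=
  {x | 0 ≤ x ∧ ∀ k, 0 < k → k < m → 0 ≤ (fc c)^[k] 0 * (fc c)^[k] x}

lemma lap_closed (m : ℕ) : IsClosed (Lap c m) := by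
  have : Lap c m = Ici 0 ∩ ⋂ k : ℕ, ⋂ _ : 0 < k, ⋂ _ : k < m,
      {x | 0 ≤ (fc c)^[k] 0 * (fc c)^[k] x} := by
    ext x
    simp [Lap]
  rw [this]
  apply isClosed_Ici.inter
  refine isClosed_iInter fun k => isClosed_iInter fun _ => isClosed_iInter fun _ => ?_
  exact isClosed_le continuous_const (continuous_const.mul (fc_iter_cont c k))

lemma lap_anti {m m' : ℕ} (h : m ≤ m') : Lap c m' ⊆ Lap c m :=
  fun _ hx => ⟨hx.1, fun k hk hkm => hx.2 k hk (by omega)⟩

lemma zero_mem_lap (m : ℕ) : (0 : ℝ) ∈ Lap c m :=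
  ⟨le_refl _, fun k _ _ => mul_self_nonneg _⟩

lemma fc_mono_pos {x y : ℝ} (hx : 0 ≤ x) (hxy : x < y) : fc c x < fc c y := by
  unfold fc; nlinarith

lemma fc_anti_neg {x y : ℝ} (hy : y ≤ 0) (hxy : x < y) : fc c y < fc c x := by
  unfold fc; nlinarith

/-- On the lap the iterate is strictly monotone. -/
lemma lap_mono (m : ℕ) (h0 : ∀ k, 0 < k → k < m + 1 → (fc c)^[k] 0 ≠ 0) :
    OrdConnected (Lap c (m + 1)) ∧ (StrictMonoOn (fc c)^[m + 1] (Lap c (m + 1)) ∨
      StrictAntiOn (fc c)^[m + 1] (Lap c (m + 1))) := by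
  induction m with
  | zero =>
    have h1 : Lap c 1 = Ici 0 := by
      ext x
      simp only [Lap, mem_setOf_eq, mem_Ici]
      exact ⟨fun h => h.1, fun h => ⟨h, fun k hk hk' => by omega⟩⟩
    rw [zero_add, h1]
    refine ⟨ordConnected_Ici, Or.inl ?_⟩
    intro x hx y _ hxy
    rw [Function.iterate_one]
    exact fc_mono_pos hx hxy
  | succ m ih =>
    obtain ⟨ih1, ih2⟩ := ih (fun k hk hkm => h0 k hk (by omega))
    have hsub : Lap c (m + 1 + 1) ⊆ Lap c (m + 1) := lap_anti (by omega)
    have hmem : ∀ x, x ∈ Lap c (m + 1) → 0 ≤ (fc c)^[m + 1] 0 * (fc c)^[m + 1] x →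
        x ∈ Lap c (m + 1 + 1) := by
      intro x hx h1
      refine ⟨hx.1, fun k hk hkm => ?_⟩
      rcases Nat.lt_or_ge k (m + 1) with h2 | h2
      · exact hx.2 k hk h2
      · have h3 : k = m + 1 := by omega
        rw [h3]; exact h1
    have hne := h0 (m + 1) (by omega) (by omega)
    constructor
    · constructor
      intro x hx y hy z hz
      have hz' : z ∈ Lap c (m + 1) := ih1.out (hsub hx) (hsub hy) hz
      apply hmem z hz'
      have hx2 := hx.2 (m + 1) (by omega) (by omega)
      have hy2 := hy.2 (m + 1) (by omega) (by omega)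
      have hb : ((fc c)^[m + 1] x ≤ (fc c)^[m + 1] z ∧ (fc c)^[m + 1] z ≤ (fc c)^[m + 1] y) ∨
          ((fc c)^[m + 1] y ≤ (fc c)^[m + 1] z ∧ (fc c)^[m + 1] z ≤ (fc c)^[m + 1] x) := by
        rcases ih2 with h | h
        · left
          exact ⟨h.monotoneOn (hsub hx) hz' hz.1, h.monotoneOn hz' (hsub hy) hz.2⟩
        · right
          exact ⟨h.antitoneOn hz' (hsub hy) hz.2, h.antitoneOn (hsub hx) hz' hz.1⟩
      rcases lt_or_gt_of_ne hne with h1 | h1
      · have hx3 : (fc c)^[m + 1] x ≤ 0 := by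
          by_contra h; push Not at h; nlinarith
        have hy3 : (fc c)^[m + 1] y ≤ 0 := by
          by_contra h; push Not at h; nlinarith
        rcases hb with hb | hb
        · nlinarith [hb.2]
        · nlinarith [hb.2]
      · have hx3 : 0 ≤ (fc c)^[m + 1] x := by
          by_contra h; push Not at h; nlinarith
        have hy3 : 0 ≤ (fc c)^[m + 1] y := by
          by_contra h; push Not at h; nlinarith
        rcases hb with hb | hb
        · nlinarith [hb.1]
        · nlinarith [hb.1]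
    · have hsgn : (∀ x ∈ Lap c (m + 1 + 1), 0 ≤ (fc c)^[m + 1] x) ∨
          (∀ x ∈ Lap c (m + 1 + 1), (fc c)^[m + 1] x ≤ 0) := by
        rcases lt_or_gt_of_ne hne with h1 | h1
        · right
          intro x hx
          have hx2 := hx.2 (m + 1) (by omega) (by omega)
          by_contra h; push Not at h; nlinarith
        · left
          intro x hx
          have hx2 := hx.2 (m + 1) (by omega) (by omega)
          by_contra h; push Not at h; nlinarith
      rcases hsgn with hs | hs
      · rcases ih2 with h | h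
        · left
          intro x hx y hy hxy
          rw [Function.iterate_succ_apply' _ (m + 1), Function.iterate_succ_apply' _ (m + 1)]
          exact fc_mono_pos (hs x hx) (h (hsub hx) (hsub hy) hxy)
        · right
          intro x hx y hy hxy
          rw [Function.iterate_succ_apply' _ (m + 1), Function.iterate_succ_apply' _ (m + 1)]
          exact fc_mono_pos (hs y hy) (h (hsub hx) (hsub hy) hxy)
      · rcases ih2 with h | h
        · right
          intro x hx y hy hxy
          rw [Function.iterate_succ_apply' _ (m + 1), Function.iterate_succ_apply' _ (m + 1)]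
          exact fc_anti_neg (hs y hy) (h (hsub hx) (hsub hy) hxy)
        · left
          intro x hx y hy hxy
          rw [Function.iterate_succ_apply' _ (m + 1), Function.iterate_succ_apply' _ (m + 1)]
          exact fc_anti_neg (hs x hx) (h (hsub hx) (hsub hy) hxy)

lemma Rst.orb_ne {b : ℝ} (h : Rst c n b) : ∀ k, 0 < k → k < n → (fc c)^[k] 0 ≠ 0 := by
  intro k hk hkn h0
  have := h.out k hk hkn 0 (by simpa using h.pos.le)
  rw [h0, abs_zero] at this
  exact absurd this (not_le.2 h.pos)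

/-- The interval is contained in the lap. -/
lemma Rst.sub_lap {b : ℝ} (h : Rst c n b) {x : ℝ} (h0 : 0 ≤ x) (hx : x ≤ b) : x ∈ Lap c n := by
  refine ⟨h0, fun k hk hkn => ?_⟩
  by_contra hcon
  push Not at hcon
  -- a zero between
  have h1 : (0 : ℝ) ∈ (fc c)^[k] '' Icc 0 x := by
    have hc := (fc_iter_cont c k).continuousOn (s := Icc 0 x)
    rcases mul_neg_iff.1 hcon with ⟨h2, h3⟩ | ⟨h2, h3⟩
    · exact intermediate_value_Icc' h0 hc ⟨h3.le, h2.le⟩
    · exact intermediate_value_Icc h0 hc ⟨h2.le, h3.le⟩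
  obtain ⟨y, hy, hy0⟩ := h1
  have := h.out k hk hkn y (by rw [abs_of_nonneg hy.1]; exact hy.2.trans hx)
  rw [hy0, abs_zero] at this
  exact absurd this (not_le.2 h.pos)

lemma lap_mono' (hn : 0 < n) (h0 : ∀ k, 0 < k → k < n → (fc c)^[k] 0 ≠ 0) :
    OrdConnected (Lap c n) ∧ (StrictMonoOn (fc c)^[n] (Lap c n) ∨
      StrictAntiOn (fc c)^[n] (Lap c n)) := by
  obtain ⟨m, rfl⟩ : ∃ m, n = m + 1 := ⟨n - 1, by omega⟩
  exact lap_mono m h0

lemma inj_on_lap (hn : 0 < n) (h0 : ∀ k, 0 < k → k < n → (fc c)^[k] 0 ≠ 0) :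
    InjOn (fc c)^[n] (Lap c n) := by
  rcases (lap_mono' hn h0).2 with h | h
  · exact h.injOn
  · exact h.injOn

/-- Iterates at `p` when `|f^m p| = p`. -/
lemma iter_ret {m : ℕ} (hm : |(fc c)^[m] p| = |p|) (j : ℕ) (hj : 0 < j) :
    (fc c)^[m + j] p = (fc c)^[j] p := by
  rw [add_comm, Function.iterate_add_apply]
  rcases abs_eq_abs.1 hm with h | h <;> rw [h]
  exact iter_neg j hj p

lemma iter_ret_mul {k : ℕ} (hk : 0 < k) (hm : |(fc c)^[k] p| = |p|) (j i : ℕ) (hi : 0 < i) :
    (fc c)^[j * k + i] p = (fc c)^[i] p := by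
  induction j with
  | zero => rw [zero_mul, zero_add]
  | succ j ih =>
    rw [show (j + 1) * k + i = k + (j * k + i) by ring, iter_ret hm _ (by omega), ih]

/-- Case A. -/
lemma Rst.caseA (h : Rst c n p) {k : ℕ} (hk : 0 < k) (hkn : k < n)
    (hS : |(fc c)^[k] p| = p) : |(fc c)^[n] p| = p := by
  have hp := h.pos
  have hS' : |(fc c)^[k] p| = |p| := by rw [hS, abs_of_pos hp]
  have hle := h.inv p (by rw [abs_of_pos hp])
  have hdiv := Nat.div_add_mod n k
  have hmod := Nat.mod_lt n hk
  rcases Nat.eq_zero_or_pos (n % k) with h0 | h0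
  · -- `n` is a multiple of `k`
    have h1 : 1 ≤ n / k := Nat.div_pos hkn.le hk
    have h2 : n = (n / k - 1) * k + k := by
      calc n = k * (n / k) := by omega
        _ = (n / k - 1) * k + k := by
          obtain ⟨q, hq⟩ : ∃ q, n / k = q + 1 := ⟨n / k - 1, by omega⟩
          rw [hq]; simp; ring
    rw [h2, iter_ret_mul hk hS' _ k hk]
    exact hS
  · have h2 : n = (n / k) * k + n % k := by rw [mul_comm]; exact hdiv.symm
    have h3 : (fc c)^[n] p = (fc c)^[n % k] p := by
      conv_lhs => rw [h2]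
      exact iter_ret_mul hk hS' _ _ h0
    have h4 := h.out (n % k) h0 (by omega) p (by rw [abs_of_pos hp])
    rw [h3] at hle ⊢
    exact le_antisymm hle h4

/-- Case B. -/
lemma Rst.caseB (h : Rst c n p) {k : ℕ} (hk : 0 < k) (hkn : k < n)
    (hS : |(fc c)^[k] 0| = p) : |(fc c)^[n - k] p| = p := by
  have hp := h.pos
  have h1 : (fc c)^[n] 0 = (fc c)^[n - k] p := by
    have h2 : n = (n - k) + k := by omega
    conv_lhs => rw [h2, Function.iterate_add_apply]
    have h3 : |(fc c)^[k] 0| = |p| := by rw [hS, abs_of_pos hp]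
    rcases abs_eq_abs.1 h3 with h4 | h4 <;> rw [h4]
    exact iter_neg _ (by omega) p
  have h2 := h.inv 0 (by simpa using hp.le)
  have h3 := h.out (n - k) (by omega) (by omega) p (by rw [abs_of_pos hp])
  rw [h1] at h2
  exact le_antisymm h2 h3

/-- The critical orbit stays strictly outside. -/
lemma Rst.caseC (h : Rst c n p) (hg : |(fc c)^[n] p| = p) {k : ℕ} (hk : 0 < k) (hkn : k < n) :
    p < |(fc c)^[k] 0| := by
  have hp := h.pos
  refine lt_of_le_of_ne (h.out k hk hkn 0 (by simpa using hp.le)) ?_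
  intro he
  have h1 := h.caseB hk hkn he.symm
  have h2 : (fc c)^[n] p = (fc c)^[k] p := by
    have h3 : n = (n - k) + k := by omega
    conv_lhs => rw [h3]
    exact iter_ret (by rw [h1, abs_of_pos hp]) k hk
  have h3 : |(fc c)^[k] p| = p := by rw [← h2]; exact hg
  -- same sign and same absolute value
  have h4 := (h.sub_lap hp.le (le_refl p)).2 k hk hkn
  have h5 : (fc c)^[k] 0 = (fc c)^[k] p := by
    have h6 : |(fc c)^[k] 0| = |(fc c)^[k] p| := by rw [h3, ← he]
    rcases abs_eq_abs.1 h6 with h7 | h7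
    · exact h7
    · rw [h7] at h4
      have h8 : (fc c)^[k] p = 0 := by
        by_contra h9
        have : 0 < (fc c)^[k] p * (fc c)^[k] p := mul_self_pos.2 h9
        nlinarith
      rw [h8, abs_zero] at h3
      linarith
  have h6 := inj_on_lap hk (fun j hj hjk => h.orb_ne j hj (by omega))
    (zero_mem_lap k) (lap_anti hkn.le (h.sub_lap hp.le (le_refl p))) h5
  linarith

/-- The endpoint of the maximal interval returns. -/
lemma Rst.ret (hn : 2 ≤ n) (h : Rst c n p) (hmax : ∀ b', Rst c n b' → b' ≤ p) :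
    |(fc c)^[n] p| = p := by
  have hp := h.pos
  by_contra hne
  have hlt : |(fc c)^[n] p| < p :=
    lt_of_le_of_ne (h.inv p (by rw [abs_of_pos hp])) hne
  have hA : ∀ k, 0 < k → k < n → p < |(fc c)^[k] p| := by
    intro k hk hkn
    refine lt_of_le_of_ne (h.out k hk hkn p (by rw [abs_of_pos hp])) ?_
    intro he
    exact hne (h.caseA hk hkn he.symm)
  have hB : ∀ k, 0 < k → k < n → p < |(fc c)^[k] 0| := by
    intro k hk hkn
    refine lt_of_le_of_ne (h.out k hk hkn 0 (by simpa using hp.le)) ?_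
    intro he
    have h1 := h.caseB hk hkn he.symm
    exact absurd h1 (ne_of_gt (hA (n - k) (by omega) (by omega)))
  -- a level above `p`
  obtain ⟨r, hpr, hr⟩ : ∃ r, p < r ∧ ∀ k, 0 < k → k < n →
      r < |(fc c)^[k] 0| ∧ r < |(fc c)^[k] p| := by
    have hev3 : ∀ k, 0 < k → k < n → ∀ᶠ x in 𝓝 p, x < |(fc c)^[k] 0| ∧ x < |(fc c)^[k] p| :=
      fun k hk hkn => (eventually_lt_nhds (hB k hk hkn)).and (eventually_lt_nhds (hA k hk hkn))
    have hev3' : ∀ᶠ x in 𝓝 p, ∀ k ∈ Finset.range n, 0 < k →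
        x < |(fc c)^[k] 0| ∧ x < |(fc c)^[k] p| := by
      rw [Filter.eventually_all_finset]
      intro k hk
      rcases Nat.eq_zero_or_pos k with h0 | h0
      · exact Eventually.of_forall fun x h1 => by omega
      · exact (hev3 k h0 (Finset.mem_range.1 hk)).mono fun x hx _ => hx
    obtain ⟨δ, hδ, hball⟩ := Metric.eventually_nhds_iff.1 hev3'
    refine ⟨p + δ / 2, by linarith, fun k hk hkn => ?_⟩
    apply hball _ k (Finset.mem_range.2 hkn) hk
    rw [Real.dist_eq, show p + δ / 2 - p = δ / 2 by ring, abs_of_pos (by linarith)]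
    linarith
  -- enlarge the interval
  have hev1 : ∀ᶠ x in 𝓝 p, |(fc c)^[n] x| < p :=
    (continuous_abs.comp (fc_iter_cont c n)).continuousAt.eventually_lt continuousAt_const hlt
  have hev2' : ∀ᶠ x in 𝓝 p, ∀ k ∈ Finset.range n, 0 < k → r < |(fc c)^[k] x| := by
    rw [Filter.eventually_all_finset]
    intro k hk
    rcases Nat.eq_zero_or_pos k with h0 | h0
    · exact Eventually.of_forall fun x h1 => by omega
    · have h1 : ∀ᶠ x in 𝓝 p, r < |(fc c)^[k] x| :=
        continuousAt_const.eventually_lt (continuous_abs.comp (fc_iter_cont c k)).continuousAt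
          (hr k h0 (Finset.mem_range.1 hk)).2
      exact h1.mono fun x hx _ => hx
  obtain ⟨δ, hδ, hball⟩ := Metric.eventually_nhds_iff.1 (hev1.and hev2')
  -- the larger radius
  set b' := min r (p + δ / 2) with hb'
  have hpb' : p < b' := lt_min hpr (by linarith)
  have hb'r : b' ≤ r := min_le_left _ _
  have hb'd : b' ≤ p + δ / 2 := min_le_right _ _
  have hnear : ∀ x, p ≤ x → x ≤ b' → |(fc c)^[n] x| < p ∧ ∀ k, 0 < k → k < n →
      r < |(fc c)^[k] x| := by
    intro x h1 h2
    have h3 : dist x p < δ := by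
      rw [Real.dist_eq, abs_of_nonneg (by linarith)]
      linarith
    exact ⟨(hball h3).1, fun k hk hkn => (hball h3).2 k (Finset.mem_range.2 hkn) hk⟩
  -- lower bound of the intermediate iterates
  have hin : ∀ k, 0 < k → k < n → ∀ y, 0 ≤ y → y ≤ p → b' ≤ |(fc c)^[k] y| := by
    intro k hk hkn y hy0 hy
    have hball' := hr k hk hkn
    have hmon := (lap_mono' hk (fun j hj hjk => h.orb_ne j hj (by omega))).2
    have m0 := zero_mem_lap (c := c) k
    have my : y ∈ Lap c k := lap_anti hkn.le (h.sub_lap hy0 hy)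
    have mp : p ∈ Lap c k := lap_anti hkn.le (h.sub_lap hp.le (le_refl p))
    have hb : ((fc c)^[k] 0 ≤ (fc c)^[k] y ∧ (fc c)^[k] y ≤ (fc c)^[k] p) ∨
        ((fc c)^[k] p ≤ (fc c)^[k] y ∧ (fc c)^[k] y ≤ (fc c)^[k] 0) := by
      rcases hmon with h1 | h1
      · left
        exact ⟨h1.monotoneOn m0 my hy0, h1.monotoneOn my mp hy⟩
      · right
        exact ⟨h1.antitoneOn my mp hy, h1.antitoneOn m0 my hy0⟩
    have hsg := (h.sub_lap hp.le (le_refl p)).2 k hk hkn
    have hne0 := h.orb_ne k hk hkn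
    have hnep : (fc c)^[k] p ≠ 0 := by
      intro h2
      have := hA k hk hkn
      rw [h2, abs_zero] at this
      linarith
    rcases lt_or_gt_of_ne hne0 with h2 | h2
    · have h3 : (fc c)^[k] p < 0 := by
        rcases lt_or_gt_of_ne hnep with h3 | h3
        · exact h3
        · exfalso; linarith [mul_neg_of_neg_of_pos h2 h3]
      have h4 : (fc c)^[k] y < 0 := by
        rcases hb with hb | hb
        · linarith [hb.2]
        · linarith [hb.2]
      rw [abs_of_neg h2, abs_of_neg h3] at hball'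
      rw [abs_of_neg h4]
      rcases hb with hb | hb
      · linarith [hb.2, hball'.2]
      · linarith [hb.2, hball'.1]
    · have h3 : 0 < (fc c)^[k] p := by
        rcases lt_or_gt_of_ne hnep with h3 | h3
        · exfalso; linarith [mul_neg_of_pos_of_neg h2 h3]
        · exact h3
      have h4 : 0 < (fc c)^[k] y := by
        rcases hb with hb | hb
        · linarith [hb.1]
        · linarith [hb.1]
      rw [abs_of_pos h2, abs_of_pos h3] at hball'
      rw [abs_of_pos h4]
      rcases hb with hb | hb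
      · linarith [hb.1, hball'.1]
      · linarith [hb.1, hball'.2]
  have habs : ∀ k, 0 < k → ∀ x, (fc c)^[k] |x| = (fc c)^[k] x := by
    intro k hk x
    rcases abs_choice x with h1 | h1 <;> rw [h1]
    exact iter_neg k hk x
  have hR : Rst c n b' := by
    refine ⟨by linarith, ?_, ?_⟩
    · intro x hx
      rw [← habs n (by omega)]
      rcases le_total |x| p with h1 | h1
      · exact (h.inv |x| (by rw [abs_abs]; exact h1)).trans hpb'.le
      · exact ((hnear |x| h1 hx).1.le).trans hpb'.le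
    · intro k hk hkn x hx
      rw [← habs k hk]
      rcases le_total |x| p with h1 | h1
      · exact hin k hk hkn |x| (abs_nonneg x) h1
      · exact hb'r.trans ((hnear |x| h1 hx).2 k hk hkn).le
  exact absurd (hmax b' hR) (not_le.2 hpb')

end RealB
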