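import Pool.Agent.Work.MP_e3f5d9_al_helper91.CxA

/-!
# Maximal restrictive intervals, second part: expansion outside
-/

set_option autoImplicit false

open Set Filter Topology

namespace RealB

variable {c : ℝ} {n : ℕ} {p : ℝ}

/-! ### Finite orbits -/

lemma orb_not_mono (hfin : {x : ℝ | ∃ m, 1 ≤ m ∧ x = orb c m}.Finite) (k : ℕ) (hk : 1 ≤ k)
    (hm : StrictMono fun m => orb c (m + k)) : False :=
  (Set.infinite_of_injective_forall_mem (s := {x : ℝ | ∃ m, 1 ≤ m ∧ x = orb c m}) hm.injective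
    (fun m => ⟨m + k, by omega, rfl⟩)) hfin

lemma neg_of_fin (hfin : {x : ℝ | ∃ m, 1 ≤ m ∧ x = orb c m}.Finite) (h0 : c ≠ 0) : c < 0 := by
  by_contra hc
  push Not at hc
  have h0 : 0 < c := lt_of_le_of_ne hc (Ne.symm h0)
  apply orb_not_mono hfin 1 (le_refl _)
  apply strictMono_nat_of_lt_succ
  have key : ∀ n, 0 < orb c (n + 1) ∧ orb c (n + 1) < orb c (n + 2) := by
    intro n
    induction n with
    | zero => rw [zero_add, zero_add, orb_one, orb_two]; exact ⟨h0, by nlinarith [sq_pos_of_pos h0]⟩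
    | succ n ih =>
      obtain ⟨h1, h2⟩ := ih
      refine ⟨by linarith, ?_⟩
      rw [orb_succ (n + 2), show n + 1 + 1 = n + 2 from rfl, orb_succ (n + 1)]
      rw [orb_succ (n + 1)] at h2
      nlinarith
  exact fun n => (key n).2

lemma ge_of_fin (hfin : {x : ℝ | ∃ m, 1 ≤ m ∧ x = orb c m}.Finite) : -2 ≤ c := by
  by_contra hc
  push Not at hc
  apply orb_not_mono hfin 2 (by norm_num)
  apply strictMono_nat_of_lt_succ
  have key : ∀ n, -c < orb c (n + 2) ∧ orb c (n + 2) < orb c (n + 3) := by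
    intro n
    induction n with
    | zero =>
      have h1 : -c < orb c 2 := by rw [orb_two]; nlinarith
      refine ⟨h1, ?_⟩
      rw [zero_add, zero_add, orb_succ 2]
      nlinarith
    | succ n ih =>
      obtain ⟨h1, h2⟩ := ih
      have h3 : -c < orb c (n + 3) := by linarith
      refine ⟨h3, ?_⟩
      rw [show n + 1 + 3 = (n + 3) + 1 from rfl, orb_succ (n + 3)]
      rw [show n + 1 + 2 = n + 3 from rfl]
      nlinarith
  exact fun n => (key n).2

/-- The fixed point `β`. -/
noncomputable def bet (c : ℝ) : ℝ := (1 + Real.sqrt (1 - 4 * c)) / 2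

lemma bet_fix (hc : c < 0) : (bet c) ^ 2 + c = bet c := by
  have h := Real.sq_sqrt (show 0 ≤ 1 - 4 * c by linarith)
  unfold bet
  nlinarith

lemma bet_ge (hc : c < 0) (hc2 : -2 ≤ c) : -c ≤ bet c := by
  unfold bet
  have h1 : -2 * c - 1 ≤ Real.sqrt (1 - 4 * c) := by
    apply Real.le_sqrt_of_sq_le
    nlinarith
  linarith

lemma bet_pos : 0 < bet c := by
  unfold bet
  have := Real.sqrt_nonneg (1 - 4 * c)
  linarith

lemma abs_fc_lt (hc : c < 0) (hc2 : -2 ≤ c) {x : ℝ} (hx : |x| < bet c) (hx0 : x ≠ 0) :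
    |fc c x| < bet c := by
  have h1 := bet_fix hc
  have h2 := bet_ge hc hc2
  have h3 : x ^ 2 < (bet c) ^ 2 := by
    rw [← sq_abs x]
    exact lt_sq' (abs_nonneg x) hx
  have h4 : 0 < x ^ 2 := by positivity
  unfold fc
  rw [abs_lt]
  constructor <;> linarith

/-! ### Cross ratios, general form -/

lemma cr_step' {Q : Finset ℝ} (hcQ : c ∈ Q) (hfQ : ∀ x ∈ Q, x ^ 2 + c ∈ Q) {u v : ℝ}
    (huv : u < v) (hs : 0 < u ∨ v < 0) (hl : ∃ z ∈ Q, z < u) (hr : ∃ z ∈ Q, v < z)
    (hr' : ∃ z ∈ Q, max (fc c u) (fc c v) < z) :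
    CR Q u v < CR Q (min (fc c u) (fc c v)) (max (fc c u) (fc c v)) := by
  have hu0 : u ≠ 0 := by rcases hs with h | h <;> [exact h.ne'; exact (by linarith : u < 0).ne]
  have hv0 : v ≠ 0 := by rcases hs with h | h <;> [exact (by linarith : 0 < v).ne'; exact h.ne]
  have hi1 : c < min (fc c u) (fc c v) := by
    have h1 : 0 < u ^ 2 := by positivity
    have h2 : 0 < v ^ 2 := by positivity
    unfold fc
    exact lt_min (by linarith) (by linarith)
  obtain ⟨a1, a2, a3⟩ := pr_spec (P := Q) (u := u) hl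
  obtain ⟨b1, b2, b3⟩ := sc_spec (P := Q) (v := v) hr
  obtain ⟨a1', a2', a3'⟩ := pr_spec (P := Q) (u := min (fc c u) (fc c v)) ⟨c, hcQ, hi1⟩
  obtain ⟨b1', b2', b3'⟩ := sc_spec (P := Q) (v := max (fc c u) (fc c v)) hr'
  unfold CR
  set a := pr Q u with ha
  set b := sc Q v with hb
  set a' := pr Q (min (fc c u) (fc c v)) with ha'
  set b' := sc Q (max (fc c u) (fc c v)) with hb'
  have hca' : c ≤ a' := a3' c hcQ hi1
  have hcb' : c ≤ b' := by
    have := min_le_max (a := fc c u) (b := fc c v)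
    linarith
  set α := Real.sqrt (a' - c) with hα
  set β := Real.sqrt (b' - c) with hβ
  have hα2 : a' = α ^ 2 + c := by rw [hα, Real.sq_sqrt (by linarith)]; ring
  have hβ2 : b' = β ^ 2 + c := by rw [hβ, Real.sq_sqrt (by linarith)]; ring
  have hα0 : 0 ≤ α := Real.sqrt_nonneg _
  have hβ0 : 0 ≤ β := Real.sqrt_nonneg _
  rcases hs with hs | hs
  · -- positive side
    have huv2 : u ^ 2 < v ^ 2 := lt_sq' hs.le huv
    have e1 : min (fc c u) (fc c v) = u ^ 2 + c := by
      unfold fc; rw [min_eq_left]; linarith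
    have e2 : max (fc c u) (fc c v) = v ^ 2 + c := by
      unfold fc; rw [max_eq_right]; linarith
    rw [e1] at a2' a3' ⊢
    rw [e2] at b2' b3' ⊢
    have h1 : α < u := sq_lt' hs.le (by linarith)
    have h2 : v < β := sq_lt' hβ0 (by linarith)
    have h3 : a ≤ α := by
      by_contra h4
      push Not at h4
      have h6 : a ^ 2 < u ^ 2 := lt_sq' (by linarith) a2
      have h5 := a3' (a ^ 2 + c) (hfQ a a1) (by linarith)
      have h7 : α ^ 2 < a ^ 2 := lt_sq' hα0 h4
      linarith
    have h4 : β ≤ b := by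
      by_contra h5
      push Not at h5
      have h8 : v ^ 2 < b ^ 2 := lt_sq' (by linarith) b2
      have h6 := b3' (b ^ 2 + c) (hfQ b b1) (by linarith)
      have h7 : b ^ 2 < β ^ 2 := lt_sq' (by linarith) h5
      linarith
    have key := cr_pos hs huv a2 b2 hα0 h3 h1 h2 h4
    rw [hα2, hβ2]
    have e3 : ((v ^ 2 + c - (α ^ 2 + c)) * (β ^ 2 + c - (u ^ 2 + c))) /
        ((u ^ 2 + c - (α ^ 2 + c)) * (β ^ 2 + c - (v ^ 2 + c))) =
        ((v ^ 2 - α ^ 2) * (β ^ 2 - u ^ 2)) / ((u ^ 2 - α ^ 2) * (β ^ 2 - v ^ 2)) := by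
      congr 1 <;> ring
    rw [e3]
    exact key
  · -- negative side
    have hu0 : u < 0 := by linarith
    have huv2 : (-v) ^ 2 < (-u) ^ 2 := lt_sq' (by linarith) (by linarith)
    have e1 : min (fc c u) (fc c v) = (-v) ^ 2 + c := by
      unfold fc; rw [min_eq_right, neg_sq]; linarith [neg_sq u, neg_sq v]
    have e2 : max (fc c u) (fc c v) = (-u) ^ 2 + c := by
      unfold fc; rw [max_eq_left, neg_sq]; linarith [neg_sq u, neg_sq v]
    rw [e1] at a2' a3' ⊢
    rw [e2] at b2' b3' ⊢
    have h1 : α < -v := sq_lt' (by linarith) (by linarith)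
    have h2 : -u < β := sq_lt' hβ0 (by linarith)
    have h3 : -b ≤ α := by
      by_contra h4
      push Not at h4
      have h6 : (-b) ^ 2 < (-v) ^ 2 := lt_sq' (by linarith) (by linarith)
      have h5 := a3' ((-b) ^ 2 + c) (by rw [neg_sq]; exact hfQ b b1) (by linarith)
      have h7 : α ^ 2 < (-b) ^ 2 := lt_sq' hα0 h4
      linarith
    have h4 : β ≤ -a := by
      by_contra h5
      push Not at h5
      have h8 : (-u) ^ 2 < (-a) ^ 2 := lt_sq' (by linarith) (by linarith)
      have h6 := b3' ((-a) ^ 2 + c) (by rw [neg_sq]; exact hfQ a a1) (by linarith)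
      have h7 : (-a) ^ 2 < β ^ 2 := lt_sq' (by linarith) h5
      linarith
    have key := cr_pos (a := -b) (u := -v) (v := -u) (b := -a) (by linarith) (by linarith)
      (by linarith) (by linarith) hα0 h3 h1 h2 h4
    rw [hα2, hβ2]
    have e3 : (((-u) ^ 2 + c - (α ^ 2 + c)) * (β ^ 2 + c - ((-v) ^ 2 + c))) /
        (((-v) ^ 2 + c - (α ^ 2 + c)) * (β ^ 2 + c - ((-u) ^ 2 + c))) =
        (((-u) ^ 2 - α ^ 2) * (β ^ 2 - (-v) ^ 2)) / (((-v) ^ 2 - α ^ 2) * (β ^ 2 - (-u) ^ 2)) := by
      congr 1 <;> ring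
    have e4 : ((v - a) * (b - u)) / ((u - a) * (b - v)) =
        ((-u - -b) * (-a - -v)) / ((-v - -b) * (-a - -u)) := by
      congr 1 <;> ring
    rw [e3, e4]
    exact key

/-- Iterated cross ratio inequality. -/
lemma cr_iter (hc : c < 0) (hc2 : -2 ≤ c) {Q : Finset ℝ} (hcQ : c ∈ Q)
    (hfQ : ∀ x ∈ Q, x ^ 2 + c ∈ Q) (hb1 : bet c ∈ Q) (hb2 : -bet c ∈ Q) {u v : ℝ}
    (huv : u < v) (hu : |u| < bet c) (hv : |v| < bet c) (N : ℕ) (hN : 0 < N)
    (hpos : ∀ j, j < N → 0 < (fc c)^[j] u * (fc c)^[j] v)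
    (hne : ∀ j, j < N → (fc c)^[j] u ≠ (fc c)^[j] v) :
    CR Q u v < CR Q (min ((fc c)^[N] u) ((fc c)^[N] v)) (max ((fc c)^[N] u) ((fc c)^[N] v)) := by
  have hbd : ∀ j, j ≤ N → |(fc c)^[j] u| < bet c ∧ |(fc c)^[j] v| < bet c := by
    intro j
    induction j with
    | zero => intro _; exact ⟨hu, hv⟩
    | succ j ih =>
      intro hj
      obtain ⟨h1, h2⟩ := ih (by omega)
      have h3 := hpos j (by omega)
      rw [Function.iterate_succ_apply', Function.iterate_succ_apply']
      exact ⟨abs_fc_lt hc hc2 h1 (left_ne_zero_of_mul h3.ne'),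
        abs_fc_lt hc hc2 h2 (right_ne_zero_of_mul h3.ne')⟩
  have hstep : ∀ j, j < N → CR Q (min ((fc c)^[j] u) ((fc c)^[j] v))
      (max ((fc c)^[j] u) ((fc c)^[j] v)) < CR Q (min ((fc c)^[j + 1] u) ((fc c)^[j + 1] v))
      (max ((fc c)^[j + 1] u) ((fc c)^[j + 1] v)) := by
    intro j hj
    have k1 := hbd j hj.le
    have k2 := hbd (j + 1) hj
    have k3 := hpos j hj
    have k4 := hne j hj
    rw [Function.iterate_succ_apply', Function.iterate_succ_apply'] at k2 ⊢
    generalize (fc c)^[j] u = X at *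
    generalize (fc c)^[j] v = Y at *
    rw [abs_lt, abs_lt] at k1 k2
    rcases lt_or_gt_of_ne k4 with h1 | h1
    · rw [min_eq_left h1.le, max_eq_right h1.le]
      apply cr_step' hcQ hfQ h1 _ ⟨_, hb2, k1.1.1⟩ ⟨_, hb1, k1.2.2⟩
        ⟨_, hb1, max_lt k2.1.2 k2.2.2⟩
      rcases pos_and_pos_or_neg_and_neg_of_mul_pos k3 with h2 | h2
      · exact Or.inl h2.1
      · exact Or.inr h2.2
    · rw [min_eq_right h1.le, max_eq_left h1.le, min_comm (fc c X), max_comm (fc c X)]
      apply cr_step' hcQ hfQ h1 _ ⟨_, hb2, k1.2.1⟩ ⟨_, hb1, k1.1.2⟩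
        ⟨_, hb1, max_lt k2.2.2 k2.1.2⟩
      rcases pos_and_pos_or_neg_and_neg_of_mul_pos k3 with h2 | h2
      · exact Or.inl h2.2
      · exact Or.inr h2.1
  have key : ∀ j, 0 < j → j ≤ N → CR Q u v < CR Q (min ((fc c)^[j] u) ((fc c)^[j] v))
      (max ((fc c)^[j] u) ((fc c)^[j] v)) := by
    intro j
    induction j with
    | zero => intro h; omega
    | succ j ih =>
      intro _ hj
      have h1 := hstep j (by omega)
      rcases Nat.eq_zero_or_pos j with h0 | h0
      · subst h0
        have h2 : min ((fc c)^[0] u) ((fc c)^[0] v) = u := min_eq_left huv.le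
        have h3 : max ((fc c)^[0] u) ((fc c)^[0] v) = v := max_eq_right huv.le
        rw [h2, h3] at h1
        exact h1
      · exact (ih h0 (by omega)).trans h1
  exact key N hN (le_refl N)

/-! ### The lap is a compact interval -/

lemma lap_eq (hc : c < 0) (hn : 2 ≤ n) (h0 : ∀ k, 0 < k → k < n → (fc c)^[k] 0 ≠ 0) :
    ∃ q, 0 ≤ q ∧ q ^ 2 ≤ -c ∧ Lap c n = Icc 0 q := by
  have hb : ∀ x ∈ Lap c n, 0 ≤ x ∧ x ^ 2 ≤ -c := by
    intro x hx
    refine ⟨hx.1, ?_⟩
    have h1 := hx.2 1 one_pos (by omega)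
    simp only [Function.iterate_one, fc] at h1
    by_contra h2
    push Not at h2
    nlinarith
  have hbdd : BddAbove (Lap c n) := ⟨1 - c, fun x hx => by
    obtain ⟨h1, h2⟩ := hb x hx
    nlinarith [sq_nonneg (x - 1)]⟩
  have hne : (Lap c n).Nonempty := ⟨0, zero_mem_lap n⟩
  have hmem := (lap_closed (c := c) n).csSup_mem hne hbdd
  refine ⟨sSup (Lap c n), (hb _ hmem).1, (hb _ hmem).2, ?_⟩
  ext x
  constructor
  · intro hx
    exact ⟨hx.1, le_csSup hbdd hx⟩
  · intro hx
    exact (lap_mono' (by omega) h0).1.out (zero_mem_lap n) hmem hx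

lemma lap_strict (h0 : ∀ k, 0 < k → k < n → (fc c)^[k] 0 ≠ 0) {x y : ℝ} (hx : x ∈ Lap c n)
    (hy : y ∈ Lap c n) (hxy : x < y) {k : ℕ} (hk : 0 < k) (hkn : k < n) :
    0 < (fc c)^[k] 0 * (fc c)^[k] x := by
  refine lt_of_le_of_ne (hx.2 k hk hkn) (Ne.symm ?_)
  intro h1
  have hne := h0 k hk hkn
  have h2 : (fc c)^[k] x = 0 := by
    rcases mul_eq_zero.1 h1 with h | h
    · exact absurd h hne
    · exact h
  have hx0 : 0 < x := by
    refine lt_of_le_of_ne hx.1 ?_
    intro h3
    rw [← h3] at h2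
    exact hne h2
  have hmon := (lap_mono' hk (fun j hj hjk => h0 j hj (by omega))).2
  have m0 := zero_mem_lap (c := c) k
  have mx := lap_anti hkn.le hx
  have my := lap_anti hkn.le hy
  have h3 := hy.2 k hk hkn
  rcases hmon with h | h
  · have h4 := h m0 mx hx0
    have h5 := h mx my hxy
    rw [h2] at h4 h5
    nlinarith
  · have h4 := h m0 mx hx0
    have h5 := h mx my hxy
    rw [h2] at h4 h5
    nlinarith

lemma lap_extend {x : ℝ} (hx : x ∈ Lap c n)
    (h : ∀ k, 0 < k → k < n → 0 < (fc c)^[k] 0 * (fc c)^[k] x) : ∃ y, x < y ∧ y ∈ Lap c n := by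
  have hev : ∀ᶠ y in 𝓝 x, ∀ k ∈ Finset.range n, 0 < k → 0 < (fc c)^[k] 0 * (fc c)^[k] y := by
    rw [Filter.eventually_all_finset]
    intro k hk
    rcases Nat.eq_zero_or_pos k with h0 | h0
    · exact Eventually.of_forall fun x h1 => by omega
    · have h1 : ∀ᶠ y in 𝓝 x, 0 < (fc c)^[k] 0 * (fc c)^[k] y :=
        continuousAt_const.eventually_lt
          (continuous_const.mul (fc_iter_cont c k)).continuousAt (h k h0 (Finset.mem_range.1 hk))
      exact h1.mono fun x hx _ => hx
  obtain ⟨δ, hδ, hball⟩ := Metric.eventually_nhds_iff.1 hev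
  refine ⟨x + δ / 2, by linarith, by linarith [hx.1], fun k hk hkn => ?_⟩
  refine (hball ?_ k (Finset.mem_range.2 hkn) hk).le
  rw [Real.dist_eq, show x + δ / 2 - x = δ / 2 by ring, abs_of_pos (by linarith)]
  linarith

/-- The output of the real analysis. -/
structure RD (c : ℝ) (n : ℕ) (p q : ℝ) : Prop where
  hn : 2 ≤ n
  neg : c < 0
  ge : -2 ≤ c
  pos : 0 < p
  hpq : p < q
  inv : ∀ x, |x| ≤ p → |(fc c)^[n] x| ≤ p
  out : ∀ j, 0 < j → j < n → p < |(fc c)^[j] 0|
  lap : Lap c n = Icc 0 q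
  gt : ∀ x, p < x → x < q → x < |(fc c)^[n] x|
  ge_q : q ≤ |(fc c)^[n] q|
  der : deriv (fc c)^[n] q = 0

theorem exists_RD (hfin : {x : ℝ | ∃ m, 1 ≤ m ∧ x = orb c m}.Finite) (hR : RealRenorm c) :
    ∃ n p q, RD c n p q := by
  obtain ⟨n, b, hn, hb⟩ := rst_of_renorm hR
  obtain ⟨p, h, hmax⟩ := exists_max hn hb
  have hp := h.pos
  have hc0 : c ≠ 0 := by
    rintro rfl
    have := h.le_abs hn
    rw [abs_zero] at this
    linarith
  have hc := neg_of_fin hfin hc0
  have hc2 := ge_of_fin hfin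
  have hret := h.ret hn hmax
  have horb := h.orb_ne
  obtain ⟨q, hq0, hqc, hlap⟩ := lap_eq hc hn horb
  have hpm : p ∈ Lap c n := h.sub_lap hp.le (le_refl p)
  have hqm : q ∈ Lap c n := by rw [hlap]; exact ⟨hq0, le_refl q⟩
  have hpq : p < q := by
    obtain ⟨y, hy1, hy2⟩ := lap_extend hpm (fun k hk hkn => by
      refine lt_of_le_of_ne (hpm.2 k hk hkn) (Ne.symm (mul_ne_zero (horb k hk hkn) ?_))
      intro h1
      have := h.out k hk hkn p (by rw [abs_of_pos hp])
      rw [h1, abs_zero] at this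
      linarith)
    rw [hlap] at hy2
    linarith [hy2.2]
  -- bounds by `β`
  have hqb : q < bet c := by
    have h1 := bet_fix hc
    have h2 := bet_pos (c := c)
    have h3 : q ^ 2 < (bet c) ^ 2 := by linarith
    exact sq_lt' h2.le h3
  -- the set `Q`
  set Q : Finset ℝ := hfin.toFinset ∪ {bet c, -bet c} with hQ
  have hcQ : c ∈ Q := by
    rw [hQ, Finset.mem_union, Set.Finite.mem_toFinset]
    exact Or.inl ⟨1, le_refl _, orb_one.symm⟩
  have hb1 : bet c ∈ Q := by rw [hQ]; simp
  have hb2 : -bet c ∈ Q := by rw [hQ]; simp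
  have hfQ : ∀ x ∈ Q, x ^ 2 + c ∈ Q := by
    intro x hx
    rw [hQ, Finset.mem_union, Set.Finite.mem_toFinset, Finset.mem_insert,
      Finset.mem_singleton] at hx
    rcases hx with ⟨m, hm, rfl⟩ | rfl | rfl
    · rw [hQ, Finset.mem_union, Set.Finite.mem_toFinset]
      exact Or.inl ⟨m + 1, by omega, (orb_succ m).symm⟩
    · rw [bet_fix hc]; exact hb1
    · rw [neg_sq, bet_fix hc]; exact hb1
  -- the sign
  have hmon := (lap_mono' (by omega : 0 < n) horb).2
  have hg0 := h.inv 0 (by simpa using hp.le)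
  have h0m := zero_mem_lap (c := c) n
  have hsign : ((fc c)^[n] p = p ∧ StrictMonoOn (fc c)^[n] (Lap c n)) ∨
      ((fc c)^[n] p = -p ∧ StrictAntiOn (fc c)^[n] (Lap c n)) := by
    rw [abs_le] at hg0
    rcases hmon with h1 | h1
    · left
      refine ⟨?_, h1⟩
      have h2 := h1 h0m hpm hp
      rcases abs_eq_abs.1 (hret.trans (abs_of_pos hp).symm) with h3 | h3
      · exact h3
      · linarith [hg0.1]
    · right
      refine ⟨?_, h1⟩
      have h2 := h1 h0m hpm hp
      rcases abs_eq_abs.1 (hret.trans (abs_of_pos hp).symm) with h3 | h3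
      · linarith [hg0.2]
      · exact h3
  -- strict signs
  have hstr : ∀ x, 0 ≤ x → x < q → ∀ k, 0 < k → k < n → 0 < (fc c)^[k] 0 * (fc c)^[k] x := by
    intro x hx0 hxq k hk hkn
    exact lap_strict horb (by rw [hlap]; exact ⟨hx0, hxq.le⟩) hqm hxq hk hkn
  -- the inequality of cross ratios
  have hCR : ∀ x, p < x → x < q →
      ((fc c)^[n] p = p → CR Q p x < CR Q (min p ((fc c)^[n] x)) (max p ((fc c)^[n] x))) ∧
      ((fc c)^[n] p = -p → CR Q (-x) (-p) <
        CR Q (min ((fc c)^[n] x) (-p)) (max ((fc c)^[n] x) (-p))) := by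
    intro x hpx hxq
    have hprod : ∀ j, 0 < j → j < n → 0 < (fc c)^[j] p * (fc c)^[j] x := by
      intro j hj hjn
      have h1 := hstr p hp.le hpq j hj hjn
      have h2 := hstr x (by linarith) hxq j hj hjn
      have h3 : 0 < ((fc c)^[j] 0) ^ 2 * ((fc c)^[j] p * (fc c)^[j] x) := by
        have := mul_pos h1 h2
        calc 0 < _ := this
          _ = _ := by ring
      exact (mul_pos_iff_of_pos_left (by
        have := horb j hj hjn
        positivity)).1 h3
    have hne : ∀ j, 0 < j → j < n → (fc c)^[j] p ≠ (fc c)^[j] x := by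
      intro j hj hjn he
      have h1 := inj_on_lap hj (fun i hi hij => horb i hi (by omega)) (lap_anti hjn.le hpm)
        (lap_anti hjn.le (by rw [hlap]; exact ⟨by linarith, hxq.le⟩ : x ∈ Lap c n)) he
      linarith
    constructor
    · intro hgp
      have h1 := cr_iter hc hc2 hcQ hfQ hb1 hb2 hpx (by rw [abs_of_pos hp]; linarith)
        (by rw [abs_of_pos (by linarith)]; linarith) n (by omega) (by
          intro j hj
          rcases Nat.eq_zero_or_pos j with h0 | h0
          · subst h0; exact mul_pos hp (by simp; linarith)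
          · exact hprod j h0 hj) (by
          intro j hj
          rcases Nat.eq_zero_or_pos j with h0 | h0
          · subst h0; exact hpx.ne
          · exact hne j h0 hj)
      rw [hgp] at h1
      exact h1
    · intro hgp
      have h1 := cr_iter (u := -x) (v := -p) hc hc2 hcQ hfQ hb1 hb2 (by linarith)
        (by rw [abs_neg, abs_of_pos (by linarith)]; linarith)
        (by rw [abs_neg, abs_of_pos hp]; linarith) n (by omega) (by
          intro j hj
          rcases Nat.eq_zero_or_pos j with h0 | h0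
          · subst h0
            simp only [Function.iterate_zero, id]
            nlinarith
          · rw [iter_neg j h0, iter_neg j h0, mul_comm]
            exact hprod j h0 hj) (by
          intro j hj
          rcases Nat.eq_zero_or_pos j with h0 | h0
          · subst h0
            simp only [Function.iterate_zero, id]
            intro h5; linarith
          · rw [iter_neg j h0, iter_neg j h0]
            exact (hne j h0 hj).symm)
      rw [iter_neg n (by omega), iter_neg n (by omega), hgp] at h1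
      exact h1
  -- no fixed points
  have hnofix : ∀ x, p < x → x < q → |(fc c)^[n] x| ≠ x := by
    intro x hpx hxq he
    have hxm : x ∈ Lap c n := by rw [hlap]; exact ⟨by linarith, hxq.le⟩
    rcases hsign with ⟨h1, h2⟩ | ⟨h1, h2⟩
    · have h3 := h2 hpm hxm hpx
      rw [h1] at h3
      rw [abs_of_pos (by linarith)] at he
      have h4 := (hCR x hpx hxq).1 h1
      rw [he, min_eq_left hpx.le, max_eq_right hpx.le] at h4
      exact lt_irrefl _ h4
    · have h3 := h2 hpm hxm hpx
      rw [h1] at h3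
      rw [abs_of_neg (by linarith)] at he
      have he' : (fc c)^[n] x = -x := by linarith
      have h4 := (hCR x hpx hxq).2 h1
      rw [he', min_eq_left (by linarith), max_eq_right (by linarith)] at h4
      exact lt_irrefl _ h4
  -- near `p`
  obtain ⟨r, hpr, hrq, hr1, hr2⟩ : ∃ r, p < r ∧ r < q ∧ (∀ z ∈ Q, p < z → r < z) ∧
      (∀ z ∈ Q, z < -p → z < -r) := by
    have hev : ∀ᶠ r in 𝓝 p, r < q ∧ ∀ z ∈ Q, (p < z → r < z) ∧ (z < -p → z < -r) := by
      refine (eventually_lt_nhds hpq).and ?_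
      rw [Filter.eventually_all_finset]
      intro z _
      have h1 : ∀ᶠ r in 𝓝 p, p < z → r < z := by
        by_cases hz : p < z
        · exact (eventually_lt_nhds hz).mono fun r hr _ => hr
        · exact Eventually.of_forall fun r h => absurd h hz
      have h2 : ∀ᶠ r in 𝓝 p, z < -p → z < -r := by
        by_cases hz : z < -p
        · exact (eventually_lt_nhds (show p < -z by linarith)).mono fun r hr _ => by linarith
        · exact Eventually.of_forall fun r h => absurd h hz
      exact h1.and h2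
    obtain ⟨δ, hδ, hball⟩ := Metric.eventually_nhds_iff.1 hev
    have h1 := hball (y := p + δ / 2) (by
      rw [Real.dist_eq, show p + δ / 2 - p = δ / 2 by ring, abs_of_pos (by linarith)]
      linarith)
    exact ⟨p + δ / 2, by linarith, h1.1, fun z hz => (h1.2 z hz).1, fun z hz => (h1.2 z hz).2⟩
  have hnear : r < |(fc c)^[n] r| := by
    by_contra hcon
    push Not at hcon
    have hlt : |(fc c)^[n] r| < r := lt_of_le_of_ne hcon (hnofix r hpr hrq)
    have hrm : r ∈ Lap c n := by rw [hlap]; exact ⟨by linarith, hrq.le⟩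
    rcases hsign with ⟨h1, h2⟩ | ⟨h1, h2⟩
    · have h3 := h2 hpm hrm hpr
      rw [h1] at h3
      rw [abs_of_pos (by linarith)] at hlt
      have h4 := (hCR r hpr hrq).1 h1
      rw [min_eq_left h3.le, max_eq_right h3.le] at h4
      generalize (fc c)^[n] r = y at *
      -- the neighbours agree
      have h5 : sc Q y = sc Q r := by
        unfold sc
        congr 1
        ext z
        simp only [mem_setOf_eq]
        constructor
        · rintro ⟨hz, hyz⟩; exact ⟨hz, hr1 z hz (by linarith)⟩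
        · rintro ⟨hz, hrz⟩; exact ⟨hz, by linarith⟩
      obtain ⟨a1, a2, a3⟩ := pr_spec (P := Q) (u := p) ⟨_, hb2, by linarith [bet_pos (c := c)]⟩
      obtain ⟨s1, s2, s3⟩ := sc_spec (P := Q) (v := r) ⟨_, hb1, by linarith⟩
      unfold CR at h4
      rw [h5] at h4
      apply absurd h4 (not_lt.2 _)
      apply div_le_div₀
      · exact mul_nonneg (by linarith) (by linarith)
      · exact mul_le_mul_of_nonneg_right (by linarith) (by linarith)
      · exact mul_pos (by linarith) (by linarith)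
      · exact mul_le_mul_of_nonneg_left (by linarith) (by linarith)
    · have h3 := h2 hpm hrm hpr
      rw [h1] at h3
      rw [abs_of_neg (by linarith)] at hlt
      have h4 := (hCR r hpr hrq).2 h1
      rw [min_eq_left h3.le, max_eq_right h3.le] at h4
      generalize (fc c)^[n] r = y at *
      have h5 : pr Q y = pr Q (-r) := by
        unfold pr
        congr 1
        ext z
        simp only [mem_setOf_eq]
        constructor
        · rintro ⟨hz, hyz⟩; exact ⟨hz, hr2 z hz (by linarith)⟩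
        · rintro ⟨hz, hrz⟩; exact ⟨hz, by linarith⟩
      obtain ⟨a1, a2, a3⟩ := pr_spec (P := Q) (u := -r) ⟨_, hb2, by linarith⟩
      obtain ⟨s1, s2, s3⟩ := sc_spec (P := Q) (v := -p) ⟨_, hb1, by linarith [bet_pos (c := c)]⟩
      unfold CR at h4
      rw [h5] at h4
      apply absurd h4 (not_lt.2 _)
      apply div_le_div₀
      · exact mul_nonneg (by linarith) (by linarith)
      · exact mul_le_mul_of_nonneg_left (by linarith) (by linarith)
      · exact mul_pos (by linarith) (by linarith)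
      · exact mul_le_mul_of_nonneg_right (by linarith) (by linarith)
  -- outside
  have hgt : ∀ x, p < x → x < q → x < |(fc c)^[n] x| := by
    intro x hpx hxq
    by_contra hcon
    push Not at hcon
    have hcont : Continuous fun y => |(fc c)^[n] y| - y :=
      (continuous_abs.comp (fc_iter_cont c n)).sub continuous_id
    have hz : ∃ y, p < y ∧ y < q ∧ |(fc c)^[n] y| = y := by
      rcases le_total r x with h1 | h1
      · obtain ⟨y, hy, hy0⟩ := intermediate_value_Icc' h1 hcont.continuousOn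
          (show (0 : ℝ) ∈ Icc (|(fc c)^[n] x| - x) (|(fc c)^[n] r| - r) from
            ⟨by linarith, by linarith⟩)
        exact ⟨y, by linarith [hy.1], by linarith [hy.2], by linarith⟩
      · obtain ⟨y, hy, hy0⟩ := intermediate_value_Icc h1 hcont.continuousOn
          (show (0 : ℝ) ∈ Icc (|(fc c)^[n] x| - x) (|(fc c)^[n] r| - r) from
            ⟨by linarith, by linarith⟩)
        exact ⟨y, by linarith [hy.1], by linarith [hy.2], by linarith⟩
    obtain ⟨y, h1, h2, h3⟩ := hz
    exact hnofix y h1 h2 h3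
  have hgeq : q ≤ |(fc c)^[n] q| := by
    have h1 : q ∈ closure (Ioo p q) := by
      rw [closure_Ioo hpq.ne]
      exact ⟨hpq.le, le_refl q⟩
    have h2 : IsClosed {y | y ≤ |(fc c)^[n] y|} :=
      isClosed_le continuous_id (continuous_abs.comp (fc_iter_cont c n))
    exact (closure_minimal (fun y hy => (hgt y hy.1 hy.2).le) h2) h1
  have hder : deriv (fc c)^[n] q = 0 := by
    -- a zero of an intermediate iterate
    obtain ⟨k, hk, hkn, hk0⟩ : ∃ k, 0 < k ∧ k < n ∧ (fc c)^[k] q = 0 := by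
      by_contra hcon
      push Not at hcon
      obtain ⟨y, hy1, hy2⟩ := lap_extend hqm (fun k hk hkn => lt_of_le_of_ne (hqm.2 k hk hkn)
        (Ne.symm (mul_ne_zero (horb k hk hkn) (hcon k hk hkn))))
      rw [hlap] at hy2
      linarith [hy2.2]
    obtain ⟨m, rfl⟩ : ∃ m, n = m + (1 + k) := ⟨n - (1 + k), by omega⟩
    have h1 : HasDerivAt (fc c)^[k] (deriv (fc c)^[k] q) q := (fc_iter_diff c k q).hasDerivAt
    have h2 : HasDerivAt (fc c) 0 ((fc c)^[k] q) := by
      rw [hk0]
      unfold fc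
      have := (hasDerivAt_pow 2 (0 : ℝ)).add_const c
      simpa using this
    have h3 : HasDerivAt (fc c)^[m] (deriv (fc c)^[m] (fc c ((fc c)^[k] q)))
        (fc c ((fc c)^[k] q)) := (fc_iter_diff c m _).hasDerivAt
    have h4 := h3.comp q (h2.comp q h1)
    have h5 : (fc c)^[m + (1 + k)] = (fc c)^[m] ∘ (fc c ∘ (fc c)^[k]) := by
      rw [Function.iterate_add, Function.iterate_add, Function.iterate_one]
    rw [h5, h4.deriv]
    ring
  exact ⟨n, p, q, ⟨hn, hc, hc2, hp, hpq, h.inv, fun j hj hjn => h.caseC hret hj hjn, hlap, hgt,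
    hgeq, hder⟩⟩

end RealB
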