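import Pool.Agent.Work.MP_e3f5d9_al_helper91.CxB

/-!
# The inverse branch over a slit plane
-/

set_option autoImplicit false

open Set Filter Topology

namespace RealB

variable {c : ℝ} {n : ℕ} {p q τ : ℝ}

/-- The complex quadratic map. -/
noncomputable def Fc (c : ℝ) (z : ℂ) : ℂ := z ^ 2 + (c : ℂ)

lemma Fc_cont (c : ℝ) : Continuous (Fc c) := by unfold Fc; fun_prop

lemma Fc_iter_cont (c : ℝ) (k : ℕ) : Continuous (Fc c)^[k] := (Fc_cont c).iterate k

lemma Fc_real (k : ℕ) (x : ℝ) : (Fc c)^[k] (x : ℂ) = (((fc c)^[k] x : ℝ) : ℂ) := by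
  induction k with
  | zero => rfl
  | succ k ih =>
    rw [Function.iterate_succ_apply', Function.iterate_succ_apply', ih]
    unfold Fc fc
    push_cast
    rfl

lemma Fc_neg (k : ℕ) (hk : 0 < k) (z : ℂ) : (Fc c)^[k] (-z) = (Fc c)^[k] z := by
  obtain ⟨j, rfl⟩ : ∃ j, k = j + 1 := ⟨k - 1, by omega⟩
  rw [Function.iterate_succ_apply, Function.iterate_succ_apply]
  congr 1
  unfold Fc
  rw [neg_sq]

/-! ### The principal square root -/

/-- The principal square root. -/
noncomputable def csq (z : ℂ) : ℂ := Complex.exp (Complex.log z / 2)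

lemma csq_sq {z : ℂ} (hz : z ≠ 0) : (csq z) ^ 2 = z := by
  unfold csq
  rw [← Complex.exp_nat_mul]
  have : ((2 : ℕ) : ℂ) * (Complex.log z / 2) = Complex.log z := by push_cast; ring
  rw [this, Complex.exp_log hz]

lemma csq_re_pos {z : ℂ} (hz : z ∈ Complex.slitPlane) : 0 < (csq z).re := by
  unfold csq
  rw [Complex.exp_re]
  apply mul_pos (Real.exp_pos _)
  apply Real.cos_pos_of_mem_Ioo
  have h1 : (Complex.log z / 2).im = Complex.arg z / 2 := by
    have : (Complex.log z / 2).im = (Complex.log z).im / 2 := by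
      have h : Complex.log z / 2 = Complex.log z / ((2 : ℝ) : ℂ) := by push_cast; rfl
      rw [h, Complex.div_ofReal_im]
    rw [this, Complex.log_im]
  rw [h1]
  have h2 := Complex.neg_pi_lt_arg z
  have h3 := Complex.arg_le_pi z
  have h4 : Complex.arg z ≠ Real.pi := Complex.slitPlane_arg_ne_pi hz
  have h5 : Complex.arg z < Real.pi := lt_of_le_of_ne h3 h4
  constructor <;> linarith

lemma csq_cont {z : ℂ} (hz : z ∈ Complex.slitPlane) : ContinuousAt csq z := by
  unfold csq
  exact ((continuousAt_clog hz).div_const 2).cexp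

lemma slit_of_sq {u : ℂ} (hu : 0 < u.re) : u ^ 2 ∈ Complex.slitPlane := by
  rw [Complex.mem_slitPlane_iff]
  by_cases h : u.im = 0
  · left
    have : (u ^ 2).re = u.re ^ 2 - u.im ^ 2 := by simp [sq]
    rw [this, h]
    nlinarith
  · right
    have : (u ^ 2).im = 2 * u.re * u.im := by simp [sq]; ring
    rw [this]
    exact mul_ne_zero (by positivity) h

lemma csq_unique {u : ℂ} (hu : 0 < u.re) : csq (u ^ 2) = u := by
  have h1 := slit_of_sq hu
  have h2 := csq_re_pos h1
  have h3 := csq_sq (Complex.slitPlane_ne_zero h1)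
  rcases sq_eq_sq_iff_eq_or_eq_neg.1 h3 with h4 | h4
  · exact h4
  · rw [h4, Complex.neg_re] at h2
    linarith

lemma csq_real {x : ℝ} (hx : 0 < x) : csq (x : ℂ) = (Real.sqrt x : ℝ) := by
  have h1 : ((Real.sqrt x : ℝ) : ℂ) ^ 2 = (x : ℂ) := by
    rw [← Complex.ofReal_pow, Real.sq_sqrt hx.le]
  rw [← h1]
  exact csq_unique (by rw [Complex.ofReal_re]; exact Real.sqrt_pos.2 hx)

/-! ### Signs -/

/-- The sign of the `k`-th point of the critical orbit. -/
noncomputable def eps (c : ℝ) (k : ℕ) : ℝ := open Classical in if 0 < (fc c)^[k] 0 then 1 else -1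

lemma eps_cases (c : ℝ) (k : ℕ) : eps c k = 1 ∨ eps c k = -1 := by
  unfold eps
  split_ifs <;> simp

lemma eps_sq (c : ℝ) (k : ℕ) : eps c k * eps c k = 1 := by
  rcases eps_cases c k with h | h <;> rw [h] <;> norm_num

lemma eps_mul {k : ℕ} (h : (fc c)^[k] 0 ≠ 0) : eps c k * (fc c)^[k] 0 = |(fc c)^[k] 0| := by
  unfold eps
  split_ifs with h1
  · rw [one_mul, abs_of_pos h1]
  · have h2 : (fc c)^[k] 0 < 0 := lt_of_le_of_ne (not_lt.1 h1) h
    rw [abs_of_neg h2]; ring

lemma eps_mul_pos {k : ℕ} (h : (fc c)^[k] 0 ≠ 0) (y : ℝ) :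
    0 < eps c k * y ↔ 0 < (fc c)^[k] 0 * y := by
  unfold eps
  split_ifs with h1
  · rw [one_mul]
    exact (mul_pos_iff_of_pos_left h1).symm
  · have h2 : (fc c)^[k] 0 < 0 := lt_of_le_of_ne (not_lt.1 h1) h
    constructor
    · intro h3
      have : y < 0 := by linarith
      exact mul_pos_of_neg_of_neg h2 this
    · intro h3
      have : y < 0 := by
        by_contra h4
        push Not at h4
        nlinarith
      linarith

lemma RD.orb_ne (h : RD c n p q) {k : ℕ} (hk : 0 < k) (hkn : k < n) : (fc c)^[k] 0 ≠ 0 := by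
  intro h0
  have := h.out k hk hkn
  rw [h0, abs_zero] at this
  linarith [h.pos]

/-- The plane slit along the real axis outside `(-τ, τ)`. -/
def SP (τ : ℝ) : Set ℂ := {w | w.im = 0 → |w.re| < τ}

/-- The iterated inverse branch. -/
noncomputable def A (c : ℝ) (n : ℕ) : ℕ → ℂ → ℂ
  | 0, w => w
  | j + 1, w => (eps c (n - 1 - j) : ℂ) * csq (A c n j w - c)

/-- The iterated inverse branch on the real line. -/
noncomputable def Rr (c : ℝ) (n : ℕ) : ℕ → ℝ → ℝ
  | 0, x => x
  | j + 1, x => eps c (n - 1 - j) * Real.sqrt (Rr c n j x - c)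

lemma Rr_cont (j : ℕ) : Continuous (Rr c n j) := by
  induction j with
  | zero => exact continuous_id
  | succ j ih =>
    show Continuous fun x => eps c (n - 1 - j) * Real.sqrt (Rr c n j x - c)
    exact continuous_const.mul (Real.continuous_sqrt.comp (ih.sub continuous_const))

/-- The value at the critical value of the return map. -/
lemma Rr_v (h : RD c n p q) (j : ℕ) (hj : j < n) :
    Rr c n j ((fc c)^[n] 0) = (fc c)^[n - j] 0 := by
  induction j with
  | zero => rfl
  | succ j ih =>
    have h1 := ih (by omega)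
    show eps c (n - 1 - j) * Real.sqrt (Rr c n j ((fc c)^[n] 0) - c) = _
    rw [h1]
    have h2 : n - j = (n - 1 - j) + 1 := by omega
    have h3 : n - (j + 1) = n - 1 - j := by omega
    rw [h2, Function.iterate_succ_apply', h3]
    have h4 : fc c ((fc c)^[n - 1 - j] 0) - c = ((fc c)^[n - 1 - j] 0) ^ 2 := by
      unfold fc; ring
    rw [h4, Real.sqrt_sq_eq_abs, ← eps_mul (h.orb_ne (by omega) (by omega)), ← mul_assoc, eps_sq,
      one_mul]

lemma iter_gt {m : ℕ} (h : (fc c)^[m] 0 ≠ 0) : c < (fc c)^[m + 1] 0 := by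
  rw [Function.iterate_succ_apply']
  have : 0 < ((fc c)^[m] 0) ^ 2 := by positivity
  unfold fc at *
  linarith

/-- On `(-τ, τ)` all intermediate inverse images are right of `c`. -/
lemma Rr_gt (h : RD c n p q) (hpτ : p < τ) (hτ : ∀ j, 0 < j → j < n → τ < |(fc c)^[j] 0|)
    (j : ℕ) (hj : j + 2 ≤ n) : ∀ x, |x| < τ → c < Rr c n j x ∧ (fc c)^[j] (Rr c n j x) = x := by
  have hneg := h.neg
  induction j with
  | zero =>
    intro x hx
    refine ⟨?_, rfl⟩
    have h1 := hτ 1 one_pos (by omega)
    have h2 : (fc c)^[1] 0 = c := by simp [fc]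
    rw [h2, abs_of_neg hneg] at h1
    rw [abs_lt] at hx
    show c < x
    linarith
  | succ j ih =>
    have ih' := ih (by omega)
    have hit : ∀ x, |x| < τ → (fc c)^[j + 1] (Rr c n (j + 1) x) = x := by
      intro x hx
      obtain ⟨h1, h2⟩ := ih' x hx
      rw [Function.iterate_succ_apply]
      have h3 : fc c (Rr c n (j + 1) x) = Rr c n j x := by
        show (eps c (n - 1 - j) * Real.sqrt (Rr c n j x - c)) ^ 2 + c = _
        rw [mul_pow, Real.sq_sqrt (by linarith), sq, eps_sq]
        ring
      rw [h3, h2]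
    have hne : ∀ x, |x| < τ → Rr c n (j + 1) x ≠ c := by
      intro x hx he
      have h1 := hit x hx
      rw [he] at h1
      have h2 : (fc c)^[j + 2] 0 = x := by
        rw [Function.iterate_succ_apply]
        have : fc c 0 = c := by simp [fc]
        rw [this, h1]
      have h3 := hτ (j + 2) (by omega) (by omega)
      rw [h2] at h3
      linarith
    have hv : |(fc c)^[n] 0| < τ := by
      have := h.inv 0 (by simpa using h.pos.le)
      linarith
    intro x hx
    refine ⟨?_, hit x hx⟩
    by_contra hcon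
    push Not at hcon
    -- intermediate value
    have h1 : c < Rr c n (j + 1) ((fc c)^[n] 0) := by
      rw [Rr_v h (j + 1) (by omega)]
      have h2 : n - (j + 1) = (n - (j + 2)) + 1 := by omega
      rw [h2]
      exact iter_gt (h.orb_ne (by omega) (by omega))
    have h2 : IsPreconnected {y : ℝ | |y| < τ} := by
      have : {y : ℝ | |y| < τ} = Ioo (-τ) τ := by
        ext y; simp [abs_lt]
      rw [this]
      exact isPreconnected_Ioo
    obtain ⟨y, hy, hy2⟩ := h2.intermediate_value hx hv (Rr_cont (c := c) (n := n) (j + 1)).continuousOn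
      ⟨hcon, h1.le⟩
    exact hne y hy hy2

/-- The intermediate inverse images are in the slit plane. -/
lemma A_slit (h : RD c n p q) (hpτ : p < τ) (hτ : ∀ j, 0 < j → j < n → τ < |(fc c)^[j] 0|)
    (j : ℕ) (hj : j + 2 ≤ n) {w : ℂ} (hw : w ∈ SP τ) :
    A c n j w - c ∈ Complex.slitPlane ∧ (Fc c)^[j] (A c n j w) = w := by
  by_cases him : w.im = 0
  · -- real points
    have hwr : w = ((w.re : ℝ) : ℂ) := by
      apply Complex.ext
      · simp
      · simp [him]
    have hx := hw him
    have key : ∀ j, j + 2 ≤ n → A c n j w = ((Rr c n j w.re : ℝ) : ℂ) := by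
      intro j
      induction j with
      | zero => intro _; exact hwr
      | succ j ih =>
        intro hj
        have h1 := ih (by omega)
        have h2 := (Rr_gt h hpτ hτ j (by omega) w.re hx).1
        show (eps c (n - 1 - j) : ℂ) * csq (A c n j w - c) = _
        rw [h1, ← Complex.ofReal_sub, csq_real (by linarith), ← Complex.ofReal_mul]
        rfl
    have h1 := Rr_gt h hpτ hτ j hj w.re hx
    rw [key j hj]
    constructor
    · rw [← Complex.ofReal_sub, Complex.ofReal_mem_slitPlane]
      linarith [h1.1]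
    · rw [Fc_real, h1.2, ← hwr]
  · -- non-real points
    have key : ∀ j, j + 2 ≤ n → (A c n j w).im ≠ 0 ∧ (Fc c)^[j] (A c n j w) = w := by
      intro j
      induction j with
      | zero => intro _; exact ⟨him, rfl⟩
      | succ j ih =>
        intro hj
        obtain ⟨h1, h2⟩ := ih (by omega)
        have h3 : A c n j w - c ≠ 0 := by
          intro h4
          apply h1
          have : A c n j w = (c : ℂ) := sub_eq_zero.1 h4
          rw [this]; simp
        have h4 : Fc c (A c n (j + 1) w) = A c n j w := by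
          show ((eps c (n - 1 - j) : ℂ) * csq (A c n j w - c)) ^ 2 + c = _
          rw [mul_pow, csq_sq h3, sq, ← Complex.ofReal_mul, eps_sq]
          push_cast; ring
        constructor
        · intro h5
          apply h1
          rw [← h4]
          unfold Fc
          rw [sq_im, h5]
          ring
        · rw [Function.iterate_succ_apply, h4, h2]
    have h1 := key j hj
    refine ⟨?_, h1.2⟩
    rw [Complex.mem_slitPlane_iff]
    right
    simpa using h1.1

/-- The inverse branch of `f ^ (n - 1)`. -/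
noncomputable def phi (c : ℝ) (n : ℕ) (w : ℂ) : ℂ := A c n (n - 1) w

lemma A_step (h : RD c n p q) (hpτ : p < τ) (hτ : ∀ j, 0 < j → j < n → τ < |(fc c)^[j] 0|)
    (j : ℕ) (hj : j + 2 ≤ n) {w : ℂ} (hw : w ∈ SP τ) :
    Fc c (A c n (j + 1) w) = A c n j w ∧ 0 < eps c (n - 1 - j) * (A c n (j + 1) w).re := by
  have h1 := (A_slit h hpτ hτ j hj hw).1
  constructor
  · show ((eps c (n - 1 - j) : ℂ) * csq (A c n j w - c)) ^ 2 + c = _
    rw [mul_pow, csq_sq (Complex.slitPlane_ne_zero h1), sq, ← Complex.ofReal_mul, eps_sq]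
    push_cast; ring
  · have h2 : (A c n (j + 1) w).re = eps c (n - 1 - j) * (csq (A c n j w - c)).re := by
      show ((eps c (n - 1 - j) : ℂ) * csq (A c n j w - c)).re = _
      rw [Complex.re_ofReal_mul]
    rw [h2, ← mul_assoc, eps_sq, one_mul]
    exact csq_re_pos h1

lemma A_cont (h : RD c n p q) (hpτ : p < τ) (hτ : ∀ j, 0 < j → j < n → τ < |(fc c)^[j] 0|)
    (j : ℕ) (hj : j + 1 ≤ n) : ContinuousOn (A c n j) (SP τ) := by
  induction j with
  | zero => exact continuousOn_id
  | succ j ih =>
    intro w hw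
    have h1 := ih (by omega) w hw
    have h2c := csq_cont (A_slit h hpτ hτ j (by omega) hw).1
    have h3 : ContinuousWithinAt (fun w => A c n j w - (c : ℂ)) (SP τ) w :=
      h1.sub continuousWithinAt_const
    have h4 : ContinuousWithinAt (fun w => csq (A c n j w - (c : ℂ))) (SP τ) w :=
      ContinuousAt.comp_continuousWithinAt (f := fun w => A c n j w - (c : ℂ)) h2c h3
    exact continuousWithinAt_const.mul h4

lemma iter_phi (h : RD c n p q) (hpτ : p < τ) (hτ : ∀ j, 0 < j → j < n → τ < |(fc c)^[j] 0|)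
    {w : ℂ} (hw : w ∈ SP τ) (k : ℕ) (hk : k + 1 ≤ n) :
    (Fc c)^[k] (phi c n w) = A c n (n - 1 - k) w := by
  induction k with
  | zero => rfl
  | succ k ih =>
    rw [Function.iterate_succ_apply', ih (by omega)]
    have h1 : n - 1 - k = (n - 1 - (k + 1)) + 1 := by omega
    rw [h1]
    exact (A_step h hpτ hτ _ (by omega) hw).1

/-- The description of the pull-back. -/
lemma phi_iff (h : RD c n p q) (hpτ : p < τ) (hτ : ∀ j, 0 < j → j < n → τ < |(fc c)^[j] 0|)
    {w : ℂ} (hw : w ∈ SP τ) (z : ℂ) :
    Fc c z = phi c n w ↔ (∀ k, 0 < k → k < n → 0 < (fc c)^[k] 0 * ((Fc c)^[k] z).re) ∧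
      (Fc c)^[n] z = w := by
  have hn := h.hn
  constructor
  · intro hz
    have h1 : ∀ k, 0 < k → k ≤ n → (Fc c)^[k] z = A c n (n - k) w := by
      intro k hk hkn
      obtain ⟨j, rfl⟩ : ∃ j, k = j + 1 := ⟨k - 1, by omega⟩
      rw [Function.iterate_succ_apply, hz, iter_phi h hpτ hτ hw j (by omega)]
      congr 1
      omega
    constructor
    · intro k hk hkn
      rw [h1 k hk hkn.le, ← eps_mul_pos (h.orb_ne hk hkn)]
      have h2 := (A_step h hpτ hτ (n - k - 1) (by omega) hw).2
      have h3 : n - 1 - (n - k - 1) = k := by omega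
      have h4 : n - k - 1 + 1 = n - k := by omega
      rw [h3, h4] at h2
      exact h2
    · rw [h1 n (by omega) (le_refl n), Nat.sub_self]
      rfl
  · rintro ⟨hs, hz⟩
    have h1 : ∀ j, j + 1 ≤ n → (Fc c)^[n - j] z = A c n j w := by
      intro j
      induction j with
      | zero => intro _; exact hz
      | succ j ih =>
        intro hj
        have h2 := ih (by omega)
        set k := n - (j + 1) with hk
        have h3 : n - j = k + 1 := by omega
        rw [h3, Function.iterate_succ_apply'] at h2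
        have h4 := hs k (by omega) (by omega)
        rw [← eps_mul_pos (h.orb_ne (by omega) (by omega))] at h4
        have h5 : A c n j w - c = ((eps c k : ℂ) * (Fc c)^[k] z) ^ 2 := by
          rw [← h2]
          unfold Fc
          rw [mul_pow, sq (eps c k : ℂ), ← Complex.ofReal_mul, eps_sq]
          push_cast; ring
        show _ = (eps c (n - 1 - j) : ℂ) * csq (A c n j w - c)
        have h6 : n - 1 - j = k := by omega
        rw [h6, h5, csq_unique (by rw [Complex.re_ofReal_mul]; exact h4), ← mul_assoc,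
          ← Complex.ofReal_mul, eps_sq]
        push_cast; ring
    have h2 := h1 (n - 1) (by omega)
    have h3 : n - (n - 1) = 1 := by omega
    rw [h3] at h2
    exact h2

end RealB
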