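import Pool.Agent.Work.MP_e3f5d9_al_helper91.CxC

/-!
# The domains `V` and `U`
-/

set_option autoImplicit false

open Set Filter Topology

namespace RealB

variable {c : ℝ} {n : ℕ} {p q τ τ' Λ ε : ℝ}

/-- The outer domain. -/
def VV (τ' Λ ε : ℝ) : Set ℂ :=
  {z | ‖z‖ < 3 ∧ (τ' ≤ |z.re| → ε * Real.exp (Λ * |z.re|) < |z.im|)}

/-- The inner domain. -/
def UU (c : ℝ) (n : ℕ) (τ' Λ ε : ℝ) : Set ℂ :=
  {z | (∀ k, 0 < k → k < n → 0 < (fc c)^[k] 0 * ((Fc c)^[k] z).re) ∧
    (Fc c)^[n] z ∈ VV τ' Λ ε}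

/-- The parameters. -/
structure Par (c : ℝ) (n : ℕ) (p q τ τ' Λ : ℝ) : Prop where
  h1 : p < τ'
  h2 : τ' < τ
  h3 : τ' < q
  h4 : ∀ j, 0 < j → j < n → τ < |(fc c)^[j] 0|
  h5 : 1 ≤ Λ * (τ' - p)
  h6 : ∀ a, τ' ≤ a → a ≤ q → |deriv (fc c)^[n] a| < Real.exp (Λ * (|(fc c)^[n] a| - a))

lemma VV_sub (hτ : τ' ≤ τ) (hε : 0 < ε) : VV τ' Λ ε ⊆ SP τ := by
  rintro z ⟨_, h2⟩ him
  by_contra h3
  push Not at h3
  have h4 := h2 (by linarith)
  rw [him, abs_zero] at h4
  have : 0 < ε * Real.exp (Λ * |z.re|) := mul_pos hε (Real.exp_pos _)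
  linarith

lemma fc_contDiff (c : ℝ) : ContDiff ℝ 2 (fc c) := by unfold fc; fun_prop

lemma fc_iter_contDiff (c : ℝ) (n : ℕ) : ContDiff ℝ 2 (fc c)^[n] := by
  induction n with
  | zero => exact contDiff_id
  | succ n ih =>
    rw [Function.iterate_succ]
    exact ih.comp (fc_contDiff c)

lemma fc_deriv_cont (c : ℝ) (n : ℕ) : Continuous (deriv (fc c)^[n]) :=
  (fc_iter_contDiff c n).continuous_deriv (by norm_num)

lemma fc_hasDeriv (c y : ℝ) : HasDerivAt (fc c) (2 * y) y := by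
  unfold fc
  have := (hasDerivAt_pow 2 y).add_const c
  simpa using this

lemma Fc_hasStrict (c : ℝ) (z : ℂ) : HasStrictDerivAt (Fc c) (2 * z) z := by
  unfold Fc
  have := (hasStrictDerivAt_pow 2 z).add_const (c : ℂ)
  simpa using this

/-- The complex derivative at real points. -/
lemma Fc_strict (n : ℕ) (x : ℝ) :
    HasStrictDerivAt (Fc c)^[n] ((deriv (fc c)^[n] x : ℝ) : ℂ) (x : ℂ) := by
  induction n with
  | zero =>
    have h1 : deriv (fc c)^[0] x = 1 := by
      rw [Function.iterate_zero]; exact deriv_id x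
    rw [h1, Function.iterate_zero]
    exact_mod_cast hasStrictDerivAt_id (x : ℂ)
  | succ n ih =>
    have h1 : HasDerivAt (fc c)^[n + 1] (2 * (fc c)^[n] x * deriv (fc c)^[n] x) x := by
      rw [Function.iterate_succ']
      exact (fc_hasDeriv c _).comp x (fc_iter_diff c n x).hasDerivAt
    rw [h1.deriv, Function.iterate_succ']
    have h4 := (Fc_hasStrict c ((Fc c)^[n] (x : ℂ))).comp (x : ℂ) ih
    rw [Fc_real] at h4
    have e : ((2 * (fc c)^[n] x * deriv (fc c)^[n] x : ℝ) : ℂ) =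
        2 * (((fc c)^[n] x : ℝ) : ℂ) * ((deriv (fc c)^[n] x : ℝ) : ℂ) := by push_cast; rfl
    rw [e]
    exact h4

lemma exists_par (h : RD c n p q) : ∃ τ τ' Λ, Par c n p q τ τ' Λ := by
  have hpq := h.hpq
  obtain ⟨τ, hpτ, hτ⟩ : ∃ τ, p < τ ∧ ∀ j, 0 < j → j < n → τ < |(fc c)^[j] 0| := by
    have hev : ∀ᶠ x in 𝓝 p, ∀ k ∈ Finset.range n, 0 < k → x < |(fc c)^[k] 0| := by
      rw [Filter.eventually_all_finset]
      intro k hk
      rcases Nat.eq_zero_or_pos k with h0 | h0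
      · exact Eventually.of_forall fun x h1 => by omega
      · exact (eventually_lt_nhds (h.out k h0 (Finset.mem_range.1 hk))).mono fun x hx _ => hx
    obtain ⟨δ, hδ, hball⟩ := Metric.eventually_nhds_iff.1 hev
    refine ⟨p + δ / 2, by linarith, fun k hk hkn => ?_⟩
    apply hball _ k (Finset.mem_range.2 hkn) hk
    rw [Real.dist_eq, show p + δ / 2 - p = δ / 2 by ring, abs_of_pos (by linarith)]
    linarith
  have hmin : p < min τ q := lt_min hpτ hpq
  have hmin1 := min_le_left τ q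
  have hmin2 := min_le_right τ q
  set τ' := (p + min τ q) / 2 with hτ'
  have t1 : p < τ' := by rw [hτ']; linarith
  have t2 : τ' < τ := by rw [hτ']; linarith
  have t3 : τ' < q := by rw [hτ']; linarith
  -- the exponent
  obtain ⟨Λ, hΛ1, hΛ2⟩ : ∃ Λ, 1 ≤ Λ * (τ' - p) ∧ ∀ a, τ' ≤ a → a ≤ q →
      |deriv (fc c)^[n] a| < Real.exp (Λ * (|(fc c)^[n] a| - a)) := by
    have hgc : Continuous fun a => |(fc c)^[n] a| - a :=
      (continuous_abs.comp (fc_iter_cont c n)).sub continuous_id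
    have hdc : Continuous fun a => |deriv (fc c)^[n] a| := continuous_abs.comp (fc_deriv_cont c n)
    have hge : ∀ a, τ' ≤ a → a ≤ q → 0 ≤ |(fc c)^[n] a| - a := by
      intro a h1 h2
      rcases eq_or_lt_of_le h2 with h3 | h3
      · rw [h3]; linarith [h.ge_q]
      · linarith [h.gt a (by linarith) h3]
    set K := Icc τ' q ∩ {a | 1 ≤ |deriv (fc c)^[n] a|} with hK
    have hKc : IsCompact K := isCompact_Icc.inter_right (isClosed_le continuous_const hdc)
    rcases K.eq_empty_or_nonempty with hKe | hKne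
    · refine ⟨1 / (τ' - p), ?_, ?_⟩
      · rw [one_div_mul_cancel (by linarith)]
      · intro a h1 h2
        have h3 : |deriv (fc c)^[n] a| < 1 := by
          by_contra h4
          push Not at h4
          have : a ∈ K := ⟨⟨h1, h2⟩, h4⟩
          rw [hKe] at this
          exact this
        refine lt_of_lt_of_le h3 (Real.one_le_exp ?_)
        exact mul_nonneg (by rw [one_div]; exact inv_nonneg.2 (by linarith)) (hge a h1 h2)
    · obtain ⟨a1, ha1, hmin⟩ := hKc.exists_isMinOn hKne hgc.continuousOn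
      obtain ⟨a2, ha2, hmax⟩ := hKc.exists_isMaxOn hKne hdc.continuousOn
      set η := |(fc c)^[n] a1| - a1 with hη
      set C := |deriv (fc c)^[n] a2| with hC
      have hηpos : 0 < η := by
        rcases eq_or_lt_of_le ha1.1.2 with h3 | h3
        · exfalso
          have h4 := ha1.2
          simp only [mem_setOf_eq] at h4
          rw [h3, h.der, abs_zero] at h4
          linarith
        · have := h.gt a1 (by linarith [ha1.1.1]) h3
          rw [hη]; linarith
      have hCpos : 0 < C := lt_of_lt_of_le one_pos ha2.2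
      refine ⟨1 / (τ' - p) + C / η, ?_, ?_⟩
      · rw [add_mul, one_div_mul_cancel (by linarith)]
        have : 0 ≤ C / η * (τ' - p) := mul_nonneg (div_pos hCpos hηpos).le (by linarith)
        linarith
      · intro a h1 h2
        by_cases h3 : a ∈ K
        · have h4 : η ≤ |(fc c)^[n] a| - a := hmin h3
          have h5 : |deriv (fc c)^[n] a| ≤ C := hmax h3
          have h6 : C ≤ (1 / (τ' - p) + C / η) * (|(fc c)^[n] a| - a) := by
            calc C = C / η * η := by field_simp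
              _ ≤ (1 / (τ' - p) + C / η) * η := by
                  apply mul_le_mul_of_nonneg_right _ hηpos.le
                  have : 0 ≤ 1 / (τ' - p) := by
                    rw [one_div]; exact inv_nonneg.2 (by linarith)
                  linarith
              _ ≤ _ := by
                  apply mul_le_mul_of_nonneg_left h4
                  have : 0 ≤ 1 / (τ' - p) := by
                    rw [one_div]; exact inv_nonneg.2 (by linarith)
                  have := (div_pos hCpos hηpos).le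
                  linarith
          calc |deriv (fc c)^[n] a| ≤ C := h5
            _ < C + 1 := by linarith
            _ ≤ Real.exp C := Real.add_one_le_exp C
            _ ≤ _ := Real.exp_le_exp.2 h6
        · have h3 : |deriv (fc c)^[n] a| < 1 := by
            by_contra h4
            push Not at h4
            exact h3 ⟨⟨h1, h2⟩, h4⟩
          refine lt_of_lt_of_le h3 (Real.one_le_exp ?_)
          refine mul_nonneg ?_ (hge a h1 h2)
          have : 0 ≤ 1 / (τ' - p) := by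
            rw [one_div]; exact inv_nonneg.2 (by linarith)
          have := (div_pos hCpos hηpos).le
          linarith
  exact ⟨τ, τ', Λ, t1, t2, t3, hτ, hΛ1, hΛ2⟩

/-! ### Escape -/

lemma Fc_norm (hc : -2 ≤ c) (hc0 : c < 0) {z : ℂ} (hz : 3 ≤ ‖z‖) : ‖z‖ + 4 ≤ ‖Fc c z‖ := by
  unfold Fc
  have h1 : ‖(c : ℂ)‖ ≤ 2 := by
    rw [Complex.norm_real, Real.norm_eq_abs, abs_of_neg hc0]; linarith
  have h2 : ‖z ^ 2‖ = ‖z‖ * ‖z‖ := by rw [norm_pow, sq]
  have h3 := norm_sub_norm_le (z ^ 2) (-(c : ℂ))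
  rw [sub_neg_eq_add, norm_neg, h2] at h3
  nlinarith

lemma Fc_iter_norm (hc : -2 ≤ c) (hc0 : c < 0) (k : ℕ) (hk : 0 < k) {z : ℂ} (hz : 3 ≤ ‖z‖) :
    3 < ‖(Fc c)^[k] z‖ := by
  have key : ∀ k, ∀ z : ℂ, 3 ≤ ‖z‖ → ‖z‖ + 4 ≤ ‖(Fc c)^[k + 1] z‖ := by
    intro k
    induction k with
    | zero => intro z hz; exact Fc_norm hc hc0 hz
    | succ k ih =>
      intro z hz
      have h1 := ih z hz
      rw [Function.iterate_succ_apply']
      have h2 := Fc_norm hc hc0 (z := (Fc c)^[k + 1] z) (by linarith)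
      linarith
  obtain ⟨j, rfl⟩ : ∃ j, k = j + 1 := ⟨k - 1, by omega⟩
  have := key j z hz
  linarith

/-! ### The closure of `U` -/

lemma VV_symm {z : ℂ} : -z ∈ VV τ' Λ ε ↔ z ∈ VV τ' Λ ε := by
  unfold VV
  simp

lemma closure_VV {w : ℂ} (hw : w ∈ closure (VV τ' Λ ε)) :
    ‖w‖ ≤ 3 ∧ (|w.re| ≤ τ' ∨ ε * Real.exp (Λ * |w.re|) ≤ |w.im|) := by
  have h1 : VV τ' Λ ε ⊆ {w | ‖w‖ ≤ 3 ∧ (|w.re| ≤ τ' ∨ ε * Real.exp (Λ * |w.re|) ≤ |w.im|)} := by
    rintro w ⟨h1, h2⟩
    refine ⟨h1.le, ?_⟩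
    rcases le_total |w.re| τ' with h3 | h3
    · exact Or.inl h3
    · exact Or.inr (h2 h3).le
  have h2 : IsClosed {w : ℂ | ‖w‖ ≤ 3 ∧ (|w.re| ≤ τ' ∨ ε * Real.exp (Λ * |w.re|) ≤ |w.im|)} := by
    apply (isClosed_le continuous_norm continuous_const).inter
    apply (isClosed_le (continuous_abs.comp Complex.continuous_re) continuous_const).union
    refine isClosed_le ?_ (continuous_abs.comp Complex.continuous_im)
    exact continuous_const.mul (Real.continuous_exp.comp
      (continuous_const.mul (continuous_abs.comp Complex.continuous_re)))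
  exact closure_minimal h1 h2 hw

lemma closure_UU {z : ℂ} (hz : z ∈ closure (UU c n τ' Λ ε)) :
    (∀ k, 0 < k → k < n → 0 ≤ (fc c)^[k] 0 * ((Fc c)^[k] z).re) ∧
      (Fc c)^[n] z ∈ closure (VV τ' Λ ε) := by
  constructor
  · intro k hk hkn
    have h1 : UU c n τ' Λ ε ⊆ {z | 0 ≤ (fc c)^[k] 0 * ((Fc c)^[k] z).re} :=
      fun z hz => (hz.1 k hk hkn).le
    have h2 : IsClosed {z : ℂ | 0 ≤ (fc c)^[k] 0 * ((Fc c)^[k] z).re} :=
      isClosed_le continuous_const
        (continuous_const.mul (Complex.continuous_re.comp (Fc_iter_cont c k)))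
    exact closure_minimal h1 h2 hz
  · have h1 : UU c n τ' Λ ε ⊆ (Fc c)^[n] ⁻¹' closure (VV τ' Λ ε) :=
      fun z hz => subset_closure hz.2
    exact closure_minimal h1 (isClosed_closure.preimage (Fc_iter_cont c n)) hz

/-- For small `ε` the closure of `U` is contained in `V`. -/
theorem exists_eps (h : RD c n p q) (hP : Par c n p q τ τ' Λ) :
    ∃ ε, 0 < ε ∧ closure (UU c n τ' Λ ε) ⊆ VV τ' Λ ε := by
  by_contra hcon
  push Not at hcon
  have hn := h.hn
  -- bad points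
  have hbad : ∀ i : ℕ, ∃ z : ℂ, (∀ k, 0 < k → k < n → 0 ≤ (fc c)^[k] 0 * ((Fc c)^[k] z).re) ∧
      (‖(Fc c)^[n] z‖ ≤ 3 ∧ (|((Fc c)^[n] z).re| ≤ τ' ∨
        (1 / ((i : ℝ) + 1)) * Real.exp (Λ * |((Fc c)^[n] z).re|) ≤ |((Fc c)^[n] z).im|)) ∧
      ‖z‖ < 3 ∧ τ' ≤ z.re ∧ |z.im| ≤ (1 / ((i : ℝ) + 1)) * Real.exp (Λ * z.re) := by
    intro i
    have hi : (0 : ℝ) < 1 / ((i : ℝ) + 1) := by positivity
    obtain ⟨z, hz1, hz2⟩ := not_subset.1 (hcon _ hi)
    obtain ⟨k1, k2⟩ := closure_UU hz1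
    have k3 := closure_VV k2
    have k4 : ‖z‖ < 3 := by
      by_contra h5
      push Not at h5
      have := Fc_iter_norm h.ge h.neg n (by omega) h5
      linarith [k3.1]
    have k5 : τ' ≤ |z.re| ∧ |z.im| ≤ (1 / ((i : ℝ) + 1)) * Real.exp (Λ * |z.re|) := by
      by_contra h5
      apply hz2
      refine ⟨k4, fun h6 => ?_⟩
      by_contra h7
      push Not at h7
      exact h5 ⟨h6, h7⟩
    rcases le_total 0 z.re with h0 | h0
    · refine ⟨z, k1, k3, k4, ?_⟩
      rw [abs_of_nonneg h0] at k5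
      exact k5
    · refine ⟨-z, ?_, ?_, by rwa [norm_neg], ?_⟩
      · intro k hk hkn
        rw [Fc_neg k hk]
        exact k1 k hk hkn
      · rw [Fc_neg n (by omega)]
        exact k3
      · rw [abs_of_nonpos h0] at k5
        rw [Complex.neg_re, Complex.neg_im, abs_neg]
        exact k5
  choose Z Z1 Z2 Z3 Z4 Z5 using hbad
  -- a convergent subsequence
  obtain ⟨x, -, φ, hφ, hlim⟩ := (isCompact_closedBall (0 : ℂ) 3).tendsto_subseq
    (x := Z) (fun i => by rw [Metric.mem_closedBall, dist_zero_right]; exact (Z3 i).le)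
  have he0 : Tendsto (fun i : ℕ => 1 / ((i : ℝ) + 1)) atTop (𝓝 0) :=
    tendsto_one_div_add_atTop_nhds_zero_nat
  have heφ : Tendsto (fun i : ℕ => 1 / ((φ i : ℝ) + 1)) atTop (𝓝 0) :=
    he0.comp hφ.tendsto_atTop
  have hre : Tendsto (fun i => (Z (φ i)).re) atTop (𝓝 x.re) :=
    (Complex.continuous_re.tendsto x).comp hlim
  have him : Tendsto (fun i => (Z (φ i)).im) atTop (𝓝 x.im) :=
    (Complex.continuous_im.tendsto x).comp hlim
  -- the limit is real
  have hx0 : x.im = 0 := by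
    have h1 : Tendsto (fun i => (1 / ((φ i : ℝ) + 1)) * Real.exp (Λ * (Z (φ i)).re)) atTop
        (𝓝 (0 * Real.exp (Λ * x.re))) :=
      heφ.mul ((Real.continuous_exp.tendsto _).comp (hre.const_mul Λ))
    rw [zero_mul] at h1
    have h2 := squeeze_zero (fun i => abs_nonneg (Z (φ i)).im) (fun i => Z5 (φ i)) h1
    have h3 := him.abs
    have h4 := tendsto_nhds_unique h3 h2
    exact abs_eq_zero.1 h4
  set a := x.re with ha
  have hxa : x = (a : ℂ) := by
    apply Complex.ext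
    · simp [ha]
    · simp [hx0]
  have haτ : τ' ≤ a := ge_of_tendsto' hre (fun i => Z4 (φ i))
  -- the limit is in the lap
  have halap : a ∈ Lap c n := by
    refine ⟨by linarith [h.pos, hP.h1], fun k hk hkn => ?_⟩
    have h1 : Tendsto (fun i => (fc c)^[k] 0 * ((Fc c)^[k] (Z (φ i))).re) atTop
        (𝓝 ((fc c)^[k] 0 * ((Fc c)^[k] x).re)) :=
      (((Complex.continuous_re.comp (Fc_iter_cont c k)).tendsto x).comp hlim).const_mul _
    rw [hxa, Fc_real, Complex.ofReal_re] at h1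
    exact ge_of_tendsto' h1 (fun i => Z1 (φ i) k hk hkn)
  have haq : a ≤ q := by
    rw [h.lap] at halap
    exact halap.2
  -- the images
  have hwre : Tendsto (fun i => |((Fc c)^[n] (Z (φ i))).re|) atTop (𝓝 |(fc c)^[n] a|) := by
    have h1 := (((Complex.continuous_re.comp (Fc_iter_cont c n)).tendsto x).comp hlim).abs
    simp only [Function.comp_apply] at h1
    rw [hxa, Fc_real, Complex.ofReal_re] at h1
    exact h1
  have hgτ : τ' < |(fc c)^[n] a| := by
    rcases eq_or_lt_of_le haq with h1 | h1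
    · rw [h1]; linarith [h.ge_q, hP.h3]
    · linarith [h.gt a (by linarith [hP.h1]) h1]
  have hev1 : ∀ᶠ i in atTop, (1 / ((φ i : ℝ) + 1)) *
      Real.exp (Λ * |((Fc c)^[n] (Z (φ i))).re|) ≤ |((Fc c)^[n] (Z (φ i))).im| := by
    filter_upwards [hwre.eventually (lt_mem_nhds hgτ)] with i hi
    rcases (Z2 (φ i)).2 with h1 | h1
    · linarith
    · exact h1
  -- the derivative
  set D := deriv (fc c)^[n] a with hD
  have h6 := hP.h6 a haτ haq
  rw [← hD] at h6
  set δ := (Real.exp (Λ * (|(fc c)^[n] a| - a)) - |D|) / 2 with hδ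
  have hδpos : 0 < δ := by rw [hδ]; linarith
  have hstr := (Fc_strict (c := c) n a).isLittleO.def hδpos
  have hpair : Tendsto (fun i => (Z (φ i), (((Z (φ i)).re : ℝ) : ℂ))) atTop
      (𝓝 ((a : ℂ), (a : ℂ))) := by
    rw [← hxa]
    refine hlim.prodMk_nhds ?_
    rw [hxa]
    exact (Complex.continuous_ofReal.tendsto a).comp hre
  have hev2 : ∀ᶠ i in atTop, |((Fc c)^[n] (Z (φ i))).im| ≤ (|D| + δ) * |(Z (φ i)).im| := by
    filter_upwards [hpair.eventually hstr] with i hi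
    set z := Z (φ i) with hz
    have e1 : z - ((z.re : ℝ) : ℂ) = (z.im : ℂ) * Complex.I := by
      apply Complex.ext <;> simp
    have e2 : ‖z - ((z.re : ℝ) : ℂ)‖ = |z.im| := by
      rw [e1, norm_mul, Complex.norm_I, mul_one, Complex.norm_real, Real.norm_eq_abs]
    have e3 : ((Fc c)^[n] z).im = ((Fc c)^[n] z - (Fc c)^[n] ((z.re : ℝ) : ℂ)).im := by
      rw [Complex.sub_im, Fc_real, Complex.ofReal_im, sub_zero]
    rw [e3]
    calc |((Fc c)^[n] z - (Fc c)^[n] ((z.re : ℝ) : ℂ)).im|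
        ≤ ‖(Fc c)^[n] z - (Fc c)^[n] ((z.re : ℝ) : ℂ)‖ := Complex.abs_im_le_norm _
      _ ≤ ‖(Fc c)^[n] z - (Fc c)^[n] ((z.re : ℝ) : ℂ) -
          (z - ((z.re : ℝ) : ℂ)) • ((D : ℝ) : ℂ)‖ + ‖(z - ((z.re : ℝ) : ℂ)) • ((D : ℝ) : ℂ)‖ := by
            have := norm_add_le ((Fc c)^[n] z - (Fc c)^[n] ((z.re : ℝ) : ℂ) -
              (z - ((z.re : ℝ) : ℂ)) • ((D : ℝ) : ℂ)) ((z - ((z.re : ℝ) : ℂ)) • ((D : ℝ) : ℂ))
            rwa [sub_add_cancel] at this
      _ ≤ δ * ‖z - ((z.re : ℝ) : ℂ)‖ + ‖z - ((z.re : ℝ) : ℂ)‖ * |D| := by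
            apply add_le_add
            · exact hi
            · rw [norm_smul, Complex.norm_real, Real.norm_eq_abs]
      _ = (|D| + δ) * |z.im| := by rw [e2]; ring
  -- comparison
  have hev3 : ∀ᶠ i in atTop, Real.exp (Λ * |((Fc c)^[n] (Z (φ i))).re|) ≤
      (|D| + δ) * Real.exp (Λ * (Z (φ i)).re) := by
    filter_upwards [hev1, hev2] with i h1 h2
    have h3 := Z5 (φ i)
    have hi : (0 : ℝ) < 1 / ((φ i : ℝ) + 1) := by positivity
    have h4 : (1 / ((φ i : ℝ) + 1)) * Real.exp (Λ * |((Fc c)^[n] (Z (φ i))).re|) ≤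
        (1 / ((φ i : ℝ) + 1)) * ((|D| + δ) * Real.exp (Λ * (Z (φ i)).re)) := by
      calc _ ≤ (|D| + δ) * |(Z (φ i)).im| := h1.trans h2
        _ ≤ (|D| + δ) * ((1 / ((φ i : ℝ) + 1)) * Real.exp (Λ * (Z (φ i)).re)) :=
            mul_le_mul_of_nonneg_left h3 (by positivity)
        _ = _ := by ring
    exact le_of_mul_le_mul_left h4 hi
  have hlim1 : Tendsto (fun i => Real.exp (Λ * |((Fc c)^[n] (Z (φ i))).re|)) atTop
      (𝓝 (Real.exp (Λ * |(fc c)^[n] a|))) :=
    (Real.continuous_exp.tendsto _).comp (hwre.const_mul Λ)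
  have hlim2 : Tendsto (fun i => (|D| + δ) * Real.exp (Λ * (Z (φ i)).re)) atTop
      (𝓝 ((|D| + δ) * Real.exp (Λ * a))) :=
    ((Real.continuous_exp.tendsto _).comp (hre.const_mul Λ)).const_mul _
  have hfin := le_of_tendsto_of_tendsto hlim1 hlim2 hev3
  have e1 : Real.exp (Λ * |(fc c)^[n] a|) =
      Real.exp (Λ * (|(fc c)^[n] a| - a)) * Real.exp (Λ * a) := by
    rw [← Real.exp_add]; ring_nf
  rw [e1] at hfin
  have h7 := le_of_mul_le_mul_right hfin (Real.exp_pos _)
  rw [hδ] at h7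
  linarith

end RealB
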