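import Pool.Agent.Work.MP_e3f5d9_al_helper91.CxD

/-!
# The quadratic-like map of a real renormalization
-/

set_option autoImplicit false

open Set Filter Topology

namespace RealB

variable {c : ℝ} {n : ℕ} {p q τ τ' Λ ε : ℝ}

/-! ### Shapes of `V` and `U` -/

lemma VV_open : IsOpen (VV τ' Λ ε) := by
  have h0 : VV τ' Λ ε = {z : ℂ | ‖z‖ < 3} ∩
      ({z | |z.re| < τ'} ∪ {z | ε * Real.exp (Λ * |z.re|) < |z.im|}) := by
    ext z
    constructor
    · rintro ⟨h1, h2⟩
      refine ⟨h1, ?_⟩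
      rcases lt_or_ge |z.re| τ' with h | h
      · exact Or.inl h
      · exact Or.inr (h2 h)
    · rintro ⟨h1, h2⟩
      refine ⟨h1, fun h3 => ?_⟩
      rcases h2 with h | h
      · exact absurd h3 (not_le.2 h)
      · exact h
  rw [h0]
  apply (isOpen_lt continuous_norm continuous_const).inter
  apply (isOpen_lt (continuous_abs.comp Complex.continuous_re) continuous_const).union
  refine isOpen_lt ?_ (continuous_abs.comp Complex.continuous_im)
  exact continuous_const.mul (Real.continuous_exp.comp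
    (continuous_const.mul (continuous_abs.comp Complex.continuous_re)))

lemma UU_open : IsOpen (UU c n τ' Λ ε) := by
  have h0 : UU c n τ' Λ ε = (⋂ k ∈ Finset.Ioo 0 n, {z : ℂ | 0 < (fc c)^[k] 0 * ((Fc c)^[k] z).re}) ∩
      (Fc c)^[n] ⁻¹' VV τ' Λ ε := by
    ext z
    simp only [UU, Set.mem_ofPred_eq, mem_inter_iff, mem_iInter, Finset.mem_Ioo, mem_preimage, and_imp]
  rw [h0]
  apply IsOpen.inter
  · apply isOpen_biInter_finset
    intro k _
    exact isOpen_lt continuous_const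
      (continuous_const.mul (Complex.continuous_re.comp (Fc_iter_cont c k)))
  · exact VV_open.preimage (Fc_iter_cont c n)

lemma VV_star {v : ℝ} (hv : |v| ≤ p) (hpτ : p < τ') (hτ3 : τ' < 3) (hΛ : 1 ≤ Λ * (τ' - p))
    (hε : 0 < ε) {z : ℂ} (hz : z ∈ VV τ' Λ ε) {t : ℝ} (ht0 : 0 ≤ t) (ht1 : t ≤ 1) :
    (v : ℂ) + (t : ℂ) * (z - v) ∈ VV τ' Λ ε := by
  obtain ⟨hz1, hz2⟩ := hz
  have hΛ0 : 0 < Λ := by
    by_contra h
    push Not at h
    have : Λ * (τ' - p) ≤ 0 := mul_nonpos_of_nonpos_of_nonneg h (by linarith)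
    linarith
  constructor
  · have e : (v : ℂ) + (t : ℂ) * (z - v) = ((1 - t : ℝ) : ℂ) * v + (t : ℂ) * z := by
      push_cast; ring
    rw [e]
    have h1 : ‖((1 - t : ℝ) : ℂ) * v + (t : ℂ) * z‖ ≤ (1 - t) * |v| + t * ‖z‖ := by
      refine (norm_add_le _ _).trans ?_
      rw [norm_mul, norm_mul, Complex.norm_real, Complex.norm_real, Complex.norm_real,
        Real.norm_eq_abs, Real.norm_eq_abs, Real.norm_eq_abs, abs_of_nonneg ht0,
        abs_of_nonneg (by linarith : (0 : ℝ) ≤ 1 - t)]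
    refine lt_of_le_of_lt h1 ?_
    have hv3 : |v| < 3 := by linarith
    rcases eq_or_lt_of_le ht1 with h2 | h2
    · rw [h2]; linarith
    · have h3 : (1 - t) * |v| < (1 - t) * 3 := mul_lt_mul_of_pos_left hv3 (by linarith)
      have h4 : t * ‖z‖ ≤ t * 3 := mul_le_mul_of_nonneg_left hz1.le ht0
      linarith
  · have hre : ((v : ℂ) + (t : ℂ) * (z - v)).re = v + t * (z.re - v) := by
      rw [Complex.add_re, Complex.ofReal_re, Complex.re_ofReal_mul, Complex.sub_re,
        Complex.ofReal_re]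
    have him : ((v : ℂ) + (t : ℂ) * (z - v)).im = t * z.im := by
      rw [Complex.add_im, Complex.ofReal_im, Complex.im_ofReal_mul, Complex.sub_im,
        Complex.ofReal_im]
      ring
    rw [hre, him]
    intro ha
    set a := |v + t * (z.re - v)| with hadef
    have h1 : a ≤ (1 - t) * |v| + t * |z.re| := by
      have e : v + t * (z.re - v) = (1 - t) * v + t * z.re := by ring
      rw [hadef, e]
      refine (abs_add_le _ _).trans ?_
      rw [abs_mul, abs_mul, abs_of_nonneg ht0, abs_of_nonneg (by linarith : (0 : ℝ) ≤ 1 - t)]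
    have ht : 0 < t := by
      rcases eq_or_lt_of_le ht0 with h2 | h2
      · rw [← h2] at h1
        linarith
      · exact h2
    -- `t (|x| - |v|) ≥ a - |v|`
    have h2 : a - |v| ≤ t * (|z.re| - |v|) := by linarith
    have h3 : a ≤ |z.re| := by
      by_contra h4
      push Not at h4
      have : t * (|z.re| - |v|) ≤ t * (a - |v|) := mul_le_mul_of_nonneg_left (by linarith) ht0
      have h5 : t * (|z.re| - |v|) < t * (a - |v|) := mul_lt_mul_of_pos_left (by linarith) ht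
      have h6 : t * (a - |v|) ≤ 1 * (a - |v|) := mul_le_mul_of_nonneg_right ht1 (by linarith)
      linarith
    have h4 : (a - |v|) * (1 / t - 1) ≤ |z.re| - a := by
      have h5 : (a - |v|) / t ≤ |z.re| - |v| := by
        rw [div_le_iff₀ ht]; linarith
      have h6 : (a - |v|) * (1 / t - 1) = (a - |v|) / t - (a - |v|) := by ring
      rw [h6]; linarith
    have ht' : 0 ≤ 1 / t - 1 := by
      have : 1 ≤ 1 / t := by rw [le_div_iff₀ ht]; linarith
      linarith
    have h5 : 1 / t - 1 ≤ Λ * (|z.re| - a) := by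
      calc 1 / t - 1 = 1 * (1 / t - 1) := by ring
        _ ≤ (Λ * (τ' - p)) * (1 / t - 1) := mul_le_mul_of_nonneg_right hΛ ht'
        _ ≤ (Λ * (a - |v|)) * (1 / t - 1) := by
            apply mul_le_mul_of_nonneg_right _ ht'
            apply mul_le_mul_of_nonneg_left _ hΛ0.le
            linarith
        _ = Λ * ((a - |v|) * (1 / t - 1)) := by ring
        _ ≤ Λ * (|z.re| - a) := mul_le_mul_of_nonneg_left h4 hΛ0.le
    have h6 : 1 / t ≤ Real.exp (Λ * (|z.re| - a)) := by
      have := Real.add_one_le_exp (Λ * (|z.re| - a))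
      linarith
    have h7 : ε * Real.exp (Λ * |z.re|) < |z.im| := hz2 (by linarith)
    have h8 : Real.exp (Λ * |z.re|) = Real.exp (Λ * a) * Real.exp (Λ * (|z.re| - a)) := by
      rw [← Real.exp_add]; ring_nf
    rw [abs_mul, abs_of_pos ht]
    calc ε * Real.exp (Λ * a) = t * (ε * Real.exp (Λ * a) * (1 / t)) := by field_simp
      _ ≤ t * (ε * Real.exp (Λ * a) * Real.exp (Λ * (|z.re| - a))) := by
          apply mul_le_mul_of_nonneg_left _ ht0
          apply mul_le_mul_of_nonneg_left h6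
          exact mul_nonneg hε.le (Real.exp_pos _).le
      _ = t * (ε * Real.exp (Λ * |z.re|)) := by rw [h8]; ring
      _ < t * |z.im| := mul_lt_mul_of_pos_left h7 ht

/-! ### The square root of `phi w - c` -/

/-- A square root of a sign. -/
noncomputable def kap (e : ℝ) : ℂ := open Classical in if e = 1 then 1 else Complex.I

lemma kap_sq {e : ℝ} (he : e = 1 ∨ e = -1) : kap e ^ 2 = (e : ℂ) := by
  unfold kap
  rcases he with h | h
  · rw [if_pos h, h]; simp
  · rw [if_neg (by rw [h]; norm_num), h]; simp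

lemma kap_ne (e : ℝ) : kap e ≠ 0 := by
  unfold kap
  split_ifs
  · exact one_ne_zero
  · exact Complex.I_ne_zero

lemma csq_ne (z : ℂ) : csq z ≠ 0 := Complex.exp_ne_zero _

/-- The factor between two levels. -/
noncomputable def Dj (c : ℝ) (n j : ℕ) (v w : ℂ) : ℂ :=
  csq (A c n j w - c) + csq (A c n j v - c)

/-- The square root of the quotient `(A j w - A j v) / (w - v)`. -/
noncomputable def Sj (c : ℝ) (n : ℕ) (v : ℂ) : ℕ → ℂ → ℂ
  | 0, _ => 1
  | j + 1, w => kap (eps c (n - 1 - j)) * Sj c n v j w * csq ((Dj c n j v w)⁻¹)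

lemma Dj_re (h : RD c n p q) (hpτ : p < τ) (hτ : ∀ j, 0 < j → j < n → τ < |(fc c)^[j] 0|)
    (j : ℕ) (hj : j + 2 ≤ n) {v w : ℂ} (hv : v ∈ SP τ) (hw : w ∈ SP τ) :
    0 < (Dj c n j v w).re := by
  unfold Dj
  rw [Complex.add_re]
  have h1 := csq_re_pos (A_slit h hpτ hτ j hj hw).1
  have h2 := csq_re_pos (A_slit h hpτ hτ j hj hv).1
  linarith

lemma inv_slit {z : ℂ} (hz : 0 < z.re) : z⁻¹ ∈ Complex.slitPlane := by
  rw [Complex.mem_slitPlane_iff]
  left
  rw [Complex.inv_re]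
  have : z ≠ 0 := by
    intro h
    rw [h] at hz
    simp at hz
  exact div_pos hz (Complex.normSq_pos.2 this)

lemma Sj_ne (v w : ℂ) (j : ℕ) : Sj c n v j w ≠ 0 := by
  induction j with
  | zero => exact one_ne_zero
  | succ j ih => exact mul_ne_zero (mul_ne_zero (kap_ne _) ih) (csq_ne _)

lemma Sj_sq (h : RD c n p q) (hpτ : p < τ) (hτ : ∀ j, 0 < j → j < n → τ < |(fc c)^[j] 0|)
    (j : ℕ) (hj : j + 1 ≤ n) {v w : ℂ} (hv : v ∈ SP τ) (hw : w ∈ SP τ) :
    (w - v) * Sj c n v j w ^ 2 = A c n j w - A c n j v := by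
  induction j with
  | zero => show (w - v) * 1 ^ 2 = w - v; ring
  | succ j ih =>
    have h1 := ih (by omega)
    have hD := Dj_re h hpτ hτ j (by omega) hv hw
    have hDne : Dj c n j v w ≠ 0 := by
      intro h0
      rw [h0] at hD
      simp at hD
    have ha := csq_sq (Complex.slitPlane_ne_zero (A_slit h hpτ hτ j (by omega) hw).1)
    have hb := csq_sq (Complex.slitPlane_ne_zero (A_slit h hpτ hτ j (by omega) hv).1)
    have hi := csq_sq (Complex.slitPlane_ne_zero (inv_slit hD))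
    have hk := kap_sq (eps_cases c (n - 1 - j))
    show (w - v) * (kap (eps c (n - 1 - j)) * Sj c n v j w * csq ((Dj c n j v w)⁻¹)) ^ 2 =
      (eps c (n - 1 - j) : ℂ) * csq (A c n j w - c) - (eps c (n - 1 - j) : ℂ) * csq (A c n j v - c)
    have e1 : (w - v) * (kap (eps c (n - 1 - j)) * Sj c n v j w * csq ((Dj c n j v w)⁻¹)) ^ 2 =
        kap (eps c (n - 1 - j)) ^ 2 * ((w - v) * Sj c n v j w ^ 2) *
          csq ((Dj c n j v w)⁻¹) ^ 2 := by ring
    rw [e1, h1, hi, hk]
    have e2 : A c n j w - A c n j v = (csq (A c n j w - c) - csq (A c n j v - c)) *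
        Dj c n j v w := by
      unfold Dj
      linear_combination -ha + hb
    rw [e2]
    field_simp

lemma Sj_cont (h : RD c n p q) (hpτ : p < τ) (hτ : ∀ j, 0 < j → j < n → τ < |(fc c)^[j] 0|)
    (j : ℕ) (hj : j + 1 ≤ n) {v : ℂ} (hv : v ∈ SP τ) : ContinuousOn (Sj c n v j) (SP τ) := by
  induction j with
  | zero => exact continuousOn_const
  | succ j ih =>
    intro w hw
    have h1 := ih (by omega) w hw
    have h2 := A_cont h hpτ hτ j (by omega) w hw
    have h2c := csq_cont (A_slit h hpτ hτ j (by omega) hw).1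
    have h3 : ContinuousWithinAt (fun w => A c n j w - (c : ℂ)) (SP τ) w :=
      h2.sub continuousWithinAt_const
    have h4 : ContinuousWithinAt (fun w => csq (A c n j w - (c : ℂ))) (SP τ) w :=
      ContinuousAt.comp_continuousWithinAt (f := fun w => A c n j w - (c : ℂ)) h2c h3
    have h5 : ContinuousWithinAt (fun w => Dj c n j v w) (SP τ) w :=
      h4.add continuousWithinAt_const
    have hD := Dj_re h hpτ hτ j (by omega) hv hw
    have hDne : Dj c n j v w ≠ 0 := by
      intro h0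
      rw [h0] at hD
      simp at hD
    have h6 : ContinuousWithinAt (fun w => (Dj c n j v w)⁻¹) (SP τ) w := h5.inv₀ hDne
    have h7 : ContinuousWithinAt (fun w => csq ((Dj c n j v w)⁻¹)) (SP τ) w :=
      ContinuousAt.comp_continuousWithinAt (f := fun w => (Dj c n j v w)⁻¹)
        (csq_cont (inv_slit hD)) h6
    exact (continuousWithinAt_const.mul h1).mul h7

/-! ### The critical value -/

lemma RD.v_abs (h : RD c n p q) : |(fc c)^[n] 0| ≤ p := h.inv 0 (by simpa using h.pos.le)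

lemma v_SP (h : RD c n p q) (hpτ : p < τ) : (((fc c)^[n] 0 : ℝ) : ℂ) ∈ SP τ := by
  intro _
  rw [Complex.ofReal_re]
  linarith [h.v_abs]

lemma phi_v (h : RD c n p q) (hpτ : p < τ) (hτ : ∀ j, 0 < j → j < n → τ < |(fc c)^[j] 0|) :
    phi c n (((fc c)^[n] 0 : ℝ) : ℂ) = c := by
  have h1 := (phi_iff h hpτ hτ (v_SP h hpτ) 0).2 ⟨fun k hk hkn => ?_, ?_⟩
  · rw [← h1]; simp [Fc]
  · have h2 := Fc_real (c := c) k 0
    rw [Complex.ofReal_zero] at h2
    rw [h2, Complex.ofReal_re]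
    exact mul_self_pos.2 (h.orb_ne hk hkn)
  · have h2 := Fc_real (c := c) n 0
    rw [Complex.ofReal_zero] at h2
    exact h2

lemma phi_sub (h : RD c n p q) (hpτ : p < τ) (hτ : ∀ j, 0 < j → j < n → τ < |(fc c)^[j] 0|)
    {w : ℂ} (hw : w ∈ SP τ) :
    (w - (((fc c)^[n] 0 : ℝ) : ℂ)) * Sj c n (((fc c)^[n] 0 : ℝ) : ℂ) (n - 1) w ^ 2 =
      phi c n w - c := by
  have hn := h.hn
  rw [Sj_sq h hpτ hτ (n - 1) (by omega) (v_SP h hpτ) hw]
  have h1 := phi_v h hpτ hτ
  unfold phi at h1 ⊢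
  rw [h1]

lemma phi_cont (h : RD c n p q) (hpτ : p < τ) (hτ : ∀ j, 0 < j → j < n → τ < |(fc c)^[j] 0|) :
    ContinuousOn (phi c n) (SP τ) := by
  have hn := h.hn
  exact A_cont h hpτ hτ (n - 1) (by omega)

lemma UU_iff (h : RD c n p q) (hP : Par c n p q τ τ' Λ) (hε : 0 < ε) {z : ℂ} :
    z ∈ UU c n τ' Λ ε ↔ (Fc c)^[n] z ∈ VV τ' Λ ε ∧ Fc c z = phi c n ((Fc c)^[n] z) := by
  have hpτ : p < τ := hP.h1.trans hP.h2
  constructor
  · rintro ⟨h1, h2⟩
    exact ⟨h2, (phi_iff h hpτ hP.h4 (VV_sub hP.h2.le hε h2) z).2 ⟨h1, rfl⟩⟩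
  · rintro ⟨h1, h2⟩
    exact ⟨((phi_iff h hpτ hP.h4 (VV_sub hP.h2.le hε h1) z).1 h2).1, h1⟩

lemma UU_of (h : RD c n p q) (hP : Par c n p q τ τ' Λ) (hε : 0 < ε) {z w : ℂ}
    (hw : w ∈ VV τ' Λ ε) (hz : Fc c z = phi c n w) :
    z ∈ UU c n τ' Λ ε ∧ (Fc c)^[n] z = w := by
  have hpτ : p < τ := hP.h1.trans hP.h2
  have h1 := (phi_iff h hpτ hP.h4 (VV_sub hP.h2.le hε hw) z).1 hz
  exact ⟨⟨h1.1, by rw [h1.2]; exact hw⟩, h1.2⟩

lemma par_lt_three (h : RD c n p q) (hP : Par c n p q τ τ' Λ) : τ' < 3 := by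
  have h1 := hP.h4 1 one_pos (by have := h.hn; omega)
  have h2 : (fc c)^[1] 0 = c := by simp [fc]
  rw [h2, abs_of_neg h.neg] at h1
  linarith [h.ge, hP.h2]

/-- Scaling towards the critical value. -/
lemma VV_scale (h : RD c n p q) (hP : Par c n p q τ τ' Λ) (hε : 0 < ε) {z : ℂ}
    (hz : z ∈ VV τ' Λ ε) {t : ℝ} (ht0 : 0 ≤ t) (ht1 : t ≤ 1) :
    (((fc c)^[n] 0 : ℝ) : ℂ) + (t : ℂ) * (z - (((fc c)^[n] 0 : ℝ) : ℂ)) ∈ VV τ' Λ ε :=
  VV_star h.v_abs hP.h1 (par_lt_three h hP) hP.h5 hε hz ht0 ht1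

lemma v_VV (h : RD c n p q) (hP : Par c n p q τ τ' Λ) : (((fc c)^[n] 0 : ℝ) : ℂ) ∈ VV τ' Λ ε := by
  have h1 := h.v_abs
  have h2 := hP.h1
  constructor
  · rw [Complex.norm_real, Real.norm_eq_abs]
    linarith [par_lt_three h hP]
  · intro h3
    rw [Complex.ofReal_re] at h3
    linarith

lemma VV_contr (h : RD c n p q) (hP : Par c n p q τ τ' Λ) (hε : 0 < ε) :
    ContractibleSpace (VV τ' Λ ε) := by
  have hstar : StarConvex ℝ (((fc c)^[n] 0 : ℝ) : ℂ) (VV τ' Λ ε) := by
    intro z hz a b ha hb hab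
    have h1 := VV_scale h hP hε hz hb (by linarith)
    have e : a • (((fc c)^[n] 0 : ℝ) : ℂ) + b • z =
        (((fc c)^[n] 0 : ℝ) : ℂ) + (b : ℂ) * (z - (((fc c)^[n] 0 : ℝ) : ℂ)) := by
      have ha' : a = 1 - b := by linarith
      rw [ha', Complex.real_smul, Complex.real_smul]
      push_cast
      ring
    rw [e]
    exact h1
  exact hstar.contractibleSpace ⟨_, v_VV h hP⟩

/-- `0` is in `U`. -/
lemma real_UU (h : RD c n p q) (hP : Par c n p q τ τ' Λ) {x : ℝ} (hx : |x| ≤ p) :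
    (x : ℂ) ∈ UU c n τ' Λ ε := by
  have hpq := h.hpq
  constructor
  · intro k hk hkn
    rw [Fc_real, Complex.ofReal_re]
    have h1 : 0 ≤ (fc c)^[k] 0 * (fc c)^[k] |x| := by
      have : |x| ∈ Lap c n := by
        rw [h.lap]
        exact ⟨abs_nonneg x, by linarith⟩
      exact this.2 k hk hkn
    have h2 : (fc c)^[k] |x| = (fc c)^[k] x := by
      rcases abs_choice x with h3 | h3
      · rw [h3]
      · rw [h3]
        have := congrArg Complex.re (Fc_neg (c := c) k hk (x : ℂ))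
        rw [← Complex.ofReal_neg, Fc_real, Fc_real, Complex.ofReal_re, Complex.ofReal_re] at this
        exact this
    rw [h2] at h1
    have h3 : (fc c)^[k] x ≠ 0 := by
      intro h0
      have h4 := h.inv x hx
      have h5 : n = (n - k) + k := by omega
      rw [h5, Function.iterate_add_apply, h0] at h4
      have h6 := h.out (n - k) (by omega) (by omega)
      linarith
    exact lt_of_le_of_ne h1 (Ne.symm (mul_ne_zero (h.orb_ne hk hkn) h3))
  · rw [Fc_real]
    have h1 := h.inv x hx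
    constructor
    · rw [Complex.norm_real, Real.norm_eq_abs]
      linarith [par_lt_three h hP, hP.h1]
    · intro h3
      rw [Complex.ofReal_re] at h3
      linarith [hP.h1]

end RealB
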