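import Pool.Agent.Work.MP_e3f5d9_al_helper91.CxE

/-!
# A real renormalization gives a complex renormalization
-/

set_option autoImplicit false

open Set Filter Topology

namespace RealB

variable {c : ℝ} {n : ℕ} {p q τ τ' Λ ε : ℝ}

/-! ### `U` is contractible -/

/-- The contraction of `U`. -/
noncomputable def HH (c : ℝ) (n : ℕ) (t : ℝ) (z : ℂ) : ℂ :=
  (t : ℂ) * (z / Sj c n (((fc c)^[n] 0 : ℝ) : ℂ) (n - 1) ((Fc c)^[n] z)) *
    Sj c n (((fc c)^[n] 0 : ℝ) : ℂ) (n - 1)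
      ((((fc c)^[n] 0 : ℝ) : ℂ) + ((t ^ 2 : ℝ) : ℂ) * ((Fc c)^[n] z - (((fc c)^[n] 0 : ℝ) : ℂ)))

lemma HH_mem (h : RD c n p q) (hP : Par c n p q τ τ' Λ) (hε : 0 < ε) {t : ℝ} (ht0 : 0 ≤ t)
    (ht1 : t ≤ 1) {z : ℂ} (hz : z ∈ UU c n τ' Λ ε) : HH c n t z ∈ UU c n τ' Λ ε := by
  have hpτ : p < τ := hP.h1.trans hP.h2
  obtain ⟨h1, h2⟩ := (UU_iff h hP hε).1 hz
  have ht2 : t ^ 2 ≤ 1 := by nlinarith
  have h3 := VV_scale h hP hε h1 (sq_nonneg t) ht2
  refine (UU_of h hP hε h3 ?_).1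
  have e1 := phi_sub h hpτ hP.h4 (VV_sub hP.h2.le hε h1)
  have e2 := phi_sub h hpτ hP.h4 (VV_sub hP.h2.le hε h3)
  have hS := Sj_ne (c := c) (n := n) (((fc c)^[n] 0 : ℝ) : ℂ) ((Fc c)^[n] z) (n - 1)
  have e3 : z ^ 2 = phi c n ((Fc c)^[n] z) - c := by
    rw [← h2]; unfold Fc; ring
  set v : ℂ := (((fc c)^[n] 0 : ℝ) : ℂ) with hv
  set w : ℂ := (Fc c)^[n] z with hw
  set w' : ℂ := v + ((t ^ 2 : ℝ) : ℂ) * (w - v) with hw'
  have e4 : z ^ 2 = (w - v) * Sj c n v (n - 1) w ^ 2 := by rw [e3, e1]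
  have e5 : (z / Sj c n v (n - 1) w) ^ 2 = w - v := by
    rw [div_pow, e4]
    field_simp
  have e6 : phi c n w' = (w' - v) * Sj c n v (n - 1) w' ^ 2 + c := by rw [e2]; ring
  rw [e6]
  show (HH c n t z) ^ 2 + (c : ℂ) = _
  have e7 : HH c n t z = (t : ℂ) * (z / Sj c n v (n - 1) w) * Sj c n v (n - 1) w' := rfl
  rw [e7, mul_pow, mul_pow, e5]
  have e8 : w' - v = (t : ℂ) ^ 2 * (w - v) := by
    rw [hw']; push_cast; ring
  rw [e8]

lemma UU_contr (h : RD c n p q) (hP : Par c n p q τ τ' Λ) (hε : 0 < ε) :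
    ContractibleSpace (UU c n τ' Λ ε) := by
  have hpτ : p < τ := hP.h1.trans hP.h2
  have h0 : (0 : ℂ) ∈ UU c n τ' Λ ε := by
    have := real_UU (ε := ε) h hP (x := 0) (by simpa using h.pos.le)
    rwa [Complex.ofReal_zero] at this
  have hSc := Sj_cont h hpτ hP.h4 (n - 1) (by have := h.hn; omega) (v_SP h hpτ)
  have hcont : Continuous fun x : unitInterval × (UU c n τ' Λ ε) => HH c n x.1 x.2 := by
    unfold HH
    have c1 : Continuous fun x : unitInterval × (UU c n τ' Λ ε) => ((x.1 : ℝ) : ℂ) :=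
      Complex.continuous_ofReal.comp (continuous_subtype_val.comp continuous_fst)
    have c2 : Continuous fun x : unitInterval × (UU c n τ' Λ ε) => (x.2 : ℂ) :=
      continuous_subtype_val.comp continuous_snd
    have c3 : Continuous fun x : unitInterval × (UU c n τ' Λ ε) => (Fc c)^[n] (x.2 : ℂ) :=
      (Fc_iter_cont c n).comp c2
    have c4 : Continuous fun x : unitInterval × (UU c n τ' Λ ε) =>
        Sj c n (((fc c)^[n] 0 : ℝ) : ℂ) (n - 1) ((Fc c)^[n] (x.2 : ℂ)) :=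
      hSc.comp_continuous c3 fun x => VV_sub hP.h2.le hε x.2.2.2
    have c5 : Continuous fun x : unitInterval × (UU c n τ' Λ ε) =>
        (((fc c)^[n] 0 : ℝ) : ℂ) + (((x.1 : ℝ) ^ 2 : ℝ) : ℂ) *
          ((Fc c)^[n] (x.2 : ℂ) - (((fc c)^[n] 0 : ℝ) : ℂ)) := by
      refine continuous_const.add (Continuous.mul ?_ (c3.sub continuous_const))
      exact Complex.continuous_ofReal.comp ((continuous_subtype_val.comp continuous_fst).pow 2)
    have c6 : Continuous fun x : unitInterval × (UU c n τ' Λ ε) =>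
        Sj c n (((fc c)^[n] 0 : ℝ) : ℂ) (n - 1)
          ((((fc c)^[n] 0 : ℝ) : ℂ) + (((x.1 : ℝ) ^ 2 : ℝ) : ℂ) *
            ((Fc c)^[n] (x.2 : ℂ) - (((fc c)^[n] 0 : ℝ) : ℂ))) := by
      refine hSc.comp_continuous c5 fun x => VV_sub (Λ := Λ) hP.h2.le hε ?_
      have ht0 := x.1.2.1
      have ht1 := x.1.2.2
      exact VV_scale h hP hε x.2.2.2 (sq_nonneg _) (by nlinarith)
    exact (c1.mul (c2.div c4 fun x => Sj_ne _ _ _)).mul c6
  rw [contractible_iff_id_nullhomotopic]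
  refine ⟨⟨0, h0⟩, ⟨ContinuousMap.Homotopy.symm ⟨⟨fun x => ⟨HH c n x.1 x.2,
    HH_mem h hP hε x.1.2.1 x.1.2.2 x.2.2⟩, ?_⟩, ?_, ?_⟩⟩⟩
  · exact hcont.subtype_mk _
  · intro x
    apply Subtype.ext
    show HH c n ((0 : unitInterval) : ℝ) x = (0 : ℂ)
    unfold HH
    simp
  · intro x
    apply Subtype.ext
    show HH c n ((1 : unitInterval) : ℝ) x = (x : ℂ)
    unfold HH
    have hS := Sj_ne (c := c) (n := n) (((fc c)^[n] 0 : ℝ) : ℂ) ((Fc c)^[n] x) (n - 1)
    have e1 : ((((1 : unitInterval) : ℝ) ^ 2 : ℝ) : ℂ) = 1 := by simp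
    have e2 : ((((1 : unitInterval) : ℝ)) : ℂ) = 1 := by simp
    rw [e1, e2, one_mul, one_mul, add_sub_cancel, div_mul_cancel₀ _ hS]

/-! ### Properness and degree -/

lemma Fc_proper (h : RD c n p q) (hP : Par c n p q τ τ' Λ) (hε : 0 < ε)
    (hcl : closure (UU c n τ' Λ ε) ⊆ VV τ' Λ ε) {K : Set ℂ} (hKV : K ⊆ VV τ' Λ ε)
    (hK : IsCompact K) : IsCompact {z | z ∈ UU c n τ' Λ ε ∧ (Fc c)^[n] z ∈ K} := by
  have hpτ : p < τ := hP.h1.trans hP.h2
  have h1 : {z | z ∈ UU c n τ' Λ ε ∧ (Fc c)^[n] z ∈ K} = Fc c ⁻¹' (phi c n '' K) := by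
    ext z
    constructor
    · rintro ⟨hz, hzK⟩
      exact ⟨_, hzK, ((UU_iff h hP hε).1 hz).2.symm⟩
    · rintro ⟨w, hw, hwz⟩
      obtain ⟨h2, h3⟩ := UU_of h hP hε (hKV hw) hwz.symm
      exact ⟨h2, by rw [h3]; exact hw⟩
  have h2 : IsCompact (phi c n '' K) :=
    hK.image_of_continuousOn ((phi_cont h hpτ hP.h4).mono
      (hKV.trans (VV_sub hP.h2.le hε)))
  have h3 : IsClosed (Fc c ⁻¹' (phi c n '' K)) := h2.isClosed.preimage (Fc_cont c)
  rw [h1]
  refine (isCompact_closedBall (0 : ℂ) 3).of_isClosed_subset h3 ?_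
  rw [← h1]
  rintro z ⟨hz, -⟩
  rw [Metric.mem_closedBall, dist_zero_right]
  exact (hcl (subset_closure hz)).1.le

lemma UU_pm {z z' : ℂ} (h : RD c n p q) (hP : Par c n p q τ τ' Λ) (hε : 0 < ε)
    (hz : z ∈ UU c n τ' Λ ε) (hz' : z' ∈ UU c n τ' Λ ε) (he : (Fc c)^[n] z = (Fc c)^[n] z') :
    z' = z ∨ z' = -z := by
  have h1 := ((UU_iff h hP hε).1 hz).2
  have h2 := ((UU_iff h hP hε).1 hz').2
  rw [he, ← h2] at h1
  unfold Fc at h1
  have h3 : z' ^ 2 = z ^ 2 := by linear_combination -h1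
  exact sq_eq_sq_iff_eq_or_eq_neg.1 h3

lemma UU_neg {z : ℂ} (h : RD c n p q) (hz : z ∈ UU c n τ' Λ ε) : -z ∈ UU c n τ' Λ ε := by
  have hn := h.hn
  constructor
  · intro k hk hkn
    rw [Fc_neg k hk]
    exact hz.1 k hk hkn
  · rw [Fc_neg n (by omega)]
    exact hz.2

lemma UU_ncard (h : RD c n p q) (hP : Par c n p q τ τ' Λ) (hε : 0 < ε) {w : ℂ}
    (hw : w ∈ VV τ' Λ ε) (hwv : w ≠ (((fc c)^[n] 0 : ℝ) : ℂ)) :
    {z | z ∈ UU c n τ' Λ ε ∧ (Fc c)^[n] z = w}.ncard = 2 := by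
  have hpτ : p < τ := hP.h1.trans hP.h2
  have h1 := phi_sub h hpτ hP.h4 (VV_sub hP.h2.le hε hw)
  have h2 : phi c n w - c ≠ 0 := by
    rw [← h1]
    exact mul_ne_zero (sub_ne_zero.2 hwv) (pow_ne_zero 2 (Sj_ne _ _ _))
  have h3 := csq_sq h2
  set s := csq (phi c n w - c) with hs
  have hs0 : s ≠ 0 := csq_ne _
  have h4 : {z | z ∈ UU c n τ' Λ ε ∧ (Fc c)^[n] z = w} = {s, -s} := by
    ext z
    constructor
    · rintro ⟨hz, hzw⟩
      have h5 := ((UU_iff h hP hε).1 hz).2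
      rw [hzw] at h5
      unfold Fc at h5
      have h6 : z ^ 2 = s ^ 2 := by rw [h3, ← h5]; ring
      rcases sq_eq_sq_iff_eq_or_eq_neg.1 h6 with h7 | h7
      · rw [h7]; exact Or.inl rfl
      · rw [h7]; exact Or.inr rfl
    · intro hz
      have h6 : z ^ 2 = s ^ 2 := by
        rcases hz with hz | hz
        · rw [hz]
        · rw [mem_singleton_iff.1 hz]; ring
      refine UU_of h hP hε hw ?_
      unfold Fc
      rw [h6, h3]; ring
  rw [h4, ncard_pair]
  intro h5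
  apply hs0
  have : (2 : ℂ) * s = 0 := by linear_combination h5
  rcases mul_eq_zero.1 this with h6 | h6
  · exact absurd h6 two_ne_zero
  · exact h6

lemma UU_surj (h : RD c n p q) (hP : Par c n p q τ τ' Λ) (hε : 0 < ε) {w : ℂ}
    (hw : w ∈ VV τ' Λ ε) : ∃ z ∈ UU c n τ' Λ ε, (Fc c)^[n] z = w := by
  obtain ⟨s, hs⟩ := IsAlgClosed.exists_pow_nat_eq (phi c n w - c) (n := 2) (by norm_num)
  refine ⟨s, UU_of h hP hε hw ?_⟩
  unfold Fc
  rw [hs]; ring

/-! ### Connectedness -/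

lemma Fc_open (c : ℝ) : IsOpenMap (Fc c) := by
  have h1 : IsOpenMap (fun z : ℂ => z ^ 2) := (Complex.isOpenQuotientMap_pow 2).isOpenMap
  exact (Homeomorph.addRight (c : ℂ)).isOpenMap.comp h1

lemma Fc_iter_open (c : ℝ) (k : ℕ) : IsOpenMap (Fc c)^[k] := by
  induction k with
  | zero => exact IsOpenMap.id
  | succ k ih =>
    rw [Function.iterate_succ]
    exact ih.comp (Fc_open c)

/-- Pull-backs of connected sets containing the critical value are connected. -/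
lemma pull_preconn {G : ℂ → ℂ} (hG : Continuous G) (hGo : IsOpenMap G) {U W : Set ℂ}
    (hU : IsOpen U) (hW : IsOpen W) (hneg : ∀ z ∈ U, -z ∈ U) (hGneg : ∀ z, G (-z) = G z)
    (hpm : ∀ z ∈ U, ∀ z' ∈ U, G z = G z' → z' = z ∨ z' = -z)
    (hsurj : ∀ w ∈ W, ∃ z ∈ U, G z = w) (h0 : (0 : ℂ) ∈ U) (h0W : G 0 ∈ W)
    (hWc : IsPreconnected W) : IsPreconnected {z | z ∈ U ∧ G z ∈ W} := by
  set U' := {z | z ∈ U ∧ G z ∈ W} with hU'
  have hU'o : IsOpen U' := hU.inter (hW.preimage hG)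
  have h0' : (0 : ℂ) ∈ U' := ⟨h0, h0W⟩
  have hneg' : ∀ z ∈ U', -z ∈ U' := fun z hz => ⟨hneg z hz.1, by rw [hGneg]; exact hz.2⟩
  set A := connectedComponentIn U' 0 with hA
  have hAo : IsOpen A := hU'o.connectedComponentIn
  have hAs : A ⊆ U' := connectedComponentIn_subset U' 0
  have hAc : IsPreconnected A := isPreconnected_connectedComponentIn
  have h0A : (0 : ℂ) ∈ A := mem_connectedComponentIn h0'
  -- `A` is symmetric
  have hAneg : ∀ z ∈ A, -z ∈ A := by
    intro z hz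
    have h1 : IsPreconnected ((fun z : ℂ => -z) '' A) := hAc.image _ continuous_neg.continuousOn
    have h2 : (fun z : ℂ => -z) '' A ⊆ A := by
      refine h1.subset_connectedComponentIn ⟨0, h0A, neg_zero⟩ ?_
      rintro _ ⟨y, hy, rfl⟩
      exact hneg' y (hAs hy)
    exact h2 ⟨z, hz, rfl⟩
  -- the complement
  have hBo : IsOpen (U' \ A) := by
    rw [isOpen_iff_mem_nhds]
    rintro b ⟨hb, hbA⟩
    have h1 : IsOpen (connectedComponentIn U' b) := hU'o.connectedComponentIn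
    refine mem_of_superset (h1.mem_nhds (mem_connectedComponentIn hb)) ?_
    intro y hy
    refine ⟨connectedComponentIn_subset U' b hy, fun hyA => hbA ?_⟩
    have h2 := connectedComponentIn_eq hy
    have h3 := connectedComponentIn_eq hyA
    rw [hA, h3, ← h2]
    exact mem_connectedComponentIn hb
  have hBe : U' \ A = ∅ := by
    by_contra hne
    obtain ⟨b, hb⟩ := nonempty_iff_ne_empty.2 hne
    have h1 : W ⊆ G '' A ∪ G '' (U' \ A) := by
      intro w hw
      obtain ⟨z, hz, hzw⟩ := hsurj w hw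
      have hz' : z ∈ U' := ⟨hz, by rw [hzw]; exact hw⟩
      by_cases hzA : z ∈ A
      · exact Or.inl ⟨z, hzA, hzw⟩
      · exact Or.inr ⟨z, ⟨hz', hzA⟩, hzw⟩
    obtain ⟨w, -, ⟨a, ha, haw⟩, ⟨b', hb', hbw⟩⟩ := hWc _ _ (hGo _ hAo) (hGo _ hBo) h1
      ⟨G 0, h0W, 0, h0A, rfl⟩ ⟨G b, hb.1.2, b, hb, rfl⟩
    rcases hpm a (hAs ha).1 b' hb'.1.1 (haw.trans hbw.symm) with h2 | h2
    · exact hb'.2 (h2 ▸ ha)
    · exact hb'.2 (h2 ▸ hAneg a ha)
  have h2 : U' = A := Subset.antisymm (fun z hz => by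
    by_contra h3
    have : z ∈ U' \ A := ⟨hz, h3⟩
    rw [hBe] at this
    exact this) hAs
  rw [h2]
  exact hAc

/-- Nested intersections of connected sets. -/
lemma nested_preconn {U : ℕ → Set ℂ} (hU : ∀ k, IsPreconnected (U k))
    (hcl : ∀ k, closure (U (k + 1)) ⊆ U k) (hc : IsCompact (closure (U 0))) :
    IsPreconnected (⋂ k, U k) := by
  have hdec : ∀ k, closure (U (k + 1)) ⊆ closure (U k) := fun k => (hcl k).trans subset_closure
  have hanti : Antitone fun k => closure (U k) := antitone_nat_of_succ_le hdec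
  have hcomp : ∀ k, IsCompact (closure (U k)) := fun k =>
    hc.of_isClosed_subset isClosed_closure (hanti (Nat.zero_le k))
  have heq : (⋂ k, U k) = ⋂ k, closure (U k) := by
    apply Subset.antisymm
    · exact iInter_mono fun k => subset_closure
    · intro z hz
      rw [mem_iInter] at hz ⊢
      exact fun k => hcl k (hz (k + 1))
  have hKc : IsCompact (⋂ k, U k) := by
    rw [heq]
    exact hc.of_isClosed_subset (isClosed_iInter fun k => isClosed_closure) (iInter_subset _ 0)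
  rw [isPreconnected_iff_subset_of_disjoint_closed]
  intro a b ha hb hab hdis
  have hKa : IsCompact ((⋂ k, U k) ∩ a) := hKc.inter_right ha
  have hKb : IsCompact ((⋂ k, U k) ∩ b) := hKc.inter_right hb
  have hd : Disjoint ((⋂ k, U k) ∩ a) ((⋂ k, U k) ∩ b) := by
    rw [Set.disjoint_iff]
    rintro z ⟨h1, h2⟩
    have : z ∈ (⋂ k, U k) ∩ (a ∩ b) := ⟨h1.1, h1.2, h2.2⟩
    rw [hdis] at this
    exact this
  obtain ⟨u, w, hu, hw, hau, hbw, huw⟩ := SeparatedNhds.of_isCompact_isCompact hKa hKb hd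
  obtain ⟨k, hk⟩ : ∃ k, closure (U k) ⊆ u ∪ w := by
    apply exists_subset_nhds_of_isCompact (V := fun k => closure (U k))
      (directed_of_isDirected_le fun i j hij => hanti hij) hcomp
    intro x hx
    rw [← heq] at hx
    rcases hab hx with h1 | h1
    · exact mem_of_superset (hu.mem_nhds (hau ⟨hx, h1⟩)) subset_union_left
    · exact mem_of_superset (hw.mem_nhds (hbw ⟨hx, h1⟩)) subset_union_right
  have h1 : U k ⊆ u ∨ U k ⊆ w := by
    apply (isPreconnected_iff_subset_of_disjoint.1 (hU k)) u w hu hw (subset_closure.trans hk)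
    rw [huw.inter_eq, inter_empty]
  rcases h1 with h1 | h1
  · left
    intro z hz
    rcases hab hz with h2 | h2
    · exact h2
    · exfalso
      exact Set.disjoint_left.1 huw (h1 (mem_iInter.1 hz k)) (hbw ⟨hz, h2⟩)
  · right
    intro z hz
    rcases hab hz with h2 | h2
    · exfalso
      exact Set.disjoint_left.1 huw (hau ⟨hz, h2⟩) (h1 (mem_iInter.1 hz k))
    · exact h2

/-- The nested pull-backs. -/
def UK (c : ℝ) (n : ℕ) (τ' Λ ε : ℝ) : ℕ → Set ℂ
  | 0 => UU c n τ' Λ ε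
  | k + 1 => {z | z ∈ UU c n τ' Λ ε ∧ (Fc c)^[n] z ∈ UK c n τ' Λ ε k}

lemma UK_sub (k : ℕ) : UK c n τ' Λ ε k ⊆ UU c n τ' Λ ε := by
  cases k with
  | zero => exact Subset.rfl
  | succ k => exact fun z hz => hz.1

lemma UK_iInter : (⋂ k, UK c n τ' Λ ε k) = {z | ∀ k, (Fc c)^[n * k] z ∈ UU c n τ' Λ ε} := by
  have key : ∀ k z, z ∈ UK c n τ' Λ ε k ↔ ∀ j, j ≤ k → (Fc c)^[n * j] z ∈ UU c n τ' Λ ε := by
    intro k
    induction k with
    | zero =>
      intro z
      constructor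
      · intro h j hj
        obtain rfl : j = 0 := by omega
        exact h
      · intro h
        exact h 0 (le_refl 0)
    | succ k ih =>
      intro z
      constructor
      · rintro ⟨h1, h2⟩ j hj
        rcases Nat.eq_zero_or_pos j with h0 | h0
        · rw [h0]; exact h1
        · have h3 := (ih _).1 h2 (j - 1) (by omega)
          rw [← Function.iterate_add_apply] at h3
          have h4 : n * (j - 1) + n = n * j := by
            obtain ⟨i, rfl⟩ : ∃ i, j = i + 1 := ⟨j - 1, by omega⟩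
            rw [Nat.add_sub_cancel]; ring
          rwa [h4] at h3
      · intro h
        refine ⟨h 0 (by omega), (ih _).2 fun j hj => ?_⟩
        rw [← Function.iterate_add_apply]
        have h4 : n * j + n = n * (j + 1) := by ring
        rw [h4]
        exact h (j + 1) (by omega)
  ext z
  rw [mem_iInter]
  constructor
  · intro h k
    exact (key k z).1 (h k) k (le_refl k)
  · intro h k
    exact (key k z).2 fun j _ => h j

lemma UK_zero (h : RD c n p q) (hP : Par c n p q τ τ' Λ) {x : ℝ} (hx : |x| ≤ p) (k : ℕ) :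
    (x : ℂ) ∈ UK c n τ' Λ ε k := by
  induction k generalizing x with
  | zero => exact real_UU h hP hx
  | succ k ih =>
    refine ⟨real_UU h hP hx, ?_⟩
    rw [Fc_real]
    exact ih (h.inv x hx)

lemma UK_cl (h : RD c n p q) (hP : Par c n p q τ τ' Λ) (hε : 0 < ε)
    (hcl : closure (UU c n τ' Λ ε) ⊆ VV τ' Λ ε) (k : ℕ) :
    closure (UK c n τ' Λ ε (k + 1)) ⊆ UK c n τ' Λ ε k := by
  have hUc : IsCompact (closure (UU c n τ' Λ ε)) := by
    refine (isCompact_closedBall (0 : ℂ) 3).of_isClosed_subset isClosed_closure ?_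
    intro z hz
    rw [Metric.mem_closedBall, dist_zero_right]
    exact (hcl hz).1.le
  have key : ∀ k, closure (UK c n τ' Λ ε (k + 1)) ⊆
      {z | z ∈ UU c n τ' Λ ε ∧ (Fc c)^[n] z ∈ closure (UK c n τ' Λ ε k)} := by
    intro k
    have h1 : closure (UK c n τ' Λ ε k) ⊆ closure (UU c n τ' Λ ε) := closure_mono (UK_sub k)
    have h2 : IsCompact (closure (UK c n τ' Λ ε k)) := hUc.of_isClosed_subset isClosed_closure h1
    have h3 := Fc_proper h hP hε hcl (h1.trans hcl) h2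
    refine closure_minimal ?_ h3.isClosed
    exact fun z hz => ⟨hz.1, subset_closure hz.2⟩
  induction k with
  | zero => exact fun z hz => (key 0 hz).1
  | succ k ih => exact fun z hz => ⟨(key (k + 1) hz).1, ih (key (k + 1) hz).2⟩

lemma UK_open (k : ℕ) : IsOpen (UK c n τ' Λ ε k) := by
  induction k with
  | zero => exact UU_open
  | succ k ih => exact UU_open.inter (ih.preimage (Fc_iter_cont c n))

lemma UK_preconn (h : RD c n p q) (hP : Par c n p q τ τ' Λ) (hε : 0 < ε)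
    (hcl : closure (UU c n τ' Λ ε) ⊆ VV τ' Λ ε) (k : ℕ) : IsPreconnected (UK c n τ' Λ ε k) := by
  have hn := h.hn
  have h0 : ∀ k, (0 : ℂ) ∈ UK c n τ' Λ ε k := by
    intro k
    have := UK_zero (ε := ε) h hP (x := 0) (by simpa using h.pos.le) k
    rwa [Complex.ofReal_zero] at this
  induction k with
  | zero =>
    have := UU_contr h hP hε
    have h1 : PreconnectedSpace (UU c n τ' Λ ε) := inferInstance
    exact isPreconnected_iff_preconnectedSpace.2 h1
  | succ k ih =>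
    apply pull_preconn (Fc_iter_cont c n) (Fc_iter_open c n) UU_open (UK_open k)
      (fun z hz => UU_neg h hz) (fun z => Fc_neg n (by omega) z)
      (fun z hz z' hz' he => UU_pm h hP hε hz hz' he) ?_ (h0 0) (h0 (k + 1)).2 ih
    intro w hw
    exact UU_surj h hP hε (hcl (subset_closure (UK_sub k hw)))

end RealB
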