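import Mathlib

/-!
# Renormalizable quadratic polynomials
-/

set_option autoImplicit false

namespace R4

/-- `g` restricts to a proper map of degree `2` from `U` to `V`: it maps `U` to `V`, the preimage
in `U` of every compact subset of `V` is compact, and all but finitely many points of `V` have
exactly two preimages in `U`. -/
structure ProperDegreeTwo (g : ℂ → ℂ) (U V : Set ℂ) : Prop where
  mapsTo : ∀ z ∈ U, g z ∈ V
  proper : ∀ K : Set ℂ, K ⊆ V → IsCompact K → IsCompact {z | z ∈ U ∧ g z ∈ K}
  degree : {w | w ∈ V ∧ {z | z ∈ U ∧ g z = w}.ncard ≠ 2}.Finite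

/-- `z ^ 2 + c` is renormalizable: there are `n ≥ 2` and simply connected open sets `U`, `V`
containing `0` such that the closure of `U` is a compact subset of `V`, the `n`-th iterate
restricts to a proper map of degree `2` from `U` to `V`, and the set of the points of `U` whose
orbit under the `n`-th iterate stays in `U` is connected. -/
def Renormalizable (c : ℂ) : Prop :=
  ∃ n : ℕ, 2 ≤ n ∧ ∃ U V : Set ℂ, IsOpen U ∧ IsOpen V ∧ IsSimplyConnected U ∧
    IsSimplyConnected V ∧ (0 : ℂ) ∈ U ∧ IsCompact (closure U) ∧ closure U ⊆ V ∧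
    ProperDegreeTwo (fun z : ℂ => z ^ 2 + c)^[n] U V ∧
    IsConnected {z : ℂ | ∀ k : ℕ, (fun z : ℂ => z ^ 2 + c)^[n * k] z ∈ U}

end R4
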