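import Pool.Agent.Work.MP_e3f5d9_al_helper91.CxF
import Pool.Agent.Work.MP_e3f5d9_al_helper91.RenormDef

/-!
# A real renormalization gives a complex renormalization
-/

set_option autoImplicit false

open Set Filter Topology

namespace RealB

variable {c : ℝ} {n : ℕ} {p q τ τ' Λ ε : ℝ}

/-- A real renormalizable real parameter is renormalizable. -/
theorem renormalizable_of_real
    (hfin : {x : ℝ | ∃ m, 1 ≤ m ∧ x = orb c m}.Finite) (hR : RealRenorm c) :
    R4.Renormalizable (c : ℂ) := by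
  obtain ⟨n, p, q, h⟩ := exists_RD hfin hR
  obtain ⟨τ, τ', Λ, hP⟩ := exists_par h
  obtain ⟨ε, hε, hcl⟩ := exists_eps h hP
  have hn := h.hn
  have h0 : ∀ k, (0 : ℂ) ∈ UK c n τ' Λ ε k := by
    intro k
    have := UK_zero (ε := ε) h hP (x := 0) (by simpa using h.pos.le) k
    rwa [Complex.ofReal_zero] at this
  have hUc : IsCompact (closure (UU c n τ' Λ ε)) := by
    refine (isCompact_closedBall (0 : ℂ) 3).of_isClosed_subset isClosed_closure ?_
    intro z hz
    rw [Metric.mem_closedBall, dist_zero_right]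
    exact (hcl hz).1.le
  refine ⟨n, hn, UU c n τ' Λ ε, VV τ' Λ ε, UU_open, VV_open, ?_, ?_, h0 0, hUc, hcl,
    ⟨fun z hz => hz.2, fun K hKV hK => Fc_proper h hP hε hcl hKV hK, ?_⟩, ?_, ?_⟩
  · have := UU_contr h hP hε
    exact (inferInstance : SimplyConnectedSpace (UU c n τ' Λ ε))
  · have := VV_contr h hP hε
    exact (inferInstance : SimplyConnectedSpace (VV τ' Λ ε))
  · refine (finite_singleton (((fc c)^[n] 0 : ℝ) : ℂ)).subset ?_
    rintro w ⟨hw, hw2⟩
    by_contra hne
    exact hw2 (UU_ncard h hP hε hw hne)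
  · have h1 : (0 : ℂ) ∈ ⋂ k, UK c n τ' Λ ε k := mem_iInter.2 h0
    rw [UK_iInter] at h1
    exact ⟨0, h1⟩
  · have h1 := nested_preconn (fun k => UK_preconn h hP hε hcl k)
      (fun k => UK_cl h hP hε hcl k) hUc
    rw [UK_iInter] at h1
    exact h1

end RealB
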