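import Mathlib
import Pool.Agent.Work.MP_e3f5d9_al.Defs

/-!
# The combinatorial monodromy of a real quadratic map and its kneading automaton group

`c` is real, `P` a finite set of reals, invariant under `x ↦ x ^ 2 + c`.
-/

set_option autoImplicit false

open R4

namespace RealB

/-- The branches of the inverse of `x ^ 2 + c` (value `0` left of `c`). -/
noncomputable def rt (c a : ℝ) (s : Bool) : ℝ :=
  if s then -Real.sqrt (a - c) else Real.sqrt (a - c)

/-- Crossing of the real line at the point `a`, seen on the codes. -/
noncomputable def E (c : ℝ) : ℝ → List Bool → List Bool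
  | _, [] => []
  | a, s :: w => open Classical in if a < c then (!s) :: w else s :: E c (rt c a s) w

/-- Finite real postcritical data. -/
structure RP (c : ℝ) (P : Finset ℝ) : Prop where
  hc : c ∈ P
  hf : ∀ x ∈ P, x ^ 2 + c ∈ P
  hs : ∀ y ∈ P, y ≠ c → ∃ x ∈ P, x ^ 2 + c = y
  h0 : (0 : ℝ) ∉ P

variable {c : ℝ} {P : Finset ℝ}

lemma RP.le (h : RP c P) {y : ℝ} (hy : y ∈ P) : c ≤ y := by
  by_cases e : y = c
  · exact e ▸ le_refl _
  · obtain ⟨x, _, hx⟩ := h.hs y hy e
    nlinarith [sq_nonneg x]

lemma RP.ne0 (h : RP c P) {y : ℝ} (hy : y ∈ P) : y ≠ 0 := by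
  rintro rfl
  exact h.h0 hy

/-- The kneading system of the data. -/
noncomputable def ks (h : RP c P) : KS P where
  o := ⟨c, h.hc⟩
  nxt x := ⟨x.1 ^ 2 + c, h.hf x.1 x.2⟩
  side x := open Classical in decide (x.1 < 0)
  nxt_ne := by
    intro i hi
    have h1 : i.1 ^ 2 + c = c := congrArg Subtype.val hi
    have h2 : i.1 ^ 2 = 0 := by linarith
    exact h.ne0 i.2 (pow_eq_zero_iff (two_ne_zero) |>.1 h2)
  inj := by
    intro i j h1 h2
    have h3 : i.1 ^ 2 + c = j.1 ^ 2 + c := congrArg Subtype.val h1
    have h4 : i.1 ^ 2 = j.1 ^ 2 := by linarith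
    have h5 : (i.1 < 0) ↔ (j.1 < 0) := by simpa using h2
    rcases sq_eq_sq_iff_eq_or_eq_neg.1 h4 with h6 | h6
    · exact Subtype.ext h6
    · exfalso
      have := h.ne0 i.2
      have := h.ne0 j.2
      rcases lt_or_gt_of_ne (h.ne0 i.2) with h7 | h7
      · have := h5.1 h7
        linarith
      · have h8 : j.1 < 0 := by linarith
        have := h5.2 h8
        linarith
  surj := by
    intro j hj
    obtain ⟨x, hx, e⟩ := h.hs j.1 j.2 (fun h' => hj (Subtype.ext h'))
    exact ⟨⟨x, hx⟩, Subtype.ext e⟩

lemma rt_sq {a : ℝ} (s : Bool) (h : c ≤ a) : (rt c a s) ^ 2 + c = a := by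
  have : (rt c a s) ^ 2 = a - c := by
    cases s <;> simp [rt, Real.sq_sqrt (sub_nonneg.2 h)]
  linarith

lemma rt_lt {a : ℝ} (s : Bool) (h : a ≤ c) : rt c a s = 0 := by
  have : Real.sqrt (a - c) = 0 := Real.sqrt_eq_zero_of_nonpos (by linarith)
  cases s <;> simp [rt, this]

lemma rt_of_sq {x : ℝ} (hx : x ≠ 0) : rt c (x ^ 2 + c) (decide (x < 0)) = x := by
  have : Real.sqrt (x ^ 2 + c - c) = |x| := by
    rw [show x ^ 2 + c - c = x ^ 2 by ring, Real.sqrt_sq_eq_abs]
  rcases lt_or_gt_of_ne hx with h | h
  · simp only [rt, this, h, decide_true, if_true]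
    rw [abs_of_neg h]; ring
  · have h' : ¬ x < 0 := not_lt.2 h.le
    simp only [rt, this, h', decide_false]
    rw [if_neg (by simp), abs_of_pos h]

lemma rt_side {a : ℝ} (s : Bool) (h : c < a) : decide (rt c a s < 0) = s := by
  have h1 : 0 < Real.sqrt (a - c) := Real.sqrt_pos.2 (by linarith)
  cases s
  · simp [rt, h1.le]
  · simp [rt, h1]

lemma rt_notin (h : RP c P) {a : ℝ} (ha : a ∉ P) (s : Bool) : rt c a s ∉ P := by
  intro h1
  rcases lt_or_ge a c with h2 | h2
  · rw [rt_lt s h2.le] at h1
    exact h.h0 h1
  · apply ha
    have := h.hf _ h1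
    rwa [rt_sq s h2] at this

/-- Strictly between. -/
def Btw (a b y : ℝ) : Prop := (a < y ∧ y < b) ∨ (b < y ∧ y < a)

lemma Btw.symm {a b y : ℝ} (h : Btw a b y) : Btw b a y := Or.symm h

lemma btw_rt {a b y : ℝ} {s : Bool} (hy : y ≠ 0) :
    Btw (rt c a s) (rt c b s) y ↔ Btw a b (y ^ 2 + c) ∧ decide (y < 0) = s := by
  have key1 : ∀ u : ℝ, 0 < y → (Real.sqrt (u - c) < y ↔ u < y ^ 2 + c) := by
    intro u h0
    rw [Real.sqrt_lt' h0]
    constructor <;> intro h <;> linarith
  have key2 : ∀ u : ℝ, 0 < y → (y < Real.sqrt (u - c) ↔ y ^ 2 + c < u) := by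
    intro u h0
    rw [Real.lt_sqrt h0.le]
    constructor <;> intro h <;> linarith
  have key3 : ∀ u : ℝ, y < 0 → (y < -Real.sqrt (u - c) ↔ u < y ^ 2 + c) := by
    intro u h0
    rw [lt_neg, Real.sqrt_lt' (by linarith)]
    constructor <;> intro h <;> nlinarith
  have key4 : ∀ u : ℝ, y < 0 → (-Real.sqrt (u - c) < y ↔ y ^ 2 + c < u) := by
    intro u h0
    rw [neg_lt, Real.lt_sqrt (by linarith)]
    constructor <;> intro h <;> nlinarith
  rcases lt_or_gt_of_ne hy with h | h
  · cases s
    · have h1 : ∀ u : ℝ, ¬ (rt c u false < y) := by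
        intro u
        simp only [rt]
        have := Real.sqrt_nonneg (u - c)
        simp only [Bool.false_eq_true, if_false]
        linarith
      constructor
      · rintro (⟨h2, _⟩ | ⟨h2, _⟩)
        · exact absurd h2 (h1 _)
        · exact absurd h2 (h1 _)
      · rintro ⟨_, h2⟩
        simp [h] at h2
    · simp only [Btw, rt, if_true, key3 _ h, key4 _ h, h, decide_true, and_true]
      constructor
      · rintro (⟨h1, h2⟩ | ⟨h1, h2⟩)
        · exact Or.inr ⟨h2, h1⟩
        · exact Or.inl ⟨h2, h1⟩
      · rintro (⟨h1, h2⟩ | ⟨h1, h2⟩)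
        · exact Or.inr ⟨h2, h1⟩
        · exact Or.inl ⟨h2, h1⟩
  · have h' : ¬ y < 0 := not_lt.2 h.le
    cases s
    · simp only [Btw, rt, Bool.false_eq_true, if_false, key1 _ h, key2 _ h, h', decide_false,
        and_true]
    · have h1 : ∀ u : ℝ, ¬ (y < rt c u true) := by
        intro u
        simp only [rt, if_true]
        have := Real.sqrt_nonneg (u - c)
        linarith
      constructor
      · rintro (⟨_, h2⟩ | ⟨_, h2⟩)
        · exact absurd h2 (h1 _)
        · exact absurd h2 (h1 _)
      · rintro ⟨_, h2⟩
        simp [h'] at h2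

/-! ### Crossings -/

lemma E_nil (a : ℝ) : E c a [] = [] := by simp [E]

lemma E_cons (a : ℝ) (s : Bool) (w : List Bool) :
    E c a (s :: w) = if a < c then (!s) :: w else s :: E c (rt c a s) w := by
  simp [E]

lemma E_invol (w : List Bool) : ∀ a : ℝ, E c a (E c a w) = w := by
  induction w with
  | nil => intro a; simp [E_nil]
  | cons s w ih =>
    intro a
    by_cases h : a < c
    · simp [E_cons, h]
    · simp [E_cons, h, ih]

lemma E_length (w : List Bool) : ∀ a : ℝ, (E c a w).length = w.length := by
  induction w with
  | nil => intro a; simp [E_nil]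
  | cons s w ih =>
    intro a
    by_cases h : a < c
    · simp [E_cons, h]
    · simp [E_cons, h, ih]

/-- The crossing as a permutation. -/
noncomputable def Ep (c a : ℝ) : Equiv.Perm (List Bool) where
  toFun := E c a
  invFun := E c a
  left_inv w := E_invol w a
  right_inv w := E_invol w a

/-- The group generated by the loops that cross the real line twice outside `P`. -/
noncomputable def GG (c : ℝ) (P : Finset ℝ) : Subgroup (Equiv.Perm (List Bool)) :=
  Subgroup.closure {g | ∃ a b, a ∉ P ∧ b ∉ P ∧ g = Ep c a * Ep c b}

/-! ### Labels -/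

/-- The half-plane (`true` is the lower one) of the leg of `x` at level `N`. -/
noncomputable def leg (c : ℝ) : ℕ → ℝ → Bool
  | 0, _ => false
  | N + 1, x => open Classical in xor (leg c N (x ^ 2 + c)) (decide (x < 0))

/-- The label in the automaton tree of the vertex with code `w` seen from the half plane `h`
near the real point `a`. -/
noncomputable def Th (c : ℝ) : List Bool → ℕ → Bool → ℝ → List Bool
  | [], _, _, _ => []
  | s :: w, N, h, a =>
    open Classical in
    (xor s (decide (a < c ∧ leg c N c = h))) :: Th c w (N + 1) (xor h s) (rt c a s)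

/-- The inverse of `Th`. -/
noncomputable def Ti (c : ℝ) : List Bool → ℕ → Bool → ℝ → List Bool
  | [], _, _, _ => []
  | t :: u, N, h, a =>
    open Classical in
    (xor t (decide (a < c ∧ leg c N c = h))) ::
      Ti c u (N + 1) (xor h (xor t (decide (a < c ∧ leg c N c = h))))
        (rt c a (xor t (decide (a < c ∧ leg c N c = h))))

lemma Th_nil (N : ℕ) (h : Bool) (a : ℝ) : Th c [] N h a = [] := rfl

lemma Th_cons (s : Bool) (w : List Bool) (N : ℕ) (h : Bool) (a : ℝ) :
    Th c (s :: w) N h a =
      (xor s (decide (a < c ∧ leg c N c = h))) :: Th c w (N + 1) (xor h s) (rt c a s) := by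
  simp [Th]

lemma Ti_cons (t : Bool) (u : List Bool) (N : ℕ) (h : Bool) (a : ℝ) :
    Ti c (t :: u) N h a =
      (xor t (decide (a < c ∧ leg c N c = h))) ::
      Ti c u (N + 1) (xor h (xor t (decide (a < c ∧ leg c N c = h))))
        (rt c a (xor t (decide (a < c ∧ leg c N c = h)))) := by
  simp [Ti]

lemma Ti_Th (w : List Bool) : ∀ N h (a : ℝ), Ti c (Th c w N h a) N h a = w := by
  induction w with
  | nil => intro N h a; rfl
  | cons s w ih =>
    intro N h a
    rw [Th_cons, Ti_cons]
    have : xor (xor s (decide (a < c ∧ leg c N c = h))) (decide (a < c ∧ leg c N c = h)) = s := by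
      rw [Bool.xor_assoc, Bool.xor_self, Bool.xor_false]
    rw [this, ih]

lemma Th_Ti (u : List Bool) : ∀ N h (a : ℝ), Th c (Ti c u N h a) N h a = u := by
  induction u with
  | nil => intro N h a; rfl
  | cons t u ih =>
    intro N h a
    rw [Ti_cons, Th_cons, ih]
    rw [Bool.xor_assoc, Bool.xor_self, Bool.xor_false]

/-- The labelling as a permutation. -/
noncomputable def Tp (c : ℝ) (N : ℕ) (h : Bool) (a : ℝ) : Equiv.Perm (List Bool) where
  toFun w := Th c w N h a
  invFun u := Ti c u N h a
  left_inv w := Ti_Th w N h a
  right_inv u := Th_Ti u N h a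

/-- (C2): a crossing at the reference point does not change the label. -/
lemma C2 (w : List Bool) : ∀ N h (a : ℝ), Th c (E c a w) N (!h) a = Th c w N h a := by
  induction w with
  | nil => intro N h a; simp [E_nil, Th_nil]
  | cons s w ih =>
    intro N h a
    by_cases ha : a < c
    · rw [E_cons, if_pos ha, Th_cons, Th_cons, rt_lt _ ha.le, rt_lt _ ha.le]
      congr 1
      · simp only [ha, true_and]
        cases s <;> cases h <;> cases leg c N c <;> rfl
      · congr 1
        cases s <;> cases h <;> rfl
    · rw [E_cons, if_neg ha, Th_cons, Th_cons]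
      congr 1
      · simp [ha]
      · have := ih (N + 1) (xor h s) (rt c a s)
        rw [← this]
        congr 1
        cases s <;> cases h <;> rfl

/-- (C0): the label does not depend on the reference point within a gap. -/
lemma C0 (hP : RP c P) (w : List Bool) : ∀ N h (a b : ℝ), a ∉ P → b ∉ P →
    (∀ y ∈ P, ¬ Btw a b y) → Th c w N h b = Th c w N h a := by
  induction w with
  | nil => intro N h a b _ _ _; rfl
  | cons s w ih =>
    intro N h a b ha hb hn
    rw [Th_cons, Th_cons]
    have e1 : (a < c) ↔ (b < c) := by
      have h1 := hn c hP.hc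
      have h2 : a ≠ c := fun e => ha (e ▸ hP.hc)
      have h3 : b ≠ c := fun e => hb (e ▸ hP.hc)
      unfold Btw at h1
      push Not at h1
      constructor
      · intro h4
        exact lt_of_le_of_ne (h1.1 h4) h3
      · intro h4
        exact lt_of_le_of_ne (h1.2 h4) h2
    congr 1
    · simp [e1]
    · apply ih _ _ _ _ (rt_notin hP ha s) (rt_notin hP hb s)
      intro y hy h4
      exact hn _ (hP.hf y hy) ((btw_rt (hP.ne0 hy)).1 h4).1

lemma pre_some (hP : RP c P) {x : P} {s : Bool} {y : P} (h1 : (ks hP).nxt y = x)
    (h2 : (ks hP).side y = s) : (ks hP).pre s x = some y := by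
  unfold KS.pre
  have hex : ∃ i, (ks hP).nxt i = x ∧ (ks hP).side i = s := ⟨y, h1, h2⟩
  rw [dif_pos hex]
  congr 1
  apply (ks hP).inj
  · rw [hex.choose_spec.1, h1]
  · rw [hex.choose_spec.2, h2]

lemma pre_none (hP : RP c P) {x : P} {s : Bool}
    (h1 : ∀ y : P, (ks hP).nxt y = x → (ks hP).side y ≠ s) : (ks hP).pre s x = none := by
  unfold KS.pre
  rw [dif_neg]
  rintro ⟨i, h2, h3⟩
  exact h1 i h2 h3

lemma act_nil (hP : RP c P) (x : P) : (ks hP).act x [] = [] := by
  simp [KS.act]

lemma act_o (hP : RP c P) (s : Bool) (u : List Bool) :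
    (ks hP).act ⟨c, hP.hc⟩ (s :: u) = (!s) :: u := by
  have : (⟨c, hP.hc⟩ : P) = (ks hP).o := rfl
  rw [this]
  simp [KS.act]

lemma act_ne (hP : RP c P) {x : P} (hx : x.1 ≠ c) (s : Bool) (u : List Bool) :
    (ks hP).act x (s :: u) = s :: (match (ks hP).pre s x with
      | some i => (ks hP).act i u
      | none => u) := by
  have : x ≠ (ks hP).o := fun h => hx (congrArg Subtype.val h)
  conv_lhs => unfold KS.act
  rw [if_neg this]
  cases (ks hP).pre s x <;> rfl

/-- (C1): change of the reference point across one point of `P`. -/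
lemma C1 (hP : RP c P) (w : List Bool) : ∀ N h (a b : ℝ) (x : P), a ∉ P → b ∉ P →
    Btw a b x.1 → (∀ y ∈ P, Btw a b y → y = x.1) →
    Th c w N h b = if leg c N x.1 = h then (ks hP).act x (Th c w N h a) else Th c w N h a := by
  induction w with
  | nil => intro N h a b x _ _ _ _; simp [Th_nil, act_nil]
  | cons s w ih =>
    intro N h a b x ha hb hx hu
    by_cases hxc : x.1 = c
    · -- the reference point passes the critical value
      have hx' : x = ⟨c, hP.hc⟩ := Subtype.ext hxc
      subst hx'
      have hT : Th c w (N + 1) (xor h s) (rt c b s) = Th c w (N + 1) (xor h s) (rt c a s) := by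
        apply C0 hP _ _ _ _ _ (rt_notin hP ha s) (rt_notin hP hb s)
        intro y hy h4
        have h5 := hu _ (hP.hf y hy) ((btw_rt (hP.ne0 hy)).1 h4).1
        simp only at h5
        have h6 : y ^ 2 = 0 := by linarith
        exact hP.ne0 hy (pow_eq_zero_iff (two_ne_zero) |>.1 h6)
      rw [Th_cons, Th_cons, hT, act_o]
      rcases hx with ⟨h1, h2⟩ | ⟨h1, h2⟩
      · have h1' : a < c := h1
        have h2' : ¬ b < c := not_lt.2 (le_of_lt h2)
        simp only [h1', h2', false_and, decide_false, Bool.xor_false, true_and]
        by_cases hl : leg c N c = h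
        · simp [hl]
        · simp [hl]
      · have h1' : b < c := h1
        have h2' : ¬ a < c := not_lt.2 (le_of_lt h2)
        simp only [h1', h2', false_and, decide_false, Bool.xor_false, true_and]
        by_cases hl : leg c N c = h
        · simp [hl]
        · simp [hl]
    · have hcx : c < x.1 := lt_of_le_of_ne (hP.le x.2) (Ne.symm hxc)
      have hca : ¬ a < c := by
        intro h1
        rcases hx with ⟨h2, h3⟩ | ⟨h2, h3⟩
        · exact hxc (hu c hP.hc (Or.inl ⟨h1, lt_trans hcx h3⟩)).symm
        · linarith
      have hcb : ¬ b < c := by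
        intro h1
        rcases hx with ⟨h2, h3⟩ | ⟨h2, h3⟩
        · linarith
        · exact hxc (hu c hP.hc (Or.inr ⟨h1, lt_trans hcx h3⟩)).symm
      rw [Th_cons, Th_cons, act_ne hP hxc]
      simp only [hca, hcb, false_and, decide_false, Bool.xor_false]
      by_cases hy : rt c x.1 s ∈ P
      · have e1 : (ks hP).pre s x = some ⟨rt c x.1 s, hy⟩ := by
          apply pre_some
          · exact Subtype.ext (rt_sq s hcx.le)
          · exact rt_side s hcx
        rw [e1]
        have e2 := ih (N + 1) (xor h s) (rt c a s) (rt c b s) ⟨rt c x.1 s, hy⟩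
          (rt_notin hP ha s) (rt_notin hP hb s)
          ((btw_rt (hP.ne0 hy)).2 ⟨by rw [rt_sq s hcx.le]; exact hx, rt_side s hcx⟩) (by
            intro y hy' h4
            have h5 := (btw_rt (hP.ne0 hy')).1 h4
            have h6 := hu _ (hP.hf y hy') h5.1
            show y = rt c x.1 s
            rw [← h6, ← h5.2, rt_of_sq (hP.ne0 hy')])
        rw [e2]
        have e3 : leg c (N + 1) (rt c x.1 s) = xor (leg c N x.1) s := by
          have e5 : leg c (N + 1) (rt c x.1 s) =
              xor (leg c N ((rt c x.1 s) ^ 2 + c)) (decide (rt c x.1 s < 0)) := by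
            simp [leg]
          rw [e5, rt_sq s hcx.le, rt_side s hcx]
        simp only [e3]
        have e4 : (xor (leg c N x.1) s = xor h s) ↔ leg c N x.1 = h := by
          cases s <;> cases h <;> cases leg c N x.1 <;> simp
        simp only [e4]
        by_cases hl : leg c N x.1 = h
        · simp [hl]
        · simp [hl]
      · have e1 : (ks hP).pre s x = none := by
          apply pre_none
          intro y h1 h2
          apply hy
          have h3 : y.1 ^ 2 + c = x.1 := congrArg Subtype.val h1
          have h4 : decide (y.1 < 0) = s := by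
            rw [← h2]; unfold ks; simp
          have := rt_of_sq (c := c) (hP.ne0 y.2)
          rw [h3, h4] at this
          rw [this]
          exact y.2
        rw [e1]
        have e2 : Th c w (N + 1) (xor h s) (rt c b s) = Th c w (N + 1) (xor h s) (rt c a s) := by
          apply C0 hP _ _ _ _ _ (rt_notin hP ha s) (rt_notin hP hb s)
          intro y hy' h4
          have h5 := (btw_rt (hP.ne0 hy')).1 h4
          have h6 := hu _ (hP.hf y hy') h5.1
          apply hy
          rw [← h6, ← h5.2, rt_of_sq (hP.ne0 hy')]
          exact hy'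
        rw [e2]
        simp

lemma act_invol (hP : RP c P) (w : List Bool) : ∀ x : P,
    (ks hP).act x ((ks hP).act x w) = w := by
  induction w with
  | nil => intro x; simp [act_nil]
  | cons s w ih =>
    intro x
    by_cases hx : x.1 = c
    · have hx' : x = ⟨c, hP.hc⟩ := Subtype.ext hx
      subst hx'
      simp [act_o]
    · rw [act_ne hP hx, act_ne hP hx]
      cases h : (ks hP).pre s x with
      | none => rfl
      | some i => simp [ih]

/-- A letter as a permutation. -/
noncomputable def actp (hP : RP c P) (x : P) : Equiv.Perm (List Bool) where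
  toFun := (ks hP).act x
  invFun := (ks hP).act x
  left_inv w := act_invol hP w x
  right_inv w := act_invol hP w x

lemma actp_mem (hP : RP c P) (x : P) : actp hP x ∈ (ks hP).grp :=
  Subgroup.subset_closure ⟨x, fun _ => rfl⟩

/-- (G1): the labels from two reference points differ by an element of the group. -/
lemma G1 (hP : RP c P) (N : ℕ) (h : Bool) (a b : ℝ) (ha : a ∉ P) (hb : b ∉ P) :
    ∃ g ∈ (ks hP).grp, ∀ w, Th c w N h b = g (Th c w N h a) := by
  classical
  -- induction on the number of points of `P` between `a` and `b`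
  have key : ∀ n : ℕ, ∀ a b : ℝ, a ∉ P → b ∉ P → (P.filter fun y => Btw a b y).card = n →
      ∃ g ∈ (ks hP).grp, ∀ w, Th c w N h b = g (Th c w N h a) := by
    intro n
    induction n with
    | zero =>
      intro a b ha hb hn
      refine ⟨1, Subgroup.one_mem _, fun w => ?_⟩
      rw [Finset.card_eq_zero, Finset.filter_eq_empty_iff] at hn
      exact C0 hP w N h a b ha hb hn
    | succ n ih =>
      intro a b ha hb hn
      -- the case `a < b`
      have main : ∀ a b : ℝ, a ∉ P → b ∉ P → a < b →
          (P.filter fun y => Btw a b y).card = n + 1 →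
          ∃ g ∈ (ks hP).grp, ∀ w, Th c w N h b = g (Th c w N h a) := by
        intro a b ha hb hab hn
        have hne : (P.filter fun y => Btw a b y).Nonempty := by
          rw [← Finset.card_pos]; omega
        obtain ⟨x, hx, hmax⟩ := Finset.exists_max_image _ id hne
        rw [Finset.mem_filter] at hx
        have hax : a < x ∧ x < b := by
          rcases hx.2 with h1 | h1
          · exact h1
          · exfalso; linarith [h1.1, h1.2]
        -- a point of the gap just left of `x`
        have hgap : ∃ m, a ≤ m ∧ m < x ∧ m ∉ P ∧ ∀ y ∈ P, m < y → x ≤ y := by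
          by_cases hne2 : (P.filter fun y => y < x).Nonempty
          · obtain ⟨z, hz, hz2⟩ := Finset.exists_max_image _ id hne2
            rw [Finset.mem_filter] at hz
            have hzx := hz.2
            refine ⟨max a ((z + x) / 2), le_max_left _ _, ?_, ?_, ?_⟩
            · exact max_lt hax.1 (by linarith)
            · intro hm
              have h1 : max a ((z + x) / 2) < x := max_lt hax.1 (by linarith)
              have h2 := hz2 _ (Finset.mem_filter.2 ⟨hm, h1⟩)
              simp only [id] at h2
              have := le_max_right a ((z + x) / 2)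
              linarith
            · intro y hy h1
              by_contra h2
              push Not at h2
              have h3 := hz2 _ (Finset.mem_filter.2 ⟨hy, h2⟩)
              simp only [id] at h3
              have := le_max_right a ((z + x) / 2)
              linarith
          · refine ⟨a, le_refl _, hax.1, ha, ?_⟩
            intro y hy h1
            by_contra h2
            push Not at h2
            exact hne2 ⟨y, Finset.mem_filter.2 ⟨hy, h2⟩⟩
        obtain ⟨m, ham, hmx, hmP, hmgap⟩ := hgap
        have hcard : (P.filter fun y => Btw a m y).card = n := by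
          have : (P.filter fun y => Btw a m y) = (P.filter fun y => Btw a b y).erase x := by
            ext y
            rw [Finset.mem_erase, Finset.mem_filter, Finset.mem_filter]
            constructor
            · rintro ⟨h1, h2⟩
              have h3 : a < y ∧ y < m := by
                rcases h2 with h2 | h2
                · exact h2
                · exfalso; linarith [h2.1, h2.2]
              exact ⟨by linarith [h3.2], h1, Or.inl ⟨h3.1, by linarith [h3.2, hax.2]⟩⟩
            · rintro ⟨h1, h2, h3⟩
              refine ⟨h2, Or.inl ⟨?_, ?_⟩⟩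
              · rcases h3 with h3 | h3
                · exact h3.1
                · exfalso; linarith [h3.1, h3.2]
              · by_contra h4
                push Not at h4
                have h5 : m < y := lt_of_le_of_ne h4 (fun e => hmP (e ▸ h2))
                have h6 := hmgap y h2 h5
                have h7 := hmax y (Finset.mem_filter.2 ⟨h2, h3⟩)
                simp only [id] at h7
                exact h1 (le_antisymm h7 h6)
          rw [this, Finset.card_erase_of_mem (Finset.mem_filter.2 hx), hn]
          rfl
        obtain ⟨g, hg, hgw⟩ := ih a m ha hmP hcard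
        have hC1 : ∀ w, Th c w N h b =
            if leg c N x = h then (ks hP).act ⟨x, hx.1⟩ (Th c w N h m) else Th c w N h m := by
          intro w
          apply C1 hP w N h m b ⟨x, hx.1⟩ hmP hb (Or.inl ⟨hmx, hax.2⟩)
          intro y hy h1
          have h2 : m < y ∧ y < b := by
            rcases h1 with h1 | h1
            · exact h1
            · exfalso; linarith [h1.1, h1.2, hax.2]
          have h3 := hmgap y hy h2.1
          have h4 := hmax y (Finset.mem_filter.2 ⟨hy, Or.inl ⟨by linarith, h2.2⟩⟩)
          simp only [id] at h4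
          exact le_antisymm h4 h3
        by_cases hl : leg c N x = h
        · refine ⟨actp hP ⟨x, hx.1⟩ * g, Subgroup.mul_mem _ (actp_mem hP _) hg, fun w => ?_⟩
          rw [hC1, if_pos hl, hgw]
          rfl
        · refine ⟨g, hg, fun w => ?_⟩
          rw [hC1, if_neg hl, hgw]
      rcases lt_trichotomy a b with h1 | h1 | h1
      · exact main a b ha hb h1 hn
      · subst h1
        exact ⟨1, Subgroup.one_mem _, fun w => rfl⟩
      · have hn' : (P.filter fun y => Btw b a y).card = n + 1 := by
          rw [← hn]
          congr 1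
          ext y
          simp only [Finset.mem_filter]
          exact ⟨fun h => ⟨h.1, h.2.symm⟩, fun h => ⟨h.1, h.2.symm⟩⟩
        obtain ⟨g, hg, hgw⟩ := main b a hb ha h1 hn'
        refine ⟨g⁻¹, Subgroup.inv_mem _ hg, fun w => ?_⟩
        rw [hgw w]
        simp
  exact key _ a b ha hb rfl

/-- On level 0 all legs are in the upper half-plane, so in the lower half plane the labels do
not depend on the reference point. -/
lemma G3 (hP : RP c P) (a b : ℝ) (ha : a ∉ P) (hb : b ∉ P) (w : List Bool) :
    Th c w 0 true b = Th c w 0 true a := by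
  classical
  have key : ∀ n : ℕ, ∀ a b : ℝ, a ∉ P → b ∉ P → (P.filter fun y => Btw a b y).card = n →
      a < b → Th c w 0 true b = Th c w 0 true a := by
    intro n
    induction n with
    | zero =>
      intro a b ha hb hn _
      rw [Finset.card_eq_zero, Finset.filter_eq_empty_iff] at hn
      exact C0 hP w 0 true a b ha hb hn
    | succ n ih =>
      intro a b ha hb hn hab
      have hne : (P.filter fun y => Btw a b y).Nonempty := by
        rw [← Finset.card_pos]; omega
      obtain ⟨x, hx, hmax⟩ := Finset.exists_max_image _ id hne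
      rw [Finset.mem_filter] at hx
      have hax : a < x ∧ x < b := by
        rcases hx.2 with h1 | h1
        · exact h1
        · exfalso; linarith [h1.1, h1.2]
      have hgap : ∃ m, a ≤ m ∧ m < x ∧ m ∉ P ∧ ∀ y ∈ P, m < y → x ≤ y := by
        by_cases hne2 : (P.filter fun y => y < x).Nonempty
        · obtain ⟨z, hz, hz2⟩ := Finset.exists_max_image _ id hne2
          rw [Finset.mem_filter] at hz
          have hzx := hz.2
          refine ⟨max a ((z + x) / 2), le_max_left _ _, ?_, ?_, ?_⟩
          · exact max_lt hax.1 (by linarith)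
          · intro hm
            have h1 : max a ((z + x) / 2) < x := max_lt hax.1 (by linarith)
            have h2 := hz2 _ (Finset.mem_filter.2 ⟨hm, h1⟩)
            simp only [id] at h2
            have := le_max_right a ((z + x) / 2)
            linarith
          · intro y hy h1
            by_contra h2
            push Not at h2
            have h3 := hz2 _ (Finset.mem_filter.2 ⟨hy, h2⟩)
            simp only [id] at h3
            have := le_max_right a ((z + x) / 2)
            linarith
        · refine ⟨a, le_refl _, hax.1, ha, ?_⟩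
          intro y hy h1
          by_contra h2
          push Not at h2
          exact hne2 ⟨y, Finset.mem_filter.2 ⟨hy, h2⟩⟩
      obtain ⟨m, ham, hmx, hmP, hmgap⟩ := hgap
      have hcard : (P.filter fun y => Btw a m y).card = n := by
        have : (P.filter fun y => Btw a m y) = (P.filter fun y => Btw a b y).erase x := by
          ext y
          rw [Finset.mem_erase, Finset.mem_filter, Finset.mem_filter]
          constructor
          · rintro ⟨h1, h2⟩
            have h3 : a < y ∧ y < m := by
              rcases h2 with h2 | h2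
              · exact h2
              · exfalso; linarith [h2.1, h2.2]
            exact ⟨by linarith [h3.2], h1, Or.inl ⟨h3.1, by linarith [h3.2, hax.2]⟩⟩
          · rintro ⟨h1, h2, h3⟩
            refine ⟨h2, Or.inl ⟨?_, ?_⟩⟩
            · rcases h3 with h3 | h3
              · exact h3.1
              · exfalso; linarith [h3.1, h3.2]
            · by_contra h4
              push Not at h4
              have h5 : m < y := lt_of_le_of_ne h4 (fun e => hmP (e ▸ h2))
              have h6 := hmgap y h2 h5
              have h7 := hmax y (Finset.mem_filter.2 ⟨h2, h3⟩)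
              simp only [id] at h7
              exact h1 (le_antisymm h7 h6)
        rw [this, Finset.card_erase_of_mem (Finset.mem_filter.2 hx), hn]
        rfl
      have hC1 : Th c w 0 true b =
          if leg c 0 x = true then (ks hP).act ⟨x, hx.1⟩ (Th c w 0 true m)
          else Th c w 0 true m := by
        apply C1 hP w 0 true m b ⟨x, hx.1⟩ hmP hb (Or.inl ⟨hmx, hax.2⟩)
        intro y hy h1
        have h2 : m < y ∧ y < b := by
          rcases h1 with h1 | h1
          · exact h1
          · exfalso; linarith [h1.1, h1.2, hax.2]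
        have h3 := hmgap y hy h2.1
        have h4 := hmax y (Finset.mem_filter.2 ⟨hy, Or.inl ⟨by linarith, h2.2⟩⟩)
        simp only [id] at h4
        exact le_antisymm h4 h3
      rw [hC1, if_neg (by simp [leg])]
      rcases eq_or_lt_of_le ham with h1 | h1
      · rw [h1]
      · exact ih a m ha hmP hcard h1
  rcases lt_trichotomy a b with h1 | h1 | h1
  · exact key _ a b ha hb rfl h1
  · rw [h1]
  · exact (key _ b a hb ha rfl h1).symm

/-- The label seen from `a` in terms of the label seen from `a0`. -/
lemma Th_base (hP : RP c P) (a a0 : ℝ) (ha : a ∉ P) (ha0 : a0 ∉ P) (w : List Bool) :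
    Th c w 0 false a = Th c (E c a0 (E c a w)) 0 false a0 := by
  have h1 := C2 (c := c) w 0 false a
  have h2 := C2 (c := c) (E c a0 (E c a w)) 0 false a0
  rw [E_invol] at h2
  rw [← h1, ← h2]
  exact (G3 hP a a0 ha ha0 _).symm

/-- **Theorem B**: the combinatorial monodromy group is conjugate to the automaton group. -/
theorem GG_map (hP : RP c P) (a0 : ℝ) (ha0 : a0 ∉ P) :
    (GG c P).map (MulAut.conj (Tp c 0 false a0)).toMonoidHom = (ks hP).grp := by
  classical
  apply le_antisymm
  · rw [Subgroup.map_le_iff_le_comap, GG, Subgroup.closure_le]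
    rintro g ⟨a, b, ha, hb, rfl⟩
    -- the three changes of reference points
    obtain ⟨g1, hg1, h1⟩ := G1 hP 0 false a a0 ha ha0
    obtain ⟨g3, hg3, h3⟩ := G1 hP 0 false a0 b ha0 hb
    have h4 : ∀ w, Th c (E c a (E c b w)) 0 false a0 = g1 (g3 (Th c w 0 false a0)) := by
      intro w
      rw [h1, ← h3]
      congr 1
      have h5 := C2 (c := c) (E c a (E c b w)) 0 false a
      have h6 := C2 (c := c) w 0 false b
      rw [E_invol] at h5
      rw [← h5, ← h6]
      exact (G3 hP a b ha hb _).symm
    have h5 : (MulAut.conj (Tp c 0 false a0)) (Ep c a * Ep c b) = g1 * g3 := by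
      ext1 u
      rw [MulAut.conj_apply]
      have : u = (Tp c 0 false a0) ((Tp c 0 false a0)⁻¹ u) := by simp
      have h6 := h4 ((Tp c 0 false a0)⁻¹ u)
      calc (Tp c 0 false a0 * (Ep c a * Ep c b) * (Tp c 0 false a0)⁻¹) u
          = Th c (E c a (E c b ((Tp c 0 false a0)⁻¹ u))) 0 false a0 := rfl
        _ = g1 (g3 (Th c ((Tp c 0 false a0)⁻¹ u) 0 false a0)) := h6
        _ = g1 (g3 ((Tp c 0 false a0) ((Tp c 0 false a0)⁻¹ u))) := rfl
        _ = (g1 * g3) u := by rw [← this]; rfl
    show (MulAut.conj (Tp c 0 false a0)) (Ep c a * Ep c b) ∈ (ks hP).grp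
    rw [h5]
    exact Subgroup.mul_mem _ hg1 hg3
  · rw [KS.grp, Subgroup.closure_le]
    rintro g ⟨x, hg⟩
    -- adjacent reference points
    have hgapl : ∃ m, m < x.1 ∧ m ∉ P ∧ ∀ y ∈ P, m < y → x.1 ≤ y := by
      by_cases hne2 : (P.filter fun y => y < x.1).Nonempty
      · obtain ⟨z, hz, hz2⟩ := Finset.exists_max_image _ id hne2
        rw [Finset.mem_filter] at hz
        have hzx := hz.2
        refine ⟨(z + x.1) / 2, by linarith, ?_, ?_⟩
        · intro hm
          have h2 := hz2 _ (Finset.mem_filter.2 ⟨hm, by linarith⟩)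
          simp only [id] at h2
          linarith
        · intro y hy h1
          by_contra h2
          push Not at h2
          have h3 := hz2 _ (Finset.mem_filter.2 ⟨hy, h2⟩)
          simp only [id] at h3
          linarith
      · refine ⟨x.1 - 1, by linarith, ?_, ?_⟩
        · intro hm
          exact hne2 ⟨_, Finset.mem_filter.2 ⟨hm, by linarith⟩⟩
        · intro y hy _
          by_contra h2
          push Not at h2
          exact hne2 ⟨y, Finset.mem_filter.2 ⟨hy, h2⟩⟩
    have hgapr : ∃ m, x.1 < m ∧ m ∉ P ∧ ∀ y ∈ P, y < m → y ≤ x.1 := by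
      by_cases hne2 : (P.filter fun y => x.1 < y).Nonempty
      · obtain ⟨z, hz, hz2⟩ := Finset.exists_min_image _ id hne2
        rw [Finset.mem_filter] at hz
        have hzx := hz.2
        refine ⟨(z + x.1) / 2, by linarith, ?_, ?_⟩
        · intro hm
          have h2 := hz2 _ (Finset.mem_filter.2 ⟨hm, by linarith⟩)
          simp only [id] at h2
          linarith
        · intro y hy h1
          by_contra h2
          push Not at h2
          have h3 := hz2 _ (Finset.mem_filter.2 ⟨hy, h2⟩)
          simp only [id] at h3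
          linarith
      · refine ⟨x.1 + 1, by linarith, ?_, ?_⟩
        · intro hm
          exact hne2 ⟨_, Finset.mem_filter.2 ⟨hm, by linarith⟩⟩
        · intro y hy _
          by_contra h2
          push Not at h2
          exact hne2 ⟨y, Finset.mem_filter.2 ⟨hy, h2⟩⟩
    obtain ⟨a, hax, haP, hag⟩ := hgapl
    obtain ⟨b, hxb, hbP, hbg⟩ := hgapr
    have hC : ∀ w, Th c w 0 false b = (ks hP).act x (Th c w 0 false a) := by
      intro w
      have := C1 hP w 0 false a b x haP hbP (Or.inl ⟨hax, hxb⟩) (by
        intro y hy h1
        have h2 : a < y ∧ y < b := by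
          rcases h1 with h1 | h1
          · exact h1
          · exfalso; linarith [h1.1, h1.2]
        exact le_antisymm (hbg y hy h2.2) (hag y hy h2.1))
      rw [this, if_pos (by simp [leg])]
    refine ⟨(Ep c a0 * Ep c b) * (Ep c a * Ep c a0), ?_, ?_⟩
    · exact Subgroup.mul_mem _ (Subgroup.subset_closure ⟨a0, b, ha0, hbP, rfl⟩)
        (Subgroup.subset_closure ⟨a, a0, haP, ha0, rfl⟩)
    · ext1 u
      show (Tp c 0 false a0 * ((Ep c a0 * Ep c b) * (Ep c a * Ep c a0)) *
        (Tp c 0 false a0)⁻¹) u = g u
      obtain ⟨w, rfl⟩ : ∃ w, u = Th c w 0 false a0 := ⟨Ti c u 0 false a0, (Th_Ti u 0 false a0).symm⟩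
      have e1 : (Tp c 0 false a0)⁻¹ (Th c w 0 false a0) = w := by
        show (Tp c 0 false a0)⁻¹ ((Tp c 0 false a0) w) = w
        simp
      calc (Tp c 0 false a0 * ((Ep c a0 * Ep c b) * (Ep c a * Ep c a0)) *
            (Tp c 0 false a0)⁻¹) (Th c w 0 false a0)
          = Th c (E c a0 (E c b (E c a (E c a0 ((Tp c 0 false a0)⁻¹ (Th c w 0 false a0)))))) 0
              false a0 := rfl
        _ = Th c (E c a0 (E c b (E c a (E c a0 w)))) 0 false a0 := by rw [e1]
        _ = Th c (E c a (E c a0 w)) 0 false b := (Th_base hP b a0 hbP ha0 _).symm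
        _ = (ks hP).act x (Th c (E c a (E c a0 w)) 0 false a) := hC _
        _ = (ks hP).act x (Th c (E c a0 (E c a (E c a (E c a0 w)))) 0 false a0) := by
            rw [← Th_base hP a a0 haP ha0]
        _ = (ks hP).act x (Th c w 0 false a0) := by rw [E_invol, E_invol]
        _ = g (Th c w 0 false a0) := (hg _).symm

/-- The two groups are isomorphic. -/
theorem GG_equiv (hP : RP c P) (a0 : ℝ) (ha0 : a0 ∉ P) : Nonempty (GG c P ≃* (ks hP).grp) := by
  have hinj : Function.Injective (MulAut.conj (Tp c 0 false a0)).toMonoidHom :=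
    (MulAut.conj (Tp c 0 false a0)).injective
  exact ⟨((GG c P).equivMapOfInjective _ hinj).trans
    (MulEquiv.subgroupCongr (GG_map hP a0 ha0))⟩

end RealB
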