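import Pool.Agent.Work.MP_80ff4e_al_helper39.TRb
import Pool.Agent.Work.MP_e3f5d9_al_helper91.RealB

/-!
# Codes of the iterated preimages of a non-real point under a real quadratic map
-/

set_option autoImplicit false

open Polynomial unitInterval PCF

namespace RealB

/-- The quadratic polynomial `X ^ 2 + c`. -/
noncomputable def qf (c : ℝ) : ℂ[X] := X ^ 2 + C (c : ℂ)

lemma qf_eval (c : ℝ) (z : ℂ) : (qf c).eval z = z ^ 2 + c := by simp [qf]

/-- The code of the preimage `z` of level `n`: the head is the sign of the real part of the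
image of `z` on level `1`. -/
noncomputable def code (f : ℂ[X]) : ℕ → ℂ → List Bool
  | 0, _ => []
  | n + 1, z => open Classical in decide ((it f n z).re < 0) :: code f n z

variable {c : ℝ}

lemma code_zero (f : ℂ[X]) (z : ℂ) : code f 0 z = [] := rfl

lemma code_succ (f : ℂ[X]) (n : ℕ) (z : ℂ) :
    code f (n + 1) z = decide ((it f n z).re < 0) :: code f n z := by
  simp [code]

lemma code_length (f : ℂ[X]) (n : ℕ) (z : ℂ) : (code f n z).length = n := by
  induction n with
  | zero => rfl
  | succ n ih => simp [code_succ, ih]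

lemma sq_im (u : ℂ) : (u ^ 2 + (c : ℂ)).im = 2 * u.re * u.im := by
  simp [sq]; ring

lemma sq_re (u : ℂ) : (u ^ 2 + (c : ℂ)).re = u.re ^ 2 - u.im ^ 2 + c := by
  simp [sq]

/-- A continuous function on `[0, 1]` without zeros has constant sign. -/
lemma sign_const (g : I → ℝ) (hg : Continuous g) (h : ∀ s, g s ≠ 0) (s s' : I) :
    (g s < 0 ↔ g s' < 0) := by
  have key : ∀ s s', g s < 0 → g s' < 0 := by
    intro s s' h1
    by_contra h2
    have h3 : 0 < g s' := lt_of_le_of_ne (not_lt.1 h2) (Ne.symm (h s'))
    obtain ⟨r, hr⟩ := mem_range_of_exists_le_of_exists_ge hg ⟨s, h1.le⟩ ⟨s', h3.le⟩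
    exact h r hr
  exact ⟨key s s', key s' s⟩

/-- Paths in one of the half planes preserve the codes. -/
lemma code_nonreal (n : ℕ) {a b : ℂ} (γ : Path a b) (hγ : ∀ s, (γ s).im ≠ 0) {x y : ℂ}
    (h : Tr (qf c) n γ x y) : code (qf c) n y = code (qf c) n x := by
  induction n generalizing a b with
  | zero => rfl
  | succ n ih =>
    obtain ⟨Γ, hΓ⟩ := h
    -- the lift by `f`
    let u : Path (it (qf c) n x) (it (qf c) n y) := Γ.map (continuous_it (qf c) n)
    have hu : ∀ s, (u s) ^ 2 + (c : ℂ) = γ s := by
      intro s
      rw [← hΓ s, it_succ, qf_eval]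
      rfl
    have him : ∀ s, (u s).im ≠ 0 ∧ (u s).re ≠ 0 := by
      intro s
      have h1 := hγ s
      rw [← hu s, sq_im] at h1
      constructor
      · intro h2; apply h1; rw [h2]; ring
      · intro h2; apply h1; rw [h2]; ring
    have h1 := ih u (fun s => (him s).1) ⟨Γ, fun s => rfl⟩
    have h2 := sign_const (fun s => (u s).re) (by fun_prop) (fun s => (him s).2) 0 1
    simp only [Path.source, Path.target] at h2
    rw [code_succ, code_succ, h1]
    congr 1
    simp [h2]

/-- The sign of the imaginary part of a preimage. -/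
lemma im_sign {u : ℂ} (h : (u ^ 2 + (c : ℂ)).im ≠ 0) :
    decide (u.im < 0) = xor (decide ((u ^ 2 + (c : ℂ)).im < 0)) (decide (u.re < 0)) := by
  rw [sq_im] at *
  have h1 : u.re ≠ 0 := by rintro h2; apply h; rw [h2]; ring
  have h2 : u.im ≠ 0 := by rintro h2; apply h; rw [h2]; ring
  rcases lt_or_gt_of_ne h1 with h3 | h3 <;> rcases lt_or_gt_of_ne h2 with h4 | h4
  · have h5 : ¬ (2 * u.re * u.im < 0) := not_lt.2 (by nlinarith)
    simp [h3, h4, h5]
  · have h5 : 2 * u.re * u.im < 0 := by nlinarith
    simp [h3, not_lt.2 h4.le, h5]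
  · have h5 : 2 * u.re * u.im < 0 := by nlinarith
    simp [h4, not_lt.2 h3.le, h5]
  · have h5 : ¬ (2 * u.re * u.im < 0) := not_lt.2 (by nlinarith)
    simp only [h5, not_lt.2 h3.le, not_lt.2 h4.le]
    simp

/-- Paths that meet the real line at most in the point `r`. -/
lemma code_cross {P : Finset ℝ} (hP : RP c P) (n : ℕ) {a b : ℂ} (γ : Path a b) (r : ℝ)
    (hrP : r ∉ P) (hr : ∀ s, (γ s).im = 0 → γ s = r) (ha : a.im ≠ 0) (hb : b.im ≠ 0) {x y : ℂ} (h : Tr (qf c) n γ x y) :
    code (qf c) n y = if decide (a.im < 0) = decide (b.im < 0) then code (qf c) n x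
      else E c r (code (qf c) n x) := by
  induction n generalizing a b r with
  | zero => simp [code_zero, E_nil]
  | succ n ih =>
    obtain ⟨Γ, hΓ⟩ := h
    let u : Path (it (qf c) n x) (it (qf c) n y) := Γ.map (continuous_it (qf c) n)
    have hu : ∀ s, (u s) ^ 2 + (c : ℂ) = γ s := by
      intro s
      rw [← hΓ s, it_succ, qf_eval]
      rfl
    have hTr : Tr (qf c) n u x y := ⟨Γ, fun s => rfl⟩
    have hu0 : (it (qf c) n x) ^ 2 + (c : ℂ) = a := by
      have := hu 0
      rwa [u.source, γ.source] at this
    have hu1 : (it (qf c) n y) ^ 2 + (c : ℂ) = b := by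
      have := hu 1
      rwa [u.target, γ.target] at this
    have hs0 := im_sign (c := c) (u := it (qf c) n x) (by rw [hu0]; exact ha)
    have hs1 := im_sign (c := c) (u := it (qf c) n y) (by rw [hu1]; exact hb)
    rw [hu0] at hs0
    rw [hu1] at hs1
    have hrc0 : r ≠ c := fun h => hrP (h ▸ hP.hc)
    by_cases hlt : r < c
    · -- the lift does not meet the real line
      have him : ∀ s, (u s).im ≠ 0 := by
        intro s h1
        have h2 : (γ s).im = 0 := by rw [← hu s, sq_im, h1]; ring
        have h3 := hr s h2
        have h4 : (γ s).re = r := by rw [h3]; simp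
        rw [← hu s, sq_re, h1] at h4
        nlinarith [sq_nonneg (u s).re]
      have h1 := code_nonreal n u him hTr
      have h2 := sign_const (fun s => (u s).im) (by fun_prop) him 0 1
      simp only [Path.source, Path.target] at h2
      have h3 : decide ((it (qf c) n x).im < 0) = decide ((it (qf c) n y).im < 0) := by
        simp [h2]
      rw [hs0, hs1] at h3
      rw [code_succ, code_succ, h1, E_cons, if_pos hlt]
      by_cases h4 : decide (a.im < 0) = decide (b.im < 0)
      · rw [if_pos h4]
        rw [h4] at h3
        congr 1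
        have := Bool.xor_right_inj.1 h3
        exact this.symm
      · rw [if_neg h4]
        congr 1
        revert h3 h4
        generalize decide (a.im < 0) = p1
        generalize decide (b.im < 0) = p2
        generalize decide ((it (qf c) n x).re < 0) = p3
        generalize decide ((it (qf c) n y).re < 0) = p4
        revert p1 p2 p3 p4
        decide
    · have hgt : c < r := lt_of_le_of_ne (not_lt.1 hlt) (Ne.symm hrc0)
      have hre : ∀ s, (u s).re ≠ 0 := by
        intro s h1
        have h2 : (γ s).im = 0 := by rw [← hu s, sq_im, h1]; ring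
        have h3 := hr s h2
        have h4 : (γ s).re = r := by rw [h3]; simp
        rw [← hu s, sq_re, h1] at h4
        nlinarith [sq_nonneg (u s).im]
      have hsg := fun s => sign_const (fun s => (u s).re) (by fun_prop) hre s 0
      simp only [Path.source] at hsg
      have hsg1 := hsg 1
      rw [u.target] at hsg1
      set sg : Bool := decide ((it (qf c) n x).re < 0) with hsgd
      have hr' : ∀ s, (u s).im = 0 → u s = (rt c r sg : ℝ) := by
        intro s h1
        have h2 : (γ s).im = 0 := by rw [← hu s, sq_im, h1]; ring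
        have h3 := hr s h2
        have h4 : (γ s).re = r := by rw [h3]; simp
        rw [← hu s, sq_re, h1] at h4
        have h5 : (u s).re ^ 2 + c = r := by linarith
        have h6 := rt_of_sq (c := c) (hre s)
        rw [h5] at h6
        have h7 : decide ((u s).re < 0) = sg := by
          rw [hsgd]; simp [hsg s]
        rw [h7] at h6
        apply Complex.ext
        · rw [Complex.ofReal_re, h6]
        · rw [Complex.ofReal_im, h1]
      have ha' : (it (qf c) n x).im ≠ 0 := by
        intro h1; apply ha; rw [← hu0, sq_im, h1]; ring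
      have hb' : (it (qf c) n y).im ≠ 0 := by
        intro h1; apply hb; rw [← hu1, sq_im, h1]; ring
      have h1 := ih u (rt c r sg) (rt_notin hP hrP sg) hr' ha' hb' hTr
      have h2 : decide ((it (qf c) n y).re < 0) = sg := by rw [hsgd]; simp [hsg1]
      have h3 : (decide ((it (qf c) n x).im < 0) = decide ((it (qf c) n y).im < 0)) ↔
          (decide (a.im < 0) = decide (b.im < 0)) := by
        rw [hs0, hs1, h2]
        exact Bool.xor_left_inj
      rw [code_succ, code_succ, h1, E_cons, if_neg hlt, h2]
      by_cases h4 : decide (a.im < 0) = decide (b.im < 0)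
      · rw [if_pos h4, if_pos (h3.2 h4)]
      · rw [if_neg h4, if_neg (fun h5 => h4 (h3.1 h5))]

end RealB
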