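import Pool.Agent.Work.MP_e3f5d9_al_helper91.RealA

/-!
# The action of loops on the codes
-/

set_option autoImplicit false

open Polynomial unitInterval PCF Topology

namespace RealB

variable {c : ℝ} {P : Finset ℝ}

/-! ### The codes are bijective -/

lemma code_inj (n : ℕ) : ∀ {t : ℂ}, t.im ≠ 0 → ∀ {z z' : ℂ}, it (qf c) n z = t →
    it (qf c) n z' = t → code (qf c) n z = code (qf c) n z' → z = z' := by
  induction n with
  | zero =>
    intro t _ z z' h h' _
    rw [it_zero] at h h'
    rw [h, h']
  | succ n ih =>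
    intro t ht z z' h h' hc
    rw [code_succ, code_succ] at hc
    have h1 := (List.cons.inj hc).1
    have h2 := (List.cons.inj hc).2
    rw [it_succ, qf_eval] at h h'
    have h3 : (it (qf c) n z) ^ 2 = (it (qf c) n z') ^ 2 := by
      have : (it (qf c) n z) ^ 2 + (c : ℂ) = (it (qf c) n z') ^ 2 + c := by rw [h, h']
      exact add_right_cancel this
    have him : (it (qf c) n z).im ≠ 0 := by
      intro h4; apply ht; rw [← h, sq_im, h4]; ring
    have hre : (it (qf c) n z).re ≠ 0 := by
      intro h4; apply ht; rw [← h, sq_im, h4]; ring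
    have h5 : it (qf c) n z = it (qf c) n z' := by
      rcases sq_eq_sq_iff_eq_or_eq_neg.1 h3 with h4 | h4
      · exact h4
      · exfalso
        have h6 : ((it (qf c) n z).re < 0) ↔ ((it (qf c) n z').re < 0) := by simpa using h1
        have h7 : (it (qf c) n z).re = -(it (qf c) n z').re := by rw [h4]; simp
        rcases lt_or_gt_of_ne hre with h8 | h8
        · have := h6.1 h8; linarith
        · have h9 : (it (qf c) n z').re < 0 := by linarith
          have := h6.2 h9; linarith
    exact ih him rfl h5.symm h2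

lemma exists_root (t : ℂ) (ht : t.im ≠ 0) (s : Bool) :
    ∃ u : ℂ, u ^ 2 + (c : ℂ) = t ∧ u.im ≠ 0 ∧ decide (u.re < 0) = s := by
  obtain ⟨u, hu⟩ := IsAlgClosed.exists_pow_nat_eq (t - c) (n := 2) (by norm_num)
  have h1 : u ^ 2 + (c : ℂ) = t := by rw [hu]; ring
  have him : u.im ≠ 0 := by
    intro h4; apply ht; rw [← h1, sq_im, h4]; ring
  have hre : u.re ≠ 0 := by
    intro h4; apply ht; rw [← h1, sq_im, h4]; ring
  by_cases h2 : decide (u.re < 0) = s
  · exact ⟨u, h1, him, h2⟩
  · refine ⟨-u, ?_, ?_, ?_⟩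
    · rw [neg_sq, h1]
    · simpa using him
    · have h3 : decide ((-u).re < 0) = !(decide (u.re < 0)) := by
        rw [Complex.neg_re]
        rcases lt_or_gt_of_ne hre with h4 | h4
        · have : ¬ (-u.re < 0) := by linarith
          simp [h4, this]
        · have h5 : (-u.re < 0) := by linarith
          have h6 : ¬ (u.re < 0) := by linarith
          simp only [h5, h6, decide_true, decide_false, Bool.not_false]
      rw [h3]
      cases s <;> simp_all

lemma code_surj (w : List Bool) : ∀ {t : ℂ}, t.im ≠ 0 →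
    ∃ z, it (qf c) w.length z = t ∧ code (qf c) w.length z = w := by
  induction w with
  | nil => intro t _; exact ⟨t, rfl, rfl⟩
  | cons s w ih =>
    intro t ht
    obtain ⟨u, h1, h2, h3⟩ := exists_root (c := c) t ht s
    obtain ⟨z, h4, h5⟩ := ih h2
    refine ⟨z, ?_, ?_⟩
    · rw [List.length_cons, it_succ, h4, qf_eval, h1]
    · rw [List.length_cons, code_succ, h5, h4, h3]

/-! ### Segments -/

/-- The straight path. -/
noncomputable def seg (a b : ℂ) : Path a b where
  toFun s := (1 - ((s : ℝ) : ℂ)) * a + ((s : ℝ) : ℂ) * b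
  continuous_toFun := by fun_prop
  source' := by simp
  target' := by simp

lemma seg_apply (a b : ℂ) (s : I) : seg a b s = (1 - ((s : ℝ) : ℂ)) * a + ((s : ℝ) : ℂ) * b := rfl

lemma seg_im (a b : ℂ) (s : I) : (seg a b s).im = (1 - (s : ℝ)) * a.im + (s : ℝ) * b.im := by
  rw [seg_apply]; simp

lemma seg_re (a b : ℂ) (s : I) : (seg a b s).re = (1 - (s : ℝ)) * a.re + (s : ℝ) * b.re := by
  rw [seg_apply]; simp

lemma seg_mem {a b : ℂ} {U : Set ℂ} (hU : Convex ℝ U) (ha : a ∈ U) (hb : b ∈ U) (s : I) :
    seg a b s ∈ U := by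
  have h3 := hU ha hb (sub_nonneg.2 s.2.2) s.2.1 (by ring)
  have h4 : (1 - (s : ℝ)) • a + (s : ℝ) • b = seg a b s := by
    rw [seg_apply]; simp [Complex.real_smul]
  rwa [h4] at h3

/-- The set of the complex numbers in `P`. -/
def PC (P : Finset ℝ) : Set ℂ := {z | ∃ x ∈ P, z = (x : ℝ)}

lemma ofReal_mem_PC {x : ℝ} : (x : ℂ) ∈ PC P ↔ x ∈ P := by
  constructor
  · rintro ⟨y, hy, h⟩
    have : x = y := by exact_mod_cast h
    rwa [this]
  · intro h; exact ⟨x, h, rfl⟩

lemma im_of_mem {z : ℂ} (h : z ∈ PC P) : z.im = 0 := by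
  obtain ⟨x, _, rfl⟩ := h
  simp

/-- Side of a point. -/
noncomputable def sd (z : ℂ) : Bool := open Classical in decide (z.im < 0)

/-- A straight segment between non-real points. -/
lemma seg_code (hP : RP c P) {a b : ℂ} (ha : a.im ≠ 0) (hb : b.im ≠ 0)
    (hav : ∀ s, seg a b s ∉ PC P) (r₀ : ℝ) (hr₀ : r₀ ∉ P) :
    ∃ r : ℝ, r ∉ P ∧ ∀ n x y, Tr (qf c) n (seg a b) x y →
      code (qf c) n y = if sd a = sd b then code (qf c) n x else E c r (code (qf c) n x) := by
  by_cases h : sd a = sd b
  · refine ⟨r₀, hr₀, fun n x y hT => ?_⟩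
    rw [if_pos h]
    apply code_nonreal n _ _ hT
    intro s
    rw [seg_im]
    have h1 : a.im < 0 ↔ b.im < 0 := by simpa [sd] using h
    have h2 := s.2.1
    have h3 := s.2.2
    rcases lt_or_gt_of_ne ha with h4 | h4
    · have h5 := h1.1 h4
      intro h6
      rcases eq_or_lt_of_le h2 with h7 | h7
      · rw [← h7] at h6; linarith
      · nlinarith [mul_neg_of_pos_of_neg h7 h5]
    · have h5 : 0 < b.im := lt_of_le_of_ne (by
        by_contra h6
        push Not at h6
        linarith [h1.2 h6]) (Ne.symm hb)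
      intro h6
      rcases eq_or_lt_of_le h2 with h7 | h7
      · rw [← h7] at h6; linarith
      · nlinarith [mul_pos h7 h5]
  · -- the crossing point
    have hne : a.im - b.im ≠ 0 := by
      intro h1
      apply h
      have : a.im = b.im := by linarith
      simp [sd, this]
    have hopp : (a.im < 0 ∧ 0 < b.im) ∨ (0 < a.im ∧ b.im < 0) := by
      have h1 : ¬ (a.im < 0 ↔ b.im < 0) := by simpa [sd] using h
      rcases lt_or_gt_of_ne ha with h4 | h4 <;> rcases lt_or_gt_of_ne hb with h5 | h5
      · exact absurd ⟨fun _ => h5, fun _ => h4⟩ h1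
      · exact Or.inl ⟨h4, h5⟩
      · exact Or.inr ⟨h4, h5⟩
      · exact absurd ⟨fun h6 => absurd h4 (by linarith), fun h6 => absurd h5 (by linarith)⟩ h1
    have hs0 : a.im / (a.im - b.im) ∈ Set.Icc (0 : ℝ) 1 := by
      rcases hopp with ⟨h1, h2⟩ | ⟨h1, h2⟩
      · constructor
        · exact div_nonneg_of_nonpos h1.le (by linarith)
        · rw [div_le_one_of_neg (by linarith)]; linarith
      · constructor
        · exact div_nonneg h1.le (by linarith)
        · rw [div_le_one (by linarith)]; linarith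
    set s₀ : I := ⟨a.im / (a.im - b.im), hs0⟩ with hs₀
    have him0 : (seg a b s₀).im = 0 := by
      rw [seg_im]
      simp only [hs₀]
      field_simp
      ring
    refine ⟨(seg a b s₀).re, ?_, fun n x y hT => ?_⟩
    · intro h1
      apply hav s₀
      refine ⟨_, h1, ?_⟩
      apply Complex.ext
      · simp
      · rw [him0]; simp
    · have h1 := code_cross hP n (seg a b) (seg a b s₀).re (by
        intro h1
        apply hav s₀
        refine ⟨_, h1, ?_⟩
        apply Complex.ext
        · simp
        · rw [him0]; simp) (by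
        intro s hs
        have h2 : s = s₀ := by
          apply Subtype.ext
          rw [seg_im] at hs
          simp only [hs₀]
          rw [eq_div_iff hne]
          linarith
        rw [h2]
        apply Complex.ext
        · simp
        · rw [him0]; simp) ha hb hT
      rw [h1]
      simp [sd]

/-! ### Neighbourhoods -/

/-- Every point outside `P` has a convex neighbourhood outside `P` that is stable under the
shift. -/
lemma exists_nbhd (P : Finset ℝ) (q : ℂ) (hq : q ∉ PC P) : ∃ U : Set ℂ, IsOpen U ∧ Convex ℝ U ∧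
    q ∈ U ∧ Disjoint U (PC P) ∧ ∀ z ∈ U, 0 ≤ z.im → z + Complex.I ∈ U := by
  rcases lt_trichotomy q.im 0 with h | h | h
  · refine ⟨{z | z.im < 0}, isOpen_lt Complex.continuous_im continuous_const, ?_, h, ?_, ?_⟩
    · exact convex_halfSpace_im_lt 0
    · rw [Set.disjoint_left]
      intro z hz hz'
      have := im_of_mem hz'
      simp only [Set.mem_setOf_eq] at hz
      linarith
    · intro z hz hz'
      simp only [Set.mem_setOf_eq] at hz
      linarith
  · -- a vertical strip
    have h1 : q.re ∉ P := by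
      intro h2
      apply hq
      refine ⟨_, h2, ?_⟩
      apply Complex.ext
      · simp
      · simp [h]
    have h2 : (P : Set ℝ)ᶜ ∈ 𝓝 q.re := P.finite_toSet.isClosed.isOpen_compl.mem_nhds h1
    obtain ⟨ε, hε, hB⟩ := Metric.mem_nhds_iff.1 h2
    refine ⟨Complex.re ⁻¹' Metric.ball q.re ε, Metric.isOpen_ball.preimage Complex.continuous_re,
      ?_, ?_, ?_, ?_⟩
    · exact (convex_ball q.re ε).linear_preimage Complex.reLm
    · exact Metric.mem_ball_self hε
    · rw [Set.disjoint_left]
      rintro z hz ⟨x, hx, rfl⟩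
      have := hB hz
      simp only [Complex.ofReal_re] at this
      exact this hx
    · intro z hz _
      simpa using hz
  · refine ⟨{z | 0 < z.im}, isOpen_lt continuous_const Complex.continuous_im, ?_, h, ?_, ?_⟩
    · exact convex_halfSpace_im_gt 0
    · rw [Set.disjoint_left]
      intro z hz hz'
      have := im_of_mem hz'
      simp only [Set.mem_setOf_eq] at hz
      linarith
    · intro z hz hz'
      simp only [Set.mem_setOf_eq, Complex.add_im, Complex.I_im] at *
      linarith

/-- The shift. -/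
noncomputable def shf (z : ℂ) : ℂ := open Classical in if z.im < 0 then z else z + Complex.I

lemma shf_im (z : ℂ) : (shf z).im ≠ 0 := by
  unfold shf
  split_ifs with h
  · exact h.ne
  · simp only [Complex.add_im, Complex.I_im]
    linarith

lemma sd_shf (z : ℂ) : sd (shf z) = sd z := by
  unfold shf
  split_ifs with h
  · rfl
  · have h1 : ¬ ((z + Complex.I).im < 0) := by
      simp only [Complex.add_im, Complex.I_im]
      linarith
    simp only [sd, h, h1]

lemma shf_mem {U : Set ℂ} (hU : ∀ z ∈ U, 0 ≤ z.im → z + Complex.I ∈ U) {z : ℂ} (hz : z ∈ U) :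
    shf z ∈ U := by
  unfold shf
  split_ifs with h
  · exact hz
  · exact hU z hz (not_lt.1 h)

/-- The shift segment avoids `P`. -/
lemma seg_shf_av {z : ℂ} (hz : z ∉ PC P) (s : I) : seg z (shf z) s ∉ PC P := by
  intro h
  have h1 := im_of_mem h
  rw [seg_im] at h1
  have h2 := s.2.1
  have h3 := s.2.2
  by_cases h4 : z.im < 0
  · have h5 : shf z = z := by unfold shf; rw [if_pos h4]
    rw [h5] at h1
    linarith
  · have h5 : shf z = z + Complex.I := by unfold shf; rw [if_neg h4]
    rw [h5] at h1
    simp only [Complex.add_im, Complex.I_im] at h1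
    push Not at h4
    have h6 : z.im + (s : ℝ) = 0 := by linarith
    have h7 : (s : ℝ) = 0 := by linarith
    have h8 : s = 0 := Subtype.ext h7
    rw [h8, Path.source] at h
    exact hz h

/-! ### The cosets -/

/-- The permutation `g` belongs to the right coset for a path from the side `h` to the
side `h'`. -/
def Good (c : ℝ) (P : Finset ℝ) (h h' : Bool) (g : Equiv.Perm (List Bool)) : Prop :=
  if h = h' then g ∈ GG c P else ∃ a, a ∉ P ∧ Ep c a * g ∈ GG c P

lemma Ep_sq (a : ℝ) : Ep c a * Ep c a = 1 := by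
  ext1 w
  exact E_invol w a

lemma Ep_mul_mem {a b : ℝ} (ha : a ∉ P) (hb : b ∉ P) : Ep c a * Ep c b ∈ GG c P :=
  Subgroup.subset_closure ⟨a, b, ha, hb, rfl⟩

lemma Ep_conj {a : ℝ} (ha : a ∉ P) {g : Equiv.Perm (List Bool)} (hg : g ∈ GG c P) :
    Ep c a * g * Ep c a ∈ GG c P := by
  refine Subgroup.closure_induction (p := fun g _ => Ep c a * g * Ep c a ∈ GG c P)
    ?_ ?_ ?_ ?_ hg
  · rintro g ⟨x, y, hx, hy, rfl⟩
    have : Ep c a * (Ep c x * Ep c y) * Ep c a = (Ep c a * Ep c x) * (Ep c y * Ep c a) := by group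
    rw [this]
    exact Subgroup.mul_mem _ (Ep_mul_mem ha hx) (Ep_mul_mem hy ha)
  · rw [mul_one, Ep_sq]
    exact Subgroup.one_mem _
  · intro g h _ _ h1 h2
    have : Ep c a * (g * h) * Ep c a = (Ep c a * g * Ep c a) * (Ep c a * h * Ep c a) := by
      calc Ep c a * (g * h) * Ep c a = Ep c a * g * 1 * h * Ep c a := by group
        _ = Ep c a * g * (Ep c a * Ep c a) * h * Ep c a := by rw [Ep_sq]
        _ = _ := by group
    rw [this]
    exact Subgroup.mul_mem _ h1 h2
  · intro g _ h1
    have h2 := Subgroup.inv_mem _ h1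
    have h3 : (Ep c a)⁻¹ = Ep c a := inv_eq_of_mul_eq_one_left (Ep_sq a)
    rw [mul_inv_rev, mul_inv_rev, h3, ← mul_assoc] at h2
    exact h2

lemma Good.comp {h h' h'' : Bool} {g k : Equiv.Perm (List Bool)} (h1 : Good c P h h' g)
    (h2 : Good c P h' h'' k) : Good c P h h'' (k * g) := by
  unfold Good at *
  by_cases e1 : h = h'
  · rw [if_pos e1] at h1
    subst e1
    by_cases e2 : h = h''
    · rw [if_pos e2] at *
      exact Subgroup.mul_mem _ h2 h1
    · rw [if_neg e2] at *
      obtain ⟨a, ha, h3⟩ := h2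
      exact ⟨a, ha, by rw [← mul_assoc]; exact Subgroup.mul_mem _ h3 h1⟩
  · rw [if_neg e1] at h1
    obtain ⟨a, ha, h3⟩ := h1
    by_cases e2 : h' = h''
    · rw [if_pos e2] at h2
      subst e2
      rw [if_neg e1]
      refine ⟨a, ha, ?_⟩
      have : Ep c a * (k * g) = (Ep c a * k * Ep c a) * (Ep c a * g) := by
        calc Ep c a * (k * g) = Ep c a * k * 1 * g := by group
          _ = Ep c a * k * (Ep c a * Ep c a) * g := by rw [Ep_sq]
          _ = _ := by group
      rw [this]
      exact Subgroup.mul_mem _ (Ep_conj ha h2) h3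
    · rw [if_neg e2] at h2
      obtain ⟨b, hb, h4⟩ := h2
      have e3 : h = h'' := by
        cases h <;> cases h' <;> cases h'' <;> simp_all
      rw [if_pos e3]
      have : k * g = (Ep c b * (Ep c b * k) * Ep c b) * (Ep c b * Ep c a) * (Ep c a * g) := by
        calc k * g = 1 * k * 1 * 1 * g := by group
          _ = (Ep c b * Ep c b) * k * (Ep c b * Ep c b) * (Ep c a * Ep c a) * g := by
              rw [Ep_sq, Ep_sq]
          _ = _ := by group
      rw [this]
      exact Subgroup.mul_mem _ (Subgroup.mul_mem _ (Ep_conj hb h4) (Ep_mul_mem hb ha)) h3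

lemma Good.inv {h h' : Bool} {g : Equiv.Perm (List Bool)} (h1 : Good c P h h' g) :
    Good c P h' h g⁻¹ := by
  unfold Good at *
  by_cases e1 : h = h'
  · rw [if_pos e1] at h1
    rw [if_pos e1.symm]
    exact Subgroup.inv_mem _ h1
  · rw [if_neg e1] at h1
    rw [if_neg (fun e => e1 e.symm)]
    obtain ⟨a, ha, h3⟩ := h1
    refine ⟨a, ha, ?_⟩
    have h4 := Ep_conj ha (Subgroup.inv_mem _ h3)
    have h5 : (Ep c a)⁻¹ = Ep c a := inv_eq_of_mul_eq_one_left (Ep_sq a)
    rw [mul_inv_rev, h5] at h4
    have h6 : Ep c a * (g⁻¹ * Ep c a) * Ep c a = Ep c a * g⁻¹ := by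
      calc Ep c a * (g⁻¹ * Ep c a) * Ep c a = Ep c a * g⁻¹ * (Ep c a * Ep c a) := by group
        _ = _ := by rw [Ep_sq, mul_one]
    rwa [h6] at h4

end RealB
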