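import Pool.Agent.Work.MP_e3f5d9_al_helper91.RealC

/-!
# The action of loops on the codes, second part
-/

set_option autoImplicit false

open Polynomial unitInterval PCF Topology

namespace RealB

variable {c : ℝ} {P : Finset ℝ}

/-- Convex combination in the unit interval. -/
def cI (s s' r : I) : I :=
  ⟨(1 - (r : ℝ)) * s + (r : ℝ) * s', by
    have h1 := s.2.1; have h2 := s'.2.1; have h3 := r.2.1; have h4 := r.2.2
    have h5 := s.2.2; have h6 := s'.2.2
    constructor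
    · have := mul_nonneg (sub_nonneg.2 h4) h1
      have := mul_nonneg h3 h2
      linarith
    · nlinarith [mul_le_mul_of_nonneg_left h5 (sub_nonneg.2 h4),
        mul_le_mul_of_nonneg_left h6 h3]⟩

/-- Subpaths. -/
def subp {X : Type} [TopologicalSpace X] (γ : C(I, X)) (s s' : I) : Path (γ s) (γ s') where
  toFun r := γ (cI s s' r)
  continuous_toFun := by
    apply γ.continuous.comp
    unfold cI
    fun_prop
  source' := by congr 1; apply Subtype.ext; simp [cI]
  target' := by congr 1; apply Subtype.ext; simp [cI]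

lemma subp_apply {X : Type} [TopologicalSpace X] (γ : C(I, X)) (s s' r : I) :
    subp γ s s' r = γ (cI s s' r) := rfl

/-- The relation of two parameters of a path. -/
def RR (c : ℝ) (P : Finset ℝ) (γ : C(I, ℂ)) (s s' : I) : Prop :=
  ∃ g, Good c P (sd (γ s)) (sd (γ s')) g ∧ ∀ (n : ℕ) (Γ : C(I, ℂ)),
    (∀ r, it (qf c) n (Γ r) = γ r) → ∀ x x', Tr (qf c) n (seg (γ s) (shf (γ s))) (Γ s) x →
      Tr (qf c) n (seg (γ s') (shf (γ s'))) (Γ s') x' →
        code (qf c) n x' = g (code (qf c) n x)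

lemma RR.symm {γ : C(I, ℂ)} {s s' : I} (h : RR c P γ s s') : RR c P γ s' s := by
  obtain ⟨g, h1, h2⟩ := h
  refine ⟨g⁻¹, h1.inv, fun n Γ hΓ x x' hx hx' => ?_⟩
  rw [h2 n Γ hΓ x' x hx' hx]
  simp

lemma RR.trans (hA : Adm (qf c) (PC P)) {γ : C(I, ℂ)} (hγ : ∀ r, γ r ∉ PC P) {s s' s'' : I}
    (h : RR c P γ s s') (h' : RR c P γ s' s'') : RR c P γ s s'' := by
  obtain ⟨g, h1, h2⟩ := h
  obtain ⟨k, h3, h4⟩ := h'
  refine ⟨k * g, h1.comp h3, fun n Γ hΓ x x'' hx hx'' => ?_⟩
  obtain ⟨x', hx'⟩ := tr_exists hA n (seg (γ s') (shf (γ s'))) (seg_shf_av (hγ s')) (Γ s') (hΓ s')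
  rw [h4 n Γ hΓ x' x'' hx' hx'', h2 n Γ hΓ x x' hx hx']
  rfl

lemma RR.local (hP : RP c P) (hA : Adm (qf c) (PC P)) {γ : C(I, ℂ)} (hγ : ∀ r, γ r ∉ PC P)
    (r₀ : ℝ) (hr₀ : r₀ ∉ P) (s : I) : ∀ᶠ s' in 𝓝 s, RR c P γ s s' := by
  obtain ⟨U, hUo, hUc, hqU, hUP, hUs⟩ := exists_nbhd P (γ s) (hγ s)
  have h1 : γ ⁻¹' U ∈ 𝓝 s := (hUo.preimage γ.continuous).mem_nhds hqU
  obtain ⟨ε, hε, hB⟩ := Metric.mem_nhds_iff.1 h1
  refine Filter.mem_of_superset (Metric.ball_mem_nhds s hε) ?_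
  intro s' hs'
  have hsub : ∀ r, subp γ s s' r ∈ U := by
    intro r
    apply hB
    rw [Metric.mem_ball] at *
    have e1 : dist (cI s s' r) s = (r : ℝ) * dist s' s := by
      rw [Subtype.dist_eq, Subtype.dist_eq, Real.dist_eq, Real.dist_eq]
      have : ((cI s s' r : I) : ℝ) - s = (r : ℝ) * ((s' : ℝ) - s) := by
        simp only [cI]; ring
      rw [this, abs_mul, abs_of_nonneg r.2.1]
    rw [e1]
    calc (r : ℝ) * dist s' s ≤ 1 * dist s' s :=
          mul_le_mul_of_nonneg_right r.2.2 dist_nonneg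
      _ < ε := by rw [one_mul]; exact hs'
  have hs'U : γ s' ∈ U := by
    have := hsub 1
    rwa [Path.target] at this
  have ha := shf_im (γ s)
  have hb := shf_im (γ s')
  have haU := shf_mem hUs hqU
  have hbU := shf_mem hUs hs'U
  obtain ⟨r, hr, hcode⟩ := seg_code hP ha hb (fun q hq =>
    Set.disjoint_left.1 hUP (seg_mem hUc haU hbU q) hq) r₀ hr₀
  -- the composite path
  let δ : Path (shf (γ s)) (shf (γ s')) :=
    ((seg (γ s) (shf (γ s))).symm.trans (subp γ s s')).trans (seg (γ s') (shf (γ s')))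
  have hδ : ∀ q, δ q ∈ U := by
    intro q
    simp only [δ, Path.trans_apply, Path.symm_apply]
    split_ifs
    · exact seg_mem hUc hqU haU _
    · exact hsub _
    · exact seg_mem hUc hs'U hbU _
  have key : ∀ (n : ℕ) (Γ : C(I, ℂ)), (∀ r, it (qf c) n (Γ r) = γ r) →
      ∀ x x', Tr (qf c) n (seg (γ s) (shf (γ s))) (Γ s) x →
      Tr (qf c) n (seg (γ s') (shf (γ s'))) (Γ s') x' →
        Tr (qf c) n (seg (shf (γ s)) (shf (γ s'))) x x' := by
    intro n Γ hΓ x x' hx hx'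
    have h2 : Tr (qf c) n δ x x' := by
      refine tr_trans (tr_trans (tr_symm hx) ?_) hx'
      exact ⟨subp Γ s s', fun q => hΓ _⟩
    exact tr_convex hA n δ _ U hUc hUP hδ (fun q => seg_mem hUc haU hbU q) h2
  rw [sd_shf, sd_shf] at hcode
  by_cases e : sd (γ s) = sd (γ s')
  · refine ⟨1, ?_, fun n Γ hΓ x x' hx hx' => ?_⟩
    · unfold Good; rw [if_pos e]; exact Subgroup.one_mem _
    · rw [hcode n x x' (key n Γ hΓ x x' hx hx'), if_pos e]
      rfl
  · refine ⟨Ep c r, ?_, fun n Γ hΓ x x' hx hx' => ?_⟩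
    · unfold Good; rw [if_neg e]
      exact ⟨r, hr, by rw [Ep_sq]; exact Subgroup.one_mem _⟩
    · rw [hcode n x x' (key n Γ hΓ x x' hx hx'), if_neg e]
      rfl

/-- Paths between non-real points act on the codes by permutations of the right coset. -/
lemma path_code (hP : RP c P) (hA : Adm (qf c) (PC P)) {a b : ℂ} (ha : 0 < a.im) (hb : 0 < b.im)
    (γ : Path a b) (hγ : Av (PC P) γ) :
    ∃ g ∈ GG c P, ∀ n x y, Tr (qf c) n γ x y → code (qf c) n y = g (code (qf c) n x) := by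
  obtain ⟨r₀, hr₀⟩ : ∃ r₀ : ℝ, r₀ ∉ P := P.finite_toSet.infinite_compl.nonempty
  have h01 : RR c P γ.toContinuousMap 0 1 := by
    refine PreconnectedSpace.induction₂' (RR c P γ.toContinuousMap) (fun s => ?_) ?_ 0 1
    · filter_upwards [RR.local hP hA hγ r₀ hr₀ s] with s' h
      exact ⟨h, h.symm⟩
    · exact ⟨fun _ _ _ h h' => RR.trans hA hγ h h'⟩
  obtain ⟨g, h1, h2⟩ := h01
  have e0 : γ.toContinuousMap 0 = a := γ.source
  have e1 : γ.toContinuousMap 1 = b := γ.target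
  rw [e0, e1] at h1
  have hsa : sd a = false := by simp [sd, ha.le]
  have hsb : sd b = false := by simp [sd, hb.le]
  unfold Good at h1
  rw [hsa, hsb, if_pos rfl] at h1
  refine ⟨g, h1, fun n x y hT => ?_⟩
  obtain ⟨Γ, hΓ⟩ := hT
  have hup : ∀ z : ℂ, 0 < z.im → ∀ s, (seg z (shf z) s).im ≠ 0 := by
    intro z hz s
    rw [seg_im]
    have h5 : shf z = z + Complex.I := by unfold shf; rw [if_neg (not_lt.2 hz.le)]
    rw [h5]
    simp only [Complex.add_im, Complex.I_im]
    have := s.2.1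
    nlinarith
  have hxa : it (qf c) n x = a := by
    have := hΓ 0
    rwa [Γ.source, γ.source] at this
  have hyb : it (qf c) n y = b := by
    have := hΓ 1
    rwa [Γ.target, γ.target] at this
  have hna : a ∉ PC P := fun h => by have := im_of_mem h; linarith
  have hnb : b ∉ PC P := fun h => by have := im_of_mem h; linarith
  obtain ⟨x', hx'⟩ := tr_exists hA n (seg a (shf a)) (seg_shf_av hna) x hxa
  obtain ⟨y', hy'⟩ := tr_exists hA n (seg b (shf b)) (seg_shf_av hnb) y hyb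
  have h3 : code (qf c) n y' = g (code (qf c) n x') := by
    apply h2 n Γ.toContinuousMap hΓ x' y'
    · have e2 : Γ.toContinuousMap 0 = x := Γ.source
      rw [e0, e2]
      exact hx'
    · have e2 : Γ.toContinuousMap 1 = y := Γ.target
      rw [e1, e2]
      exact hy'
  rw [code_nonreal n _ (hup a ha) hx', code_nonreal n _ (hup b hb) hy'] at h3
  exact h3

/-- A straight segment crossing the real line at `r`. -/
lemma vert_code (hP : RP c P) {r : ℝ} (hr : r ∉ P) {a b : ℂ} (hare : a.re = r) (hbre : b.re = r)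
    (him : (a.im < 0 ∧ 0 < b.im) ∨ (0 < a.im ∧ b.im < 0)) : Av (PC P) (seg a b) ∧
      ∀ n x y, Tr (qf c) n (seg a b) x y → code (qf c) n y = E c r (code (qf c) n x) := by
  have hre : ∀ s, (seg a b s).re = r := by
    intro s; rw [seg_re, hare, hbre]; ring
  have hav : Av (PC P) (seg a b) := by
    rintro s ⟨x, hx, h⟩
    apply hr
    have := hre s
    rw [h, Complex.ofReal_re] at this
    rwa [← this]
  refine ⟨hav, fun n x y hT => ?_⟩
  have ha0 : a.im ≠ 0 := by rcases him with h | h <;> [exact h.1.ne; exact h.1.ne']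
  have hb0 : b.im ≠ 0 := by rcases him with h | h <;> [exact h.2.ne'; exact h.2.ne]
  have h1 := code_cross hP n (seg a b) r hr (by
    intro s hs
    apply Complex.ext
    · rw [hre, Complex.ofReal_re]
    · rw [hs, Complex.ofReal_im]) ha0 hb0 hT
  rw [h1, if_neg]
  rcases him with ⟨h2, h3⟩ | ⟨h2, h3⟩
  · simp [h2, h3.le]
  · simp [h3, h2.le]

/-- Loops that cross the real line at `b` and at `a`. -/
lemma loop_code (hP : RP c P) {t : ℂ} (ht : 0 < t.im) {a b : ℝ} (ha : a ∉ P) (hb : b ∉ P) :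
    ∃ γ : Path t t, Av (PC P) γ ∧ ∀ n x y, Tr (qf c) n γ x y →
      code (qf c) n y = E c a (E c b (code (qf c) n x)) := by
  obtain ⟨hδ1, h1⟩ := vert_code hP hb (a := (b : ℂ) + Complex.I) (b := (b : ℂ) + -Complex.I)
    (by simp) (by simp) (Or.inr ⟨by simp, by simp⟩)
  obtain ⟨hδ2, h2⟩ := vert_code hP ha (a := (a : ℂ) + -Complex.I) (b := (a : ℂ) + Complex.I)
    (by simp) (by simp) (Or.inl ⟨by simp, by simp⟩)
  have up : ∀ z w : ℂ, 0 < z.im → 0 < w.im → ∀ s, (seg z w s).im ≠ 0 := by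
    intro z w hz hw s
    rw [seg_im]
    have h3 := s.2.1
    have h4 := s.2.2
    rcases eq_or_lt_of_le h3 with h5 | h5
    · rw [← h5]; simp; exact hz.ne'
    · have := mul_nonneg (sub_nonneg.2 h4) hz.le
      have := mul_pos h5 hw
      linarith
  have dn : ∀ z w : ℂ, z.im < 0 → w.im < 0 → ∀ s, (seg z w s).im ≠ 0 := by
    intro z w hz hw s
    rw [seg_im]
    have h3 := s.2.1
    have h4 := s.2.2
    rcases eq_or_lt_of_le h3 with h5 | h5
    · rw [← h5]; simp; exact hz.ne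
    · have := mul_nonneg (sub_nonneg.2 h4) (neg_nonneg.2 hz.le)
      have := mul_pos h5 (neg_pos.2 hw)
      nlinarith
  have av : ∀ {z w : ℂ} (γ : Path z w), (∀ s, (γ s).im ≠ 0) → Av (PC P) γ :=
    fun γ h s hs => h s (im_of_mem hs)
  have u1 := up t ((b : ℂ) + Complex.I) ht (by simp)
  have u2 := dn ((b : ℂ) + -Complex.I) ((a : ℂ) + -Complex.I) (by simp) (by simp)
  have u3 := up ((a : ℂ) + Complex.I) t (by simp) ht
  refine ⟨(((seg t ((b : ℂ) + Complex.I)).trans
    (seg ((b : ℂ) + Complex.I) ((b : ℂ) + -Complex.I))).trans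
    (seg ((b : ℂ) + -Complex.I) ((a : ℂ) + -Complex.I))).trans
    ((seg ((a : ℂ) + -Complex.I) ((a : ℂ) + Complex.I)).trans
    (seg ((a : ℂ) + Complex.I) t)), ?_, ?_⟩
  · intro s
    simp only [Path.trans_apply]
    split_ifs
    · exact av _ u1 _
    · exact hδ1 _
    · exact av _ u2 _
    · exact hδ2 _
    · exact av _ u3 _
  · intro n x y hT
    obtain ⟨x3, hT1, hT2⟩ := tr_trans_iff.1 hT
    obtain ⟨x2, hT3, hT4⟩ := tr_trans_iff.1 hT1
    obtain ⟨x1, hT5, hT6⟩ := tr_trans_iff.1 hT3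
    obtain ⟨x4, hT7, hT8⟩ := tr_trans_iff.1 hT2
    rw [code_nonreal n _ u3 hT8, h2 n _ _ hT7, code_nonreal n _ u2 hT4, h1 n _ _ hT6,
      code_nonreal n _ u1 hT5]

end RealB
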