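import Pool.Agent.Work.MP_80ff4e_al_helper39.TR
import Pool.Agent.Work.MP_80ff4e_al_helper10.Acts
import Pool.Agent.Work.MP_e3f5d9_al_helper91.RealD

/-!
# Iterated monodromy groups of real quadratic polynomials and kneading automata
-/

set_option autoImplicit false

open Polynomial unitInterval PCF Topology

namespace RealB

variable {c : ℝ} {P : Finset ℝ}

lemma qf_deg (c : ℝ) : (qf c).natDegree = 2 := by
  unfold qf
  compute_degree!

lemma qf_crit (c : ℝ) (z : ℂ) : (qf c).derivative.eval z = 0 ↔ z = 0 := by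
  simp [qf]

/-- Main transfer: the iterated monodromy group is the group `GG`. -/
theorem img_GG (hP : RP c P) (hpc : postCrit (qf c) = PC P) (t : ℂ) (ht : t ∉ PC P) :
    Nonempty (IMG (qf c) t ≃* GG c P) := by
  have hfin : (postCrit (qf c)).Finite := by
    rw [hpc]
    have : PC P = (fun x : ℝ => (x : ℂ)) '' (P : Set ℝ) := by
      ext z
      constructor
      · rintro ⟨x, hx, rfl⟩; exact ⟨x, hx, rfl⟩
      · rintro ⟨x, hx, rfl⟩; exact ⟨x, hx, rfl⟩
    rw [this]
    exact P.finite_toSet.image _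
  have hA : Adm (qf c) (PC P) := by
    rw [← hpc]
    exact adm_postCrit _ (by rw [qf_deg]) hfin
  have hLA := loopAct stmt_TR (qf c) (PC P) hA t
  have hI : Complex.I ∉ PC P := fun h => by have := im_of_mem h; simp at this
  have hIim : (Complex.I).im ≠ 0 := by simp
  have hIpos : 0 < (Complex.I).im := by simp
  obtain ⟨η, hη⟩ := exists_av_path hA.fin ht hI
  -- transport to the base point `i`
  have hex : ∀ v : Vertex (qf c) t, ∃ w, Tr (qf c) v.1.1 η v.1.2 w := fun v =>
    tr_exists hA v.1.1 η hη v.1.2 v.2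
  choose W hW using hex
  have hWend : ∀ v, it (qf c) v.1.1 (W v) = Complex.I := fun v => (tr_ends (hW v)).2
  let e0 : Vertex (qf c) t → List Bool := fun v => code (qf c) v.1.1 (W v)
  have hbij : Function.Bijective e0 := by
    constructor
    · rintro v v' h
      have h1 : v.1.1 = v'.1.1 := by
        have := congrArg List.length h
        simpa [e0, code_length] using this
      have h2 : W v = W v' := by
        have h3 : code (qf c) v.1.1 (W v) = code (qf c) v.1.1 (W v') := by
          have : code (qf c) v.1.1 (W v') = code (qf c) v'.1.1 (W v') := by rw [h1]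
          rw [this]; exact h
        exact code_inj v.1.1 hIim (hWend v) (by rw [h1]; exact hWend v') h3
      have h3 := tr_symm (hW v)
      have h4 := tr_symm (hW v')
      rw [h2, h1] at h3
      exact Subtype.ext (Prod.ext h1 (tr_unique hA (γ := η.symm) (fun s => hη _) h3 h4))
    · intro u
      obtain ⟨w, h1, h2⟩ := code_surj (c := c) u hIim
      obtain ⟨z, hz⟩ := tr_exists hA u.length η.symm (fun s => hη _) w h1
      have h3 := (tr_ends hz).2
      refine ⟨⟨(u.length, z), h3⟩, ?_⟩
      have h4 := hW ⟨(u.length, z), h3⟩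
      have h5 := tr_symm hz
      rw [Path.symm_symm] at h5
      have h6 := tr_unique hA hη h4 h5
      show code (qf c) u.length (W ⟨(u.length, z), h3⟩) = u
      rw [h6, h2]
  let e : Vertex (qf c) t ≃ List Bool := Equiv.ofBijective e0 hbij
  have he : ∀ v, e v = code (qf c) v.1.1 (W v) := fun v => rfl
  -- the two inclusions
  have hmap : (IMG (qf c) t).map (e.permCongrHom).toMonoidHom = GG c P := by
    apply le_antisymm
    · rw [Subgroup.map_le_iff_le_comap, IMG, Subgroup.closure_le]
      rintro g ⟨γ, h0, h1, hγ, hact⟩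
      rw [hpc] at hγ
      have hact' := (actsAs_iff (qf c) ⟨γ, h0, h1⟩ g).1 hact
      set δ : Path t t := ⟨γ, h0, h1⟩ with hδ
      have hav : Av (PC P) ((η.symm.trans δ).trans η) := by
        intro s
        simp only [Path.trans_apply, Path.symm_apply]
        split_ifs
        · exact hη _
        · exact hγ _
        · exact hη _
      obtain ⟨k, hk, hcode⟩ := path_code hP hA hIpos hIpos _ hav
      have h2 : ∀ v, e (g v) = k (e v) := by
        intro v
        have h3 := hact' v
        have h4 : Tr (qf c) v.1.1 ((η.symm.trans δ).trans η) (W v) (W (g v)) := by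
          refine tr_trans (tr_trans (tr_symm (hW v)) h3.2) ?_
          have := hW (g v)
          rw [h3.1] at this
          exact this
        rw [he, he, h3.1]
        exact hcode _ _ _ h4
      have h3 : (e.permCongrHom).toMonoidHom g = k := by
        ext1 u
        show e (g (e.symm u)) = k u
        rw [h2]
        simp
      show (e.permCongrHom).toMonoidHom g ∈ GG c P
      rw [h3]
      exact hk
    · rw [GG, Subgroup.closure_le]
      rintro g ⟨a, b, ha, hb, rfl⟩
      obtain ⟨δ, hδ, hcode⟩ := loop_code hP hIpos ha hb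
      have hav : Av (PC P) ((η.trans δ).trans η.symm) := by
        intro s
        simp only [Path.trans_apply, Path.symm_apply]
        split_ifs
        · exact hη _
        · exact hδ _
        · exact hη _
      obtain ⟨g, hg⟩ := hLA.ex _ hav
      refine ⟨g, mem_IMG _ _ _ (by rw [hpc]; exact hav) g hg, ?_⟩
      have h2 : ∀ v, e (g v) = E c a (E c b (e v)) := by
        intro v
        obtain ⟨h3, h4⟩ := hg v
        obtain ⟨z, h5, h6⟩ := tr_trans_iff.1 h4
        obtain ⟨y, h7, h8⟩ := tr_trans_iff.1 h5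
        have h9 : y = W v := tr_unique hA hη h7 (hW v)
        have h10 : z = W (g v) := by
          have h11 := tr_symm h6
          rw [Path.symm_symm] at h11
          have h12 := hW (g v)
          rw [h3] at h12
          exact tr_unique hA hη h11 h12
        rw [he, he, h3, ← h10, ← h9]
        exact hcode _ _ _ h8
      ext1 u
      show e (g (e.symm u)) = E c a (E c b u)
      rw [h2]
      simp
  have hinj : Function.Injective (e.permCongrHom).toMonoidHom := (e.permCongrHom).injective
  exact ⟨((IMG (qf c) t).equivMapOfInjective _ hinj).trans (MulEquiv.subgroupCongr hmap)⟩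

/-! ### The postcritical set -/

/-- The real critical orbit. -/
noncomputable def orb (c : ℝ) (n : ℕ) : ℝ := (fun x => x ^ 2 + c)^[n] 0

lemma orb_succ (n : ℕ) : orb c (n + 1) = (orb c n) ^ 2 + c := by
  unfold orb
  rw [Function.iterate_succ_apply']

lemma it_orb (n : ℕ) : it (qf c) n 0 = (orb c n : ℝ) := by
  induction n with
  | zero => simp [it_zero, orb]
  | succ n ih =>
    rw [it_succ, ih, qf_eval, orb_succ]
    push_cast
    rfl

lemma mem_postCrit {z : ℂ} : z ∈ postCrit (qf c) ↔ ∃ n, 1 ≤ n ∧ z = (orb c n : ℝ) := by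
  constructor
  · rintro ⟨w, hw, n, hn, rfl⟩
    rw [qf_crit] at hw
    subst hw
    exact ⟨n, hn, it_orb n⟩
  · rintro ⟨n, hn, rfl⟩
    exact ⟨0, (qf_crit c 0).2 rfl, n, hn, it_orb n⟩

/-- The data of a real quadratic polynomial with finite postcritical set and strictly
preperiodic critical point. -/
theorem exists_RP (c : ℝ) (hfin : (postCrit (qf c)).Finite) (h0 : ∀ n, 1 ≤ n → orb c n ≠ 0) :
    ∃ P : Finset ℝ, RP c P ∧ postCrit (qf c) = PC P ∧ ∀ x, x ∈ P ↔ ∃ n, 1 ≤ n ∧ x = orb c n := by
  classical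
  have hfin' : {x : ℝ | ∃ n, 1 ≤ n ∧ x = orb c n}.Finite := by
    have : {x : ℝ | ∃ n, 1 ≤ n ∧ x = orb c n} = (fun x : ℝ => (x : ℂ)) ⁻¹' postCrit (qf c) := by
      ext x
      simp only [Set.mem_preimage, mem_postCrit]
      constructor
      · rintro ⟨n, hn, h⟩; exact ⟨n, hn, by rw [h]⟩
      · rintro ⟨n, hn, h⟩; exact ⟨n, hn, by exact_mod_cast h⟩
    rw [this]
    exact hfin.preimage (fun x _ y _ h => by exact_mod_cast h)
  have hmem : ∀ x, x ∈ hfin'.toFinset ↔ ∃ n, 1 ≤ n ∧ x = orb c n := by
    intro x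
    rw [Set.Finite.mem_toFinset]
    rfl
  refine ⟨hfin'.toFinset, ⟨?_, ?_, ?_, ?_⟩, ?_, hmem⟩
  · rw [hmem]
    exact ⟨1, le_refl _, by simp [orb]⟩
  · intro x hx
    rw [hmem] at *
    obtain ⟨n, hn, rfl⟩ := hx
    exact ⟨n + 1, by omega, (orb_succ n).symm⟩
  · intro y hy hyc
    rw [hmem] at hy
    obtain ⟨n, hn, rfl⟩ := hy
    obtain ⟨m, rfl⟩ : ∃ m, n = m + 1 := ⟨n - 1, by omega⟩
    have hm : 1 ≤ m := by
      by_contra hcon
      have : m = 0 := by omega
      subst this
      apply hyc
      simp [orb]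
    exact ⟨orb c m, (hmem _).2 ⟨m, hm, rfl⟩, (orb_succ m).symm⟩
  · rw [hmem]
    rintro ⟨n, hn, h⟩
    exact h0 n hn h.symm
  · ext z
    rw [mem_postCrit]
    constructor
    · rintro ⟨n, hn, rfl⟩
      exact ⟨orb c n, (hmem _).2 ⟨n, hn, rfl⟩, rfl⟩
    · rintro ⟨x, hx, rfl⟩
      obtain ⟨n, hn, rfl⟩ := (hmem x).1 hx
      exact ⟨n, hn, rfl⟩

/-- **Identification.**  The iterated monodromy group of `z ^ 2 + c` (real `c`, finite
postcritical set, `0` strictly preperiodic) is the kneading automaton group. -/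
theorem img_ks (c : ℝ) (hfin : (postCrit (qf c)).Finite) (h0 : ∀ n, 1 ≤ n → orb c n ≠ 0) :
    ∃ (P : Finset ℝ) (hP : RP c P), (∀ x, x ∈ P ↔ ∃ n, 1 ≤ n ∧ x = orb c n) ∧
      ∀ t, t ∉ postCrit (qf c) → Nonempty (IMG (qf c) t ≃* (ks hP).grp) := by
  obtain ⟨P, hP, hpc, hmem⟩ := exists_RP c hfin h0
  refine ⟨P, hP, hmem, fun t ht => ?_⟩
  rw [hpc] at ht
  obtain ⟨e1⟩ := img_GG hP hpc t ht
  obtain ⟨a0, ha0⟩ : ∃ a0 : ℝ, a0 ∉ P := P.finite_toSet.infinite_compl.nonempty
  obtain ⟨e2⟩ := GG_equiv hP a0 ha0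
  exact ⟨e1.trans e2⟩

end RealB
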