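import Pool.Agent.Work.MP_e3f5d9_al_helper91.RealE
import Pool.Agent.Work.MP_e3f5d9_al_real48.RDefs

/-!
# The kneading system of a real quadratic polynomial is a real system
-/

set_option autoImplicit false

open R4 R4.Rl

namespace RealB

/-- The real quadratic map. -/
def fc (c : ℝ) (x : ℝ) : ℝ := x ^ 2 + c

variable {c : ℝ} {P : Finset ℝ}

lemma orb_eq (n : ℕ) : orb c n = (fc c)^[n] 0 := rfl

/-- The orbit data: `P` is the postcritical set. -/
structure OD (c : ℝ) (P : Finset ℝ) : Prop extends RP c P where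
  mem : ∀ x, x ∈ P ↔ ∃ n, 1 ≤ n ∧ x = orb c n

lemma OD.orb_mem (h : OD c P) {n : ℕ} (hn : 1 ≤ n) : orb c n ∈ P := (h.mem _).2 ⟨n, hn, rfl⟩

lemma orb_one : orb c 1 = c := by simp [orb]

lemma orb_two : orb c 2 = c ^ 2 + c := by rw [orb_succ, orb_one]

/-- The orbit is not strictly increasing from some place on. -/
lemma OD.not_mono (h : OD c P) (k : ℕ) (hk : 1 ≤ k)
    (hm : StrictMono fun n => orb c (n + k)) : False := by
  have h1 := Set.infinite_of_injective_forall_mem (s := (P : Set ℝ)) hm.injective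
    (fun n => h.orb_mem (by omega))
  exact h1 P.finite_toSet

lemma OD.neg (h : OD c P) : c < 0 := by
  by_contra hc
  push Not at hc
  rcases eq_or_lt_of_le hc with h0 | h0
  · exact h.h0 (h0 ▸ h.hc)
  · apply h.not_mono 1 (le_refl _)
    apply strictMono_nat_of_lt_succ
    have key : ∀ n, 0 < orb c (n + 1) ∧ orb c (n + 1) < orb c (n + 2) := by
      intro n
      induction n with
      | zero => rw [zero_add, zero_add, orb_one, orb_two]; exact ⟨h0, by nlinarith [sq_pos_of_pos h0]⟩
      | succ n ih =>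
        obtain ⟨h1, h2⟩ := ih
        refine ⟨by linarith, ?_⟩
        rw [orb_succ (n + 2), show n + 1 + 1 = n + 2 from rfl, orb_succ (n + 1)]
        rw [orb_succ (n + 1)] at h2
        nlinarith
    exact fun n => (key n).2

lemma OD.ge (h : OD c P) : -2 ≤ c := by
  by_contra hc
  push Not at hc
  apply h.not_mono 2 (by norm_num)
  apply strictMono_nat_of_lt_succ
  have key : ∀ n, -c < orb c (n + 2) ∧ orb c (n + 2) < orb c (n + 3) := by
    intro n
    induction n with
    | zero =>
      have h1 : -c < orb c 2 := by rw [orb_two]; nlinarith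
      refine ⟨h1, ?_⟩
      rw [zero_add, zero_add, orb_succ 2]
      nlinarith
    | succ n ih =>
      obtain ⟨h1, h2⟩ := ih
      have h3 : -c < orb c (n + 3) := by linarith
      refine ⟨h3, ?_⟩
      rw [show n + 1 + 3 = (n + 3) + 1 from rfl, orb_succ (n + 3)]
      rw [show n + 1 + 2 = n + 3 from rfl]
      nlinarith
  exact fun n => (key n).2

lemma OD.lt_neg_one (h : OD c P) : c < -1 := by
  by_contra hc
  push Not at hc
  have h0 := h.neg
  -- the orbit stays in `[c, 0]`
  have key : ∀ n, c ≤ orb c n ∧ orb c n ≤ 0 := by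
    intro n
    induction n with
    | zero => simp only [orb, Function.iterate_zero, id]; exact ⟨h0.le, le_refl _⟩
    | succ n ih =>
      rw [orb_succ]
      constructor
      · nlinarith [sq_nonneg (orb c n)]
      · nlinarith [ih.1, ih.2]
  have hinj : ∀ m n, orb c (m + 1) = orb c (n + 1) → orb c m = orb c n := by
    intro m n hmn
    rw [orb_succ, orb_succ] at hmn
    have h1 : (orb c m) ^ 2 = (orb c n) ^ 2 := by linarith
    rcases sq_eq_sq_iff_eq_or_eq_neg.1 h1 with h2 | h2
    · exact h2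
    · have h3 := (key m).2
      have h4 := (key n).2
      have h5 : orb c n = 0 := by linarith
      have h6 : orb c m = 0 := by linarith
      rw [h5, h6]
  -- a repetition
  have hrep : ∃ m n, m < n ∧ orb c (m + 1) = orb c (n + 1) := by
    by_contra hcon
    push Not at hcon
    have hi : Function.Injective fun n => orb c (n + 1) := by
      intro m n hmn
      rcases lt_trichotomy m n with h1 | h1 | h1
      · exact absurd hmn (hcon m n h1)
      · exact h1
      · exact absurd hmn.symm (hcon n m h1)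
    exact Set.infinite_of_injective_forall_mem (s := (P : Set ℝ)) hi
      (fun n => h.orb_mem (by omega)) P.finite_toSet
  obtain ⟨m, n, hmn, he⟩ := hrep
  have hdesc : ∀ k m n, orb c (m + k) = orb c (n + k) → orb c m = orb c n := by
    intro k
    induction k with
    | zero => intro m n h; exact h
    | succ k ih => intro m n h; exact ih m n (hinj _ _ h)
  have h1 := hdesc (m + 1) 0 (n - m) (by
    rw [zero_add, show n - m + (m + 1) = n + 1 by omega]; exact he)
  have h2 : orb c (n - m) ∈ P := h.orb_mem (by omega)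
  rw [← h1] at h2
  have h3 : orb c 0 = 0 := by simp [orb]
  rw [h3] at h2
  exact h.h0 h2

/-- The core interval is invariant. -/
lemma core_inv (h1 : -2 ≤ c) (h2 : c < 0) {x : ℝ} (hx : c ≤ x) (hx' : x ≤ c ^ 2 + c) :
    c ≤ fc c x ∧ fc c x ≤ c ^ 2 + c := by
  unfold fc
  constructor
  · nlinarith [sq_nonneg x]
  · have h3 : x ≤ -c := by nlinarith
    nlinarith

lemma OD.mem_core (h : OD c P) {x : ℝ} (hx : x ∈ P) : c ≤ x ∧ x ≤ c ^ 2 + c := by
  obtain ⟨n, hn, rfl⟩ := (h.mem x).1 hx
  induction n with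
  | zero => omega
  | succ n ih =>
    rcases Nat.eq_zero_or_pos n with h0 | h0
    · subst h0
      rw [zero_add, orb_one]
      exact ⟨le_refl _, by nlinarith [sq_nonneg c]⟩
    · have h1 := ih h0 (h.orb_mem h0)
      rw [orb_succ]
      exact core_inv h.ge h.neg h1.1 h1.2

/-- The rank of a letter. -/
noncomputable def rk (P : Finset ℝ) (x : P) : ℕ := (P.filter fun y => y < x.1).card

lemma rk_mono {x y : P} (h : x.1 < y.1) : rk P x < rk P y := by
  apply Finset.card_lt_card
  rw [Finset.ssubset_iff_of_subset]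
  · exact ⟨x.1, Finset.mem_filter.2 ⟨x.2, h⟩, fun h' => lt_irrefl _ (Finset.mem_filter.1 h').2⟩
  · intro z hz
    rw [Finset.mem_filter] at *
    exact ⟨hz.1, lt_trans hz.2 h⟩

lemma rk_lt {x y : P} : rk P x < rk P y ↔ x.1 < y.1 := by
  constructor
  · intro h
    by_contra h1
    push Not at h1
    rcases eq_or_lt_of_le h1 with h2 | h2
    · have : x = y := Subtype.ext h2.symm
      rw [this] at h
      exact lt_irrefl _ h
    · exact absurd (rk_mono h2) (by omega)
  · exact rk_mono

lemma rk_le {x y : P} : rk P x ≤ rk P y ↔ x.1 ≤ y.1 := by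
  rw [← not_lt, ← not_lt, rk_lt]

@[simp] lemma ks_o (hP : RP c P) : ((ks hP).o : P).1 = c := rfl

@[simp] lemma ks_nxt (hP : RP c P) (x : P) : ((ks hP).nxt x).1 = x.1 ^ 2 + c := rfl

lemma ks_side (hP : RP c P) (x : P) : (ks hP).side x = decide (x.1 < 0) := by
  unfold ks
  simp

lemma ks_side_true (hP : RP c P) (x : P) : (ks hP).side x = true ↔ x.1 < 0 := by
  rw [ks_side]; simp

lemma ks_side_false (hP : RP c P) (x : P) : (ks hP).side x = false ↔ 0 ≤ x.1 := by
  rw [ks_side]; simp

lemma ks_iter (hP : RP c P) (k : ℕ) : (((ks hP).nxt^[k] (ks hP).o : P) : ℝ) = orb c (k + 1) := by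
  induction k with
  | zero => rw [zero_add, orb_one]; rfl
  | succ k ih =>
    rw [Function.iterate_succ_apply', ks_nxt, ih, ← orb_succ]

theorem isReal (h : OD c P) (hc : c ≠ -2) : IsReal (ks h.toRP) (rk P) where
  inj := by
    intro i j hij
    rcases lt_trichotomy i.1 j.1 with h1 | h1 | h1
    · have := rk_mono h1; omega
    · exact Subtype.ext h1
    · have := rk_mono h1; omega
  o_min := by
    intro i
    rw [rk_le]
    exact (h.mem_core i.2).1
  e_max := by
    intro i
    rw [rk_le]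
    exact (h.mem_core i.2).2
  side_o := by
    rw [ks_side_true]
    exact h.neg
  side_e := by
    rw [ks_side_false, ks_nxt, ks_o]
    have := h.lt_neg_one
    nlinarith
  cross := by
    intro i j hi hj
    rw [ks_side_true] at hi
    rw [ks_side_false] at hj
    rw [rk_lt]
    linarith
  anti := by
    intro i j hi hj hij
    rw [ks_side_true] at hi hj
    rw [rk_lt] at *
    rw [ks_nxt, ks_nxt]
    nlinarith
  mono := by
    intro i j hi hj hij
    rw [ks_side_false] at hi hj
    rw [rk_lt] at *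
    rw [ks_nxt, ks_nxt]
    nlinarith
  ne := by
    intro he
    have h1 : (c ^ 2 + c) ^ 2 + c = c ^ 2 + c := congrArg Subtype.val he
    have h2 : c ^ 3 * (c + 2) = 0 := by ring_nf; ring_nf at h1; linarith
    rcases mul_eq_zero.1 h2 with h3 | h3
    · have := h.neg
      have h4 : c = 0 := by
        by_contra h5
        exact pow_ne_zero 3 h5 h3
      linarith
    · exact hc (by linarith)
  orb := by
    intro i
    obtain ⟨n, hn, hi⟩ := (h.mem i.1).1 i.2
    refine ⟨n - 1, Subtype.ext ?_⟩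
    rw [ks_iter, hi]
    congr 1
    omega

/-! ### The class of the gaps -/

/-- Covering: the images of every closed gap cover the core interval. -/
def Cov (c : ℝ) (P : Finset ℝ) : Prop :=
  ∀ u ∈ P, ∀ v ∈ P, u < v → ∃ n, ∀ z, c ≤ z → z ≤ c ^ 2 + c →
    ∃ x, u ≤ x ∧ x ≤ v ∧ (fc c)^[n] x = z

/-- The cut of a real number. -/
noncomputable def cutR (P : Finset ℝ) (r : ℝ) : Finset P :=
  open Classical in Finset.univ.filter fun i : P => r < i.1

lemma mem_cutR {r : ℝ} {i : P} : i ∈ cutR P r ↔ r < i.1 := by simp [cutR]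

lemma iter_mem_core (h1 : -2 ≤ c) (h2 : c < 0) (n : ℕ) {x : ℝ} (hx : c ≤ x)
    (hx' : x ≤ c ^ 2 + c) : c ≤ (fc c)^[n] x ∧ (fc c)^[n] x ≤ c ^ 2 + c := by
  induction n with
  | zero => exact ⟨hx, hx'⟩
  | succ n ih =>
    rw [Function.iterate_succ_apply']
    exact core_inv h1 h2 ih.1 ih.2

lemma iter_mem_P (hP : RP c P) (n : ℕ) {x : ℝ} (hx : x ∈ P) : (fc c)^[n] x ∈ P := by
  induction n with
  | zero => exact hx
  | succ n ih =>
    rw [Function.iterate_succ_apply']
    exact hP.hf _ ih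

lemma cutR_mem (h : OD c P) {r : ℝ} (h1 : c < r) (h2 : r < c ^ 2 + c) :
    cutR P r ∈ gE (ks h.toRP) (rk P) := by
  classical
  rw [mem_gE]
  have hne : (P.filter fun y => r < y).Nonempty :=
    ⟨c ^ 2 + c, Finset.mem_filter.2 ⟨h.hf c h.hc, h2⟩⟩
  obtain ⟨q, hq, hmin⟩ := Finset.exists_min_image _ id hne
  rw [Finset.mem_filter] at hq
  refine ⟨⟨q, hq.1⟩, ?_, ?_⟩
  · intro he
    have h3 : q = c := congrArg Subtype.val he
    linarith [hq.2]
  · ext i
    rw [mem_up, rk_le, mem_cutR]
    constructor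
    · intro h3
      exact lt_of_lt_of_le hq.2 h3
    · intro h3
      exact hmin i.1 (Finset.mem_filter.2 ⟨i.2, h3⟩)

lemma arrow (h : OD c P) {r : ℝ} (hr : r ∉ P) (h1 : c < r) (h2 : r < c ^ 2 + c)
    (hq : fc c r ∉ P) (h3 : c < fc c r) (h4 : fc c r < c ^ 2 + c) :
    (ks h.toRP).Arrow (gE (ks h.toRP) (rk P)) (cutR P (fc c r)) (cutR P r) := by
  classical
  refine ⟨cutR_mem h h3 h4, cutR_mem h h1 h2, decide (r < 0), ?_⟩
  have hr0 : r ≠ 0 := by
    rintro rfl
    apply hq
    have : fc c 0 = c := by simp [fc]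
    rw [this]
    exact h.hc
  unfold fc at *
  rcases lt_or_gt_of_ne hr0 with h5 | h5
  · -- left
    have e1 : (ks h.toRP).lp (decide (r < 0)) (cutR P (r ^ 2 + c)) =
        Finset.univ.filter fun i : P => i.1 < r := by
      ext i
      simp only [KS.lp, Finset.mem_filter, Finset.mem_univ, true_and, mem_cutR, ks_side, ks_nxt,
        h5, decide_true, decide_eq_true_eq]
      constructor
      · rintro ⟨h6, h7⟩
        nlinarith
      · intro h6
        exact ⟨by linarith, by nlinarith⟩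
    rw [e1, KS.nm, if_pos (by simp only [Finset.mem_filter, Finset.mem_univ, true_and]; exact h1)]
    ext i
    simp only [Finset.mem_compl, Finset.mem_filter, Finset.mem_univ, true_and, mem_cutR, not_lt]
    constructor
    · intro h6
      exact lt_of_le_of_ne h6 (fun e => hr (e ▸ i.2))
    · intro h6
      exact h6.le
  · have h5' : ¬ r < 0 := not_lt.2 h5.le
    have e1 : (ks h.toRP).lp (decide (r < 0)) (cutR P (r ^ 2 + c)) = cutR P r := by
      ext i
      simp only [KS.lp, Finset.mem_filter, Finset.mem_univ, true_and, mem_cutR, ks_side, ks_nxt,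
        h5', decide_false, decide_eq_false_iff_not, not_lt]
      constructor
      · rintro ⟨h6, h7⟩
        nlinarith
      · intro h6
        exact ⟨by linarith, by nlinarith⟩
    rw [e1, KS.nm, if_neg (by rw [mem_cutR, ks_o]; linarith)]

lemma path (h : OD c P) (n : ℕ) : ∀ {r : ℝ}, c < r → r < c ^ 2 + c → (fc c)^[n] r ∉ P →
    (ks h.toRP).Path (gE (ks h.toRP) (rk P)) n (cutR P ((fc c)^[n] r)) (cutR P r) := by
  induction n with
  | zero =>
    intro r h1 h2 h3
    exact ⟨cutR_mem h h1 h2, rfl⟩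
  | succ n ih =>
    intro r h1 h2 h3
    rw [Function.iterate_succ_apply'] at *
    have h4 : (fc c)^[n] r ∉ P := fun h5 => h3 (h.hf _ h5)
    have h5 := iter_mem_core h.ge h.neg n h1.le h2.le
    have h6 : c < (fc c)^[n] r := lt_of_le_of_ne h5.1 (fun e => h4 (e ▸ h.hc))
    have h7 : (fc c)^[n] r < c ^ 2 + c := lt_of_le_of_ne h5.2 (fun e => h4 (e ▸ h.hf c h.hc))
    have h8 := core_inv h.ge h.neg h5.1 h5.2
    have h9 : c < fc c ((fc c)^[n] r) := lt_of_le_of_ne h8.1 (fun e => h3 (e ▸ h.hc))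
    have h10 : fc c ((fc c)^[n] r) < c ^ 2 + c :=
      lt_of_le_of_ne h8.2 (fun e => h3 (e ▸ h.hf c h.hc))
    exact ⟨_, arrow h h4 h6 h7 h3 h9 h10, ih h1 h2 h4⟩

/-- The map of the core interval is onto. -/
lemma core_surj (h1 : -2 ≤ c) (h2 : c < 0) {z : ℝ} (hz : c ≤ z) (hz' : z ≤ c ^ 2 + c) :
    ∃ w, c ≤ w ∧ w ≤ 0 ∧ fc c w = z := by
  refine ⟨-Real.sqrt (z - c), ?_, ?_, ?_⟩
  · have : Real.sqrt (z - c) ≤ -c := by
      rw [Real.sqrt_le_left (by linarith)]
      nlinarith
    linarith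
  · have := Real.sqrt_nonneg (z - c)
    linarith
  · unfold fc
    rw [neg_sq, Real.sq_sqrt (by linarith)]
    ring

theorem mixing (h : OD c P) (hcov : Cov c P) :
    (ks h.toRP).Mixing (gE (ks h.toRP) (rk P)) := by
  classical
  have hlt1 := h.lt_neg_one
  have hge := h.ge
  have hneg := h.neg
  have hsurj : ∀ n z, c ≤ z → z ≤ c ^ 2 + c → ∃ w, c ≤ w ∧ w ≤ c ^ 2 + c ∧ (fc c)^[n] w = z := by
    intro n
    induction n with
    | zero => intro z h1 h2; exact ⟨z, h1, h2, rfl⟩
    | succ n ih =>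
      intro z h1 h2
      obtain ⟨w, hw⟩ := core_surj hge hneg h1 h2
      have hw' : c ≤ w ∧ w ≤ c ^ 2 + c ∧ fc c w = z := ⟨hw.1, by nlinarith [hw.2.1], hw.2.2⟩
      obtain ⟨v, h3, h4, h5⟩ := ih w hw'.1 hw'.2.1
      exact ⟨v, h3, h4, by rw [Function.iterate_succ_apply', h5, hw'.2.2]⟩
  have hcov' : ∀ u ∈ P, ∀ v ∈ P, u < v → ∃ n, ∀ m, n ≤ m → ∀ z, c ≤ z → z ≤ c ^ 2 + c →
      ∃ x, u ≤ x ∧ x ≤ v ∧ (fc c)^[m] x = z := by
    intro u hu v hv huv
    obtain ⟨n, hn⟩ := hcov u hu v hv huv
    refine ⟨n, fun m hm z h1 h2 => ?_⟩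
    obtain ⟨w, h3, h4, h5⟩ := hsurj (m - n) z h1 h2
    obtain ⟨x, h6, h7, h8⟩ := hn w h3 h4
    refine ⟨x, h6, h7, ?_⟩
    rw [← h5, ← h8, ← Function.iterate_add_apply]
    congr 2
    omega
  choose! N hN using hcov'
  -- the predecessor of a letter
  have hpred : ∀ q : P, q ≠ (ks h.toRP).o → ∃ p ∈ P, p < q.1 ∧ ∀ y ∈ P, y < q.1 → y ≤ p := by
    intro q hq
    have hne : (P.filter fun y => y < q.1).Nonempty := by
      refine ⟨c, Finset.mem_filter.2 ⟨h.hc, lt_of_le_of_ne (h.mem_core q.2).1 ?_⟩⟩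
      intro e
      exact hq (Subtype.ext e.symm)
    obtain ⟨p, hp, hmax⟩ := Finset.exists_max_image _ id hne
    rw [Finset.mem_filter] at hp
    exact ⟨p, hp.1, hp.2, fun y hy hyq => hmax y (Finset.mem_filter.2 ⟨hy, hyq⟩)⟩
  -- the cut of a point of the gap left of `q`
  have hcut : ∀ q : P, ∀ p ∈ P, p < q.1 → (∀ y ∈ P, y < q.1 → y ≤ p) → ∀ r, p < r → r < q.1 →
      up (rk P) q = cutR P r := by
    intro q p hp hpq hmax r h1 h2
    ext i
    rw [mem_up, rk_le, mem_cutR]
    constructor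
    · intro h3; linarith
    · intro h3
      by_contra h4
      push Not at h4
      have := hmax i.1 i.2 h4
      linarith
  refine ⟨?_, ?_, ?_⟩
  · intro A hA
    rw [mem_gE] at hA
    obtain ⟨q, hq, rfl⟩ := hA
    rw [mem_up, rk_le]
    intro h1
    exact hq (Subtype.ext (le_antisymm h1 (h.mem_core q.2).1))
  · rw [mem_gE]
    have hne : (P.filter fun y => c < y).Nonempty :=
      ⟨c ^ 2 + c, Finset.mem_filter.2 ⟨h.hf c h.hc, by nlinarith⟩⟩
    obtain ⟨q, hq, hmin⟩ := Finset.exists_min_image _ id hne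
    rw [Finset.mem_filter] at hq
    refine ⟨⟨q, hq.1⟩, ?_, ?_⟩
    · intro he
      have h3 : q = c := congrArg Subtype.val he
      linarith [hq.2]
    · ext i
      rw [mem_up, rk_le, Finset.mem_compl, Finset.mem_singleton]
      constructor
      · intro h3 h4
        rw [h4, ks_o] at h3
        simp only at h3
        linarith [hq.2]
      · intro h3
        apply hmin i.1 (Finset.mem_filter.2 ⟨i.2, lt_of_le_of_ne (h.mem_core i.2).1 ?_⟩)
        intro e
        exact h3 (Subtype.ext e.symm)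
  · -- uniform time
    let M : ℕ := (P ×ˢ P).sup fun uv => N uv.1 uv.2
    refine ⟨M + 1, by omega, ?_⟩
    intro A hA B hB
    rw [mem_gE] at hA hB
    obtain ⟨qa, hqa, rfl⟩ := hA
    obtain ⟨qb, hqb, rfl⟩ := hB
    obtain ⟨pa, hpa, hpqa, hmaxa⟩ := hpred qa hqa
    obtain ⟨pb, hpb, hpqb, hmaxb⟩ := hpred qb hqb
    -- a point of the gap of `A`
    set z : ℝ := (pa + qa.1) / 2 with hz
    have hz1 : pa < z := by rw [hz]; linarith
    have hz2 : z < qa.1 := by rw [hz]; linarith
    have hzP : z ∉ P := fun hz3 => by linarith [hmaxa z hz3 hz2]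
    have hzc : c ≤ z := by linarith [(h.mem_core hpa).1]
    have hze : z ≤ c ^ 2 + c := by linarith [(h.mem_core qa.2).2]
    have hM : N pb qb.1 ≤ M + 1 := by
      have : N pb qb.1 ≤ M :=
        Finset.le_sup (f := fun uv : ℝ × ℝ => N uv.1 uv.2) (b := (pb, qb.1))
          (Finset.mem_product.2 ⟨hpb, qb.2⟩)
      omega
    obtain ⟨x, hx1, hx2, hx3⟩ := hN pb hpb qb.1 qb.2 hpqb (M + 1) hM z hzc hze
    have hxP : x ∉ P := by
      intro hx4
      apply hzP
      rw [← hx3]
      exact iter_mem_P h.toRP _ hx4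
    have hx1' : pb < x := lt_of_le_of_ne hx1 (fun e => hxP (e ▸ hpb))
    have hx2' : x < qb.1 := lt_of_le_of_ne hx2 (fun e => hxP (e ▸ qb.2))
    rw [hcut qa pa hpa hpqa hmaxa z hz1 hz2, hcut qb pb hpb hpqb hmaxb x hx1' hx2', ← hx3]
    apply path h (M + 1)
    · linarith [(h.mem_core hpb).1]
    · linarith [(h.mem_core qb.2).2]
    · rw [hx3]; exact hzP

end RealB
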