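import Pool.Agent.Work.MP_e3f5d9_al_helper91.RealF

/-!
# Real quadratic maps without restrictive intervals
-/

set_option autoImplicit false

open R4 R4.Rl Set

namespace RealB

variable {c : ℝ} {P : Finset ℝ}

/-- The real map `x ^ 2 + c` has a restrictive interval `[-b, b]` of period `n ≥ 2`. -/
def RealRenorm (c : ℝ) : Prop :=
  ∃ n : ℕ, 2 ≤ n ∧ ∃ b : ℝ, 0 < b ∧ (∀ x, |x| ≤ b → |(fun y : ℝ => y ^ 2 + c)^[n] x| ≤ b) ∧
    ∀ k : ℕ, 0 < k → k < n → ∀ x, |x| ≤ b → b ≤ |(fun y : ℝ => y ^ 2 + c)^[k] x|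

/-! ### Cross ratios -/

lemma cr_pos {a u v b α β : ℝ} (h0 : 0 < u) (huv : u < v) (hau : a < u) (hvb : v < b)
    (hα0 : 0 ≤ α) (hα : a ≤ α) (hαu : α < u) (hβv : v < β) (hβ : β ≤ b) :
    ((v - a) * (b - u)) / ((u - a) * (b - v)) <
      ((v ^ 2 - α ^ 2) * (β ^ 2 - u ^ 2)) / ((u ^ 2 - α ^ 2) * (β ^ 2 - v ^ 2)) := by
  have p1 : 0 < u - a := by linarith
  have p2 : 0 < b - v := by linarith
  have p3 : 0 < u - α := by linarith
  have p4 : 0 < β - v := by linarith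
  have p5 : 0 < u + α := by linarith
  have p6 : 0 < β + v := by linarith
  have q1 : 0 < u ^ 2 - α ^ 2 := by nlinarith
  have q2 : 0 < β ^ 2 - v ^ 2 := by nlinarith
  rw [div_lt_div_iff₀ (mul_pos p1 p2) (mul_pos q1 q2)]
  have e1 : (v - a) * (u - α) ≤ (v - α) * (u - a) := by nlinarith [mul_nonneg (sub_nonneg.2 huv.le) (sub_nonneg.2 hα)]
  have e2 : (b - u) * (β - v) ≤ (β - u) * (b - v) := by nlinarith [mul_nonneg (sub_nonneg.2 huv.le) (sub_nonneg.2 hβ)]
  have e3 : (u + α) * (β + v) < (v + α) * (β + u) := by nlinarith [mul_pos (sub_pos.2 huv) (show 0 < β - α by linarith)]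
  have r1 : 0 < (v - a) * (u - α) := mul_pos (by linarith) p3
  have r2 : 0 < (b - u) * (β - v) := mul_pos (by linarith) p4
  have r3 : 0 < (u + α) * (β + v) := mul_pos p5 p6
  have s1 : ((v - a) * (u - α)) * ((b - u) * (β - v)) ≤
      ((v - α) * (u - a)) * ((β - u) * (b - v)) :=
    mul_le_mul e1 e2 r2.le (le_trans r1.le e1)
  have s2 : 0 < ((v - a) * (u - α)) * ((b - u) * (β - v)) := mul_pos r1 r2
  calc (v - a) * (b - u) * ((u ^ 2 - α ^ 2) * (β ^ 2 - v ^ 2))
      = (((v - a) * (u - α)) * ((b - u) * (β - v))) * ((u + α) * (β + v)) := by ring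
    _ < (((v - a) * (u - α)) * ((b - u) * (β - v))) * ((v + α) * (β + u)) :=
        mul_lt_mul_of_pos_left e3 s2
    _ ≤ (((v - α) * (u - a)) * ((β - u) * (b - v))) * ((v + α) * (β + u)) :=
        mul_le_mul_of_nonneg_right s1 (le_trans r3.le e3.le)
    _ = (v ^ 2 - α ^ 2) * (β ^ 2 - u ^ 2) * ((u - a) * (b - v)) := by ring

lemma sq_lt' {x y : ℝ} (hy : 0 ≤ y) (h : x ^ 2 < y ^ 2) : x < y := lt_of_pow_lt_pow_left₀ 2 hy h

lemma lt_sq' {x y : ℝ} (hx : 0 ≤ x) (h : x < y) : x ^ 2 < y ^ 2 :=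
  pow_lt_pow_left₀ h hx (by norm_num)

/-- The left neighbour. -/
noncomputable def pr (P : Finset ℝ) (u : ℝ) : ℝ := sSup {z : ℝ | z ∈ P ∧ z < u}

/-- The right neighbour. -/
noncomputable def sc (P : Finset ℝ) (v : ℝ) : ℝ := sInf {z : ℝ | z ∈ P ∧ v < z}

lemma pr_spec {u : ℝ} (hne : ∃ z ∈ P, z < u) :
    pr P u ∈ P ∧ pr P u < u ∧ ∀ z ∈ P, z < u → z ≤ pr P u := by
  have hfin : {z : ℝ | z ∈ P ∧ z < u}.Finite := P.finite_toSet.subset (fun z hz => hz.1)
  have hne' : {z : ℝ | z ∈ P ∧ z < u}.Nonempty := by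
    obtain ⟨z, h1, h2⟩ := hne
    exact ⟨z, h1, h2⟩
  have h1 := hne'.csSup_mem hfin
  exact ⟨h1.1, h1.2, fun z hz hzu => le_csSup hfin.bddAbove ⟨hz, hzu⟩⟩

lemma sc_spec {v : ℝ} (hne : ∃ z ∈ P, v < z) :
    sc P v ∈ P ∧ v < sc P v ∧ ∀ z ∈ P, v < z → sc P v ≤ z := by
  have hfin : {z : ℝ | z ∈ P ∧ v < z}.Finite := P.finite_toSet.subset (fun z hz => hz.1)
  have hne' : {z : ℝ | z ∈ P ∧ v < z}.Nonempty := by
    obtain ⟨z, h1, h2⟩ := hne
    exact ⟨z, h1, h2⟩
  have h1 := hne'.csInf_mem hfin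
  exact ⟨h1.1, h1.2, fun z hz hzu => csInf_le hfin.bddBelow ⟨hz, hzu⟩⟩

/-- Cross ratio of `[u, v]` in the neighbouring interval. -/
noncomputable def CR (P : Finset ℝ) (u v : ℝ) : ℝ :=
  ((v - pr P u) * (sc P v - u)) / ((u - pr P u) * (sc P v - v))

lemma cr_step (h : OD c P) {u v : ℝ} (hu : u ∈ P) (hv : v ∈ P) (huv : u < v)
    (hs : 0 < u ∨ v < 0) (hcu : c < u) (hve : v < c ^ 2 + c)
    (hi1 : c < min (fc c u) (fc c v)) (hi2 : max (fc c u) (fc c v) < c ^ 2 + c) :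
    CR P u v < CR P (min (fc c u) (fc c v)) (max (fc c u) (fc c v)) := by
  have hneg := h.neg
  have heP : c ^ 2 + c ∈ P := h.hf c h.hc
  obtain ⟨a1, a2, a3⟩ := pr_spec (P := P) (u := u) ⟨c, h.hc, hcu⟩
  obtain ⟨b1, b2, b3⟩ := sc_spec (P := P) (v := v) ⟨_, heP, hve⟩
  obtain ⟨a1', a2', a3'⟩ := pr_spec (P := P) (u := min (fc c u) (fc c v)) ⟨c, h.hc, hi1⟩
  obtain ⟨b1', b2', b3'⟩ := sc_spec (P := P) (v := max (fc c u) (fc c v)) ⟨_, heP, hi2⟩
  unfold CR
  set a := pr P u with ha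
  set b := sc P v with hb
  set a' := pr P (min (fc c u) (fc c v)) with ha'
  set b' := sc P (max (fc c u) (fc c v)) with hb'
  have hca' : c ≤ a' := (h.mem_core a1').1
  have hcb' : c ≤ b' := (h.mem_core b1').1
  set α := Real.sqrt (a' - c) with hα
  set β := Real.sqrt (b' - c) with hβ
  have hα2 : a' = α ^ 2 + c := by rw [hα, Real.sq_sqrt (by linarith)]; ring
  have hβ2 : b' = β ^ 2 + c := by rw [hβ, Real.sq_sqrt (by linarith)]; ring
  have hα0 : 0 ≤ α := Real.sqrt_nonneg _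
  have hβ0 : 0 ≤ β := Real.sqrt_nonneg _
  rcases hs with hs | hs
  · -- positive side
    have huv2 : u ^ 2 < v ^ 2 := lt_sq' hs.le huv
    have e1 : min (fc c u) (fc c v) = u ^ 2 + c := by
      unfold fc; rw [min_eq_left]; linarith
    have e2 : max (fc c u) (fc c v) = v ^ 2 + c := by
      unfold fc; rw [max_eq_right]; linarith
    rw [e1] at a2' a3' ⊢
    rw [e2] at b2' b3' ⊢
    have h1 : α < u := sq_lt' hs.le (by linarith)
    have h2 : v < β := sq_lt' hβ0 (by linarith)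
    have h3 : a ≤ α := by
      by_contra h4
      push Not at h4
      have h6 : a ^ 2 < u ^ 2 := lt_sq' (by linarith) a2
      have h5 := a3' (a ^ 2 + c) (h.hf a a1) (by linarith)
      have h7 : α ^ 2 < a ^ 2 := lt_sq' hα0 h4
      linarith
    have h4 : β ≤ b := by
      by_contra h5
      push Not at h5
      have h8 : v ^ 2 < b ^ 2 := lt_sq' (by linarith) b2
      have h6 := b3' (b ^ 2 + c) (h.hf b b1) (by linarith)
      have h7 : b ^ 2 < β ^ 2 := lt_sq' (by linarith) h5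
      linarith
    have key := cr_pos hs huv a2 b2 hα0 h3 h1 h2 h4
    rw [hα2, hβ2]
    have e3 : ((v ^ 2 + c - (α ^ 2 + c)) * (β ^ 2 + c - (u ^ 2 + c))) /
        ((u ^ 2 + c - (α ^ 2 + c)) * (β ^ 2 + c - (v ^ 2 + c))) =
        ((v ^ 2 - α ^ 2) * (β ^ 2 - u ^ 2)) / ((u ^ 2 - α ^ 2) * (β ^ 2 - v ^ 2)) := by
      congr 1 <;> ring
    rw [e3]
    exact key
  · -- negative side
    have hu0 : u < 0 := by linarith
    have huv2 : (-v) ^ 2 < (-u) ^ 2 := lt_sq' (by linarith) (by linarith)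
    have e1 : min (fc c u) (fc c v) = (-v) ^ 2 + c := by
      unfold fc; rw [min_eq_right, neg_sq]; linarith [neg_sq u, neg_sq v]
    have e2 : max (fc c u) (fc c v) = (-u) ^ 2 + c := by
      unfold fc; rw [max_eq_left, neg_sq]; linarith [neg_sq u, neg_sq v]
    rw [e1] at a2' a3' ⊢
    rw [e2] at b2' b3' ⊢
    have h1 : α < -v := sq_lt' (by linarith) (by linarith)
    have h2 : -u < β := sq_lt' hβ0 (by linarith)
    have h3 : -b ≤ α := by
      by_contra h4
      push Not at h4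
      have h6 : (-b) ^ 2 < (-v) ^ 2 := lt_sq' (by linarith) (by linarith)
      have h5 := a3' ((-b) ^ 2 + c) (by rw [neg_sq]; exact h.hf b b1) (by linarith)
      have h7 : α ^ 2 < (-b) ^ 2 := lt_sq' hα0 h4
      linarith
    have h4 : β ≤ -a := by
      by_contra h5
      push Not at h5
      have h8 : (-u) ^ 2 < (-a) ^ 2 := lt_sq' (by linarith) (by linarith)
      have h6 := b3' ((-a) ^ 2 + c) (by rw [neg_sq]; exact h.hf a a1) (by linarith)
      have h7 : (-a) ^ 2 < β ^ 2 := lt_sq' (by linarith) h5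
      linarith
    have key := cr_pos (a := -b) (u := -v) (v := -u) (b := -a) (by linarith) (by linarith)
      (by linarith) (by linarith) hα0 h3 h1 h2 h4
    rw [hα2, hβ2]
    have e3 : (((-u) ^ 2 + c - (α ^ 2 + c)) * (β ^ 2 + c - ((-v) ^ 2 + c))) /
        (((-v) ^ 2 + c - (α ^ 2 + c)) * (β ^ 2 + c - ((-u) ^ 2 + c))) =
        (((-u) ^ 2 - α ^ 2) * (β ^ 2 - (-v) ^ 2)) / (((-v) ^ 2 - α ^ 2) * (β ^ 2 - (-u) ^ 2)) := by
      congr 1 <;> ring
    have e4 : ((v - a) * (b - u)) / ((u - a) * (b - v)) =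
        ((-u - -b) * (-a - -v)) / ((-v - -b) * (-a - -u)) := by
      congr 1 <;> ring
    rw [e3, e4]
    exact key

/-- (H): two letters are separated by the critical point at some time. -/
lemma sep (h : OD c P) (hc : c ≠ -2) {x y : ℝ} (hx : x ∈ P) (hy : y ∈ P) (hxy : x ≠ y) :
    ∃ m, (fc c)^[m] x * (fc c)^[m] y < 0 := by
  by_contra hcon
  push Not at hcon
  have hneg := h.neg
  have hge : -2 < c := lt_of_le_of_ne h.ge (Ne.symm hc)
  have hxP := fun m => iter_mem_P h.toRP m hx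
  have hyP := fun m => iter_mem_P h.toRP m hy
  have hpos : ∀ m, 0 < (fc c)^[m] x * (fc c)^[m] y := fun m =>
    lt_of_le_of_ne (hcon m) (Ne.symm (mul_ne_zero (h.toRP.ne0 (hxP m)) (h.toRP.ne0 (hyP m))))
  have hne : ∀ m, (fc c)^[m] x ≠ (fc c)^[m] y := by
    intro m
    induction m with
    | zero => exact hxy
    | succ m ih =>
      rw [Function.iterate_succ_apply', Function.iterate_succ_apply']
      intro he
      unfold fc at he
      have h1 : ((fc c)^[m] x) ^ 2 = ((fc c)^[m] y) ^ 2 := by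
        unfold fc; linarith
      rcases sq_eq_sq_iff_eq_or_eq_neg.1 h1 with h2 | h2
      · exact ih h2
      · have := hpos m
        rw [h2] at this
        nlinarith [sq_nonneg ((fc c)^[m] y)]
  -- the hulls
  have hgt : ∀ m, ∀ z ∈ P, c < (fc c)^[m + 1] z := by
    intro m z hz
    rw [Function.iterate_succ_apply']
    have h1 := h.toRP.ne0 (iter_mem_P h.toRP m hz)
    have h2 : 0 < ((fc c)^[m] z) ^ 2 := by positivity
    show c < ((fc c)^[m] z) ^ 2 + c
    linarith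
  have hlt : ∀ m, ∀ z ∈ P, (fc c)^[m + 2] z < c ^ 2 + c := by
    intro m z hz
    rw [Function.iterate_succ_apply']
    have h1 := hgt m z hz
    have h2 := (h.mem_core (iter_mem_P h.toRP (m + 1) hz)).2
    show ((fc c)^[m + 1] z) ^ 2 + c < c ^ 2 + c
    have h3 : (fc c)^[m + 1] z < -c := by nlinarith
    nlinarith
  have hstep : ∀ m, CR P (min ((fc c)^[m + 2] x) ((fc c)^[m + 2] y))
      (max ((fc c)^[m + 2] x) ((fc c)^[m + 2] y)) <
      CR P (min ((fc c)^[m + 3] x) ((fc c)^[m + 3] y))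
      (max ((fc c)^[m + 3] x) ((fc c)^[m + 3] y)) := by
    intro m
    have ex : (fc c)^[m + 3] x = fc c ((fc c)^[m + 2] x) := Function.iterate_succ_apply' _ _ _
    have ey : (fc c)^[m + 3] y = fc c ((fc c)^[m + 2] y) := Function.iterate_succ_apply' _ _ _
    have k1 : c < (fc c)^[m + 2] x := hgt (m + 1) x hx
    have k2 : c < (fc c)^[m + 2] y := hgt (m + 1) y hy
    have k3 := hlt m x hx
    have k4 := hlt m y hy
    have k5 : c < (fc c)^[m + 3] x := hgt (m + 2) x hx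
    have k6 : c < (fc c)^[m + 3] y := hgt (m + 2) y hy
    have k7 : (fc c)^[m + 3] x < c ^ 2 + c := hlt (m + 1) x hx
    have k8 : (fc c)^[m + 3] y < c ^ 2 + c := hlt (m + 1) y hy
    have k9 := hpos (m + 2)
    have k10 := hne (m + 2)
    have k11 := hxP (m + 2)
    have k12 := hyP (m + 2)
    rw [ex] at k5 k7 ⊢
    rw [ey] at k6 k8 ⊢
    clear ex ey
    generalize (fc c)^[m + 2] x = X at *
    generalize (fc c)^[m + 2] y = Y at *
    rcases lt_or_gt_of_ne k10 with h1 | h1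
    · rw [min_eq_left h1.le, max_eq_right h1.le]
      apply cr_step h k11 k12 h1 _ k1 k4 (lt_min k5 k6) (max_lt k7 k8)
      rcases pos_and_pos_or_neg_and_neg_of_mul_pos k9 with h2 | h2
      · exact Or.inl h2.1
      · exact Or.inr h2.2
    · rw [min_eq_right h1.le, max_eq_left h1.le, min_comm (fc c X), max_comm (fc c X)]
      apply cr_step h k12 k11 h1 _ k2 k3 (lt_min k6 k5) (max_lt k8 k7)
      rcases pos_and_pos_or_neg_and_neg_of_mul_pos k9 with h2 | h2
      · exact Or.inl h2.2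
      · exact Or.inr h2.1
  have hmono : StrictMono fun m => CR P (min ((fc c)^[m + 2] x) ((fc c)^[m + 2] y))
      (max ((fc c)^[m + 2] x) ((fc c)^[m + 2] y)) := strictMono_nat_of_lt_succ hstep
  have hinj : Function.Injective fun m : ℕ => (((fc c)^[m + 2] x, (fc c)^[m + 2] y) : ℝ × ℝ) := by
    intro m n hmn
    apply hmono.injective
    have e1 : (fc c)^[m + 2] x = (fc c)^[n + 2] x := congrArg Prod.fst hmn
    have e2 : (fc c)^[m + 2] y = (fc c)^[n + 2] y := congrArg Prod.snd hmn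
    show CR P _ _ = CR P _ _
    rw [e1, e2]
  exact Set.infinite_of_injective_forall_mem (s := ((P ×ˢ P : Finset (ℝ × ℝ)) : Set (ℝ × ℝ))) hinj
    (fun m => Finset.mem_coe.2 (Finset.mem_product.2 ⟨hxP _, hyP _⟩)) (Finset.finite_toSet _)

end RealB
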