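import Pool.Agent.Work.MP_e3f5d9_al_helper91.RealG

/-!
# No restrictive interval implies covering
-/

set_option autoImplicit false

open R4 R4.Rl Set

namespace RealB

variable {c : ℝ} {P : Finset ℝ}

/-- The image of an interval with endpoints in `P`. -/
lemma image_P (h : OD c P) {u v : ℝ} (hu : u ∈ P) (hv : v ∈ P) (huv : u < v) :
    ∃ u' ∈ P, ∃ v' ∈ P, u' < v' ∧ fc c '' Icc u v = Icc u' v' := by
  have hu0 := h.toRP.ne0 hu
  have hv0 := h.toRP.ne0 hv
  rcases lt_or_gt_of_ne hu0 with h1 | h1
  · rcases lt_or_gt_of_ne hv0 with h2 | h2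
    · -- both negative
      refine ⟨_, h.hf v hv, _, h.hf u hu, by nlinarith, ?_⟩
      ext y
      simp only [mem_image, mem_Icc]
      constructor
      · rintro ⟨x, ⟨h3, h4⟩, rfl⟩
        unfold fc
        constructor <;> nlinarith
      · rintro ⟨h3, h4⟩
        have h0 : 0 ≤ y - c := by nlinarith [sq_nonneg v]
        refine ⟨-Real.sqrt (y - c), ⟨?_, ?_⟩, ?_⟩
        · have : Real.sqrt (y - c) ≤ -u := by
            rw [Real.sqrt_le_left (by linarith)]
            nlinarith
          linarith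
        · have : -v ≤ Real.sqrt (y - c) := by
            apply Real.le_sqrt_of_sq_le
            nlinarith
          linarith
        · unfold fc
          rw [neg_sq, Real.sq_sqrt h0]
          ring
    · -- the interval contains `0`
      refine ⟨c, h.hc, max (u ^ 2 + c) (v ^ 2 + c), ?_, ?_, ?_⟩
      · rcases max_choice (u ^ 2 + c) (v ^ 2 + c) with h3 | h3 <;> rw [h3]
        · exact h.hf u hu
        · exact h.hf v hv
      · apply lt_max_of_lt_right
        have : 0 < v ^ 2 := by positivity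
        linarith
      · ext y
        simp only [mem_image, mem_Icc, le_max_iff]
        constructor
        · rintro ⟨x, ⟨h3, h4⟩, rfl⟩
          unfold fc
          refine ⟨by nlinarith [sq_nonneg x], ?_⟩
          rcases le_total 0 x with h5 | h5
          · right; nlinarith
          · left; nlinarith
        · rintro ⟨h3, h4⟩
          have h0 : 0 ≤ y - c := by linarith
          rcases h4 with h4 | h4
          · refine ⟨-Real.sqrt (y - c), ⟨?_, ?_⟩, ?_⟩
            · have : Real.sqrt (y - c) ≤ -u := by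
                rw [Real.sqrt_le_left (by linarith)]
                nlinarith
              linarith
            · have := Real.sqrt_nonneg (y - c)
              linarith
            · unfold fc
              rw [neg_sq, Real.sq_sqrt h0]
              ring
          · refine ⟨Real.sqrt (y - c), ⟨?_, ?_⟩, ?_⟩
            · have := Real.sqrt_nonneg (y - c)
              linarith
            · rw [Real.sqrt_le_left h2.le]
              linarith
            · unfold fc
              rw [Real.sq_sqrt h0]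
              ring
  · have h2 : 0 < v := by linarith
    refine ⟨_, h.hf u hu, _, h.hf v hv, by nlinarith, ?_⟩
    ext y
    simp only [mem_image, mem_Icc]
    constructor
    · rintro ⟨x, ⟨h3, h4⟩, rfl⟩
      unfold fc
      constructor <;> nlinarith
    · rintro ⟨h3, h4⟩
      have h0 : 0 ≤ y - c := by nlinarith [sq_nonneg u]
      refine ⟨Real.sqrt (y - c), ⟨?_, ?_⟩, ?_⟩
      · apply Real.le_sqrt_of_sq_le
        linarith
      · rw [Real.sqrt_le_left h2.le]
        linarith
      · unfold fc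
        rw [Real.sq_sqrt h0]
        ring

lemma image_iter (h : OD c P) (n : ℕ) {u v : ℝ} (hu : u ∈ P) (hv : v ∈ P) (huv : u < v) :
    ∃ u' ∈ P, ∃ v' ∈ P, u' < v' ∧ (fc c)^[n] '' Icc u v = Icc u' v' := by
  induction n with
  | zero => exact ⟨u, hu, v, hv, huv, by simp⟩
  | succ n ih =>
    obtain ⟨u', hu', v', hv', huv', he⟩ := ih
    obtain ⟨u'', hu'', v'', hv'', huv'', he'⟩ := image_P h hu' hv' huv'
    refine ⟨u'', hu'', v'', hv'', huv'', ?_⟩
    rw [Function.iterate_succ', Set.image_comp, he, he']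

lemma image_add (m n : ℕ) (X : Set ℝ) :
    (fc c)^[m + n] '' X = (fc c)^[m] '' ((fc c)^[n] '' X) := by
  rw [Function.iterate_add, Set.image_comp]

/-- Every interval with endpoints in `P` reaches the central gap. -/
lemma reach (h : OD c P) (hc : c ≠ -2) {u v : ℝ} (hu : u ∈ P) (hv : v ∈ P) (huv : u < v) :
    ∃ m, Icc (pr P 0) (sc P 0) ⊆ (fc c)^[m] '' Icc u v := by
  have hneg := h.neg
  have hlt := h.lt_neg_one
  obtain ⟨a1, a2, a3⟩ := pr_spec (P := P) (u := 0) ⟨c, h.hc, hneg⟩
  obtain ⟨b1, b2, b3⟩ := sc_spec (P := P) (v := 0) ⟨_, h.hf c h.hc, by nlinarith⟩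
  obtain ⟨m, hm⟩ := sep h hc hu hv huv.ne
  obtain ⟨u', hu', v', hv', huv', he⟩ := image_iter h m hu hv huv
  refine ⟨m, ?_⟩
  have h1 : (fc c)^[m] u ∈ Icc u' v' := by
    rw [← he]; exact mem_image_of_mem _ ⟨le_refl _, huv.le⟩
  have h2 : (fc c)^[m] v ∈ Icc u' v' := by
    rw [← he]; exact mem_image_of_mem _ ⟨huv.le, le_refl _⟩
  rw [he]
  apply Icc_subset_Icc
  · rcases mul_neg_iff.1 hm with ⟨h3, h4⟩ | ⟨h3, h4⟩
    · exact le_trans h2.1 (a3 _ (iter_mem_P h.toRP m hv) h4)
    · exact le_trans h1.1 (a3 _ (iter_mem_P h.toRP m hu) h3)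
  · rcases mul_neg_iff.1 hm with ⟨h3, h4⟩ | ⟨h3, h4⟩
    · exact le_trans (b3 _ (iter_mem_P h.toRP m hu) h3) h1.2
    · exact le_trans (b3 _ (iter_mem_P h.toRP m hv) h4) h2.2

/-- The map is not constant on intervals. -/
lemma nonconst {x y : ℝ} (hxy : x < y) : ∃ x' ∈ Icc x y, ∃ y' ∈ Icc x y, fc c x' < fc c y' := by
  by_contra hcon
  push Not at hcon
  have key : ∀ x' ∈ Icc x y, ∀ y' ∈ Icc x y, fc c x' = fc c y' := fun x' hx' y' hy' =>
    le_antisymm (hcon y' hy' x' hx') (hcon x' hx' y' hy')
  have m1 : x ∈ Icc x y := ⟨le_refl _, hxy.le⟩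
  have m2 : y ∈ Icc x y := ⟨hxy.le, le_refl _⟩
  have m3 : (x + y) / 2 ∈ Icc x y := ⟨by linarith, by linarith⟩
  have h1 := key x m1 y m2
  have h2 := key x m1 _ m3
  unfold fc at h1 h2
  have h3 : x = -y := by
    have h4 : x ^ 2 = y ^ 2 := by linarith
    rcases sq_eq_sq_iff_eq_or_eq_neg.1 h4 with h5 | h5
    · exact absurd h5 hxy.ne
    · exact h5
  rw [h3] at h2 hxy
  have h4 : y ^ 2 = 0 := by
    have h5 : (-y + y) / 2 = 0 := by ring
    rw [h5] at h2
    linarith [neg_sq y]
  have h5 : y = 0 := by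
    by_contra h6
    exact pow_ne_zero 2 h6 h4
  rw [h5] at hxy
  linarith

/-- Two intervals with endpoints in `P` which have two common points contain a common interval
with endpoints in `P`. -/
lemma common {a1 a2 b1 b2 x y : ℝ} (ha1 : a1 ∈ P) (ha2 : a2 ∈ P) (hb1 : b1 ∈ P) (hb2 : b2 ∈ P)
    (hxy : x < y) (hxa : x ∈ Icc a1 a2) (hya : y ∈ Icc a1 a2) (hxb : x ∈ Icc b1 b2)
    (hyb : y ∈ Icc b1 b2) :
    ∃ u ∈ P, ∃ v ∈ P, u < v ∧ Icc u v ⊆ Icc a1 a2 ∧ Icc u v ⊆ Icc b1 b2 := by
  refine ⟨max a1 b1, ?_, min a2 b2, ?_, ?_, ?_, ?_⟩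
  · rcases max_choice a1 b1 with h | h <;> rw [h] <;> assumption
  · rcases min_choice a2 b2 with h | h <;> rw [h] <;> assumption
  · calc max a1 b1 ≤ x := max_le hxa.1 hxb.1
      _ < y := hxy
      _ ≤ min a2 b2 := le_min hya.2 hyb.2
  · exact Icc_subset_Icc (le_max_left _ _) (min_le_left _ _)
  · exact Icc_subset_Icc (le_max_right _ _) (min_le_right _ _)

lemma iter_neg (k : ℕ) (hk : 0 < k) (x : ℝ) : (fc c)^[k] (-x) = (fc c)^[k] x := by
  obtain ⟨j, rfl⟩ : ∃ j, k = j + 1 := ⟨k - 1, by omega⟩
  rw [Function.iterate_succ_apply, Function.iterate_succ_apply]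
  congr 1
  unfold fc
  rw [neg_sq]

/-- (D): either the images of all gaps cover, or there is a restrictive interval. -/
theorem cov_or_renorm (h : OD c P) (hc : c ≠ -2) : Cov c P ∨ RealRenorm c := by
  classical
  have hneg := h.neg
  have hlt := h.lt_neg_one
  obtain ⟨a1, a2, a3⟩ := pr_spec (P := P) (u := 0) ⟨c, h.hc, hneg⟩
  obtain ⟨b1, b2, b3⟩ := sc_spec (P := P) (v := 0) ⟨_, h.hf c h.hc, by nlinarith⟩
  set zl := pr P 0 with hzl
  set zr := sc P 0 with hzr
  have hz : zl < zr := by linarith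
  have hreach : ∀ u ∈ P, ∀ v ∈ P, u < v → ∃ m, Icc zl zr ⊆ (fc c)^[m] '' Icc u v :=
    fun u hu v hv huv => reach h hc hu hv huv
  -- a return
  obtain ⟨s, hs1, hs⟩ : ∃ s, 1 ≤ s ∧ Icc zl zr ⊆ (fc c)^[s] '' Icc zl zr := by
    obtain ⟨u', hu', v', hv', huv', he⟩ := image_iter h 1 a1 b1 hz
    obtain ⟨m, hm⟩ := hreach u' hu' v' hv' huv'
    refine ⟨m + 1, by omega, ?_⟩
    rw [image_add, he]
    exact hm
  have hchain : ∀ k, (fc c)^[k * s] '' Icc zl zr ⊆ (fc c)^[(k + 1) * s] '' Icc zl zr := by
    intro k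
    rw [show (k + 1) * s = k * s + s by ring, image_add]
    exact image_mono hs
  -- stabilisation
  obtain ⟨k, hk⟩ : ∃ k, (fc c)^[(k + 1) * s] '' Icc zl zr = (fc c)^[k * s] '' Icc zl zr := by
    let N : ℕ → ℕ := fun k => (P.filter fun y => y ∈ (fc c)^[k * s] '' Icc zl zr).card
    have hN : ∃ k, N (k + 1) ≤ N k := by
      by_contra hcon
      push Not at hcon
      have hge : ∀ k, k ≤ N k := by
        intro k
        induction k with
        | zero => omega
        | succ k ih => have := hcon k; omega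
      have h1 := hge (P.card + 1)
      have h2 : N (P.card + 1) ≤ P.card := Finset.card_filter_le _ _
      omega
    obtain ⟨k, hk⟩ := hN
    have hsub : (P.filter fun y => y ∈ (fc c)^[k * s] '' Icc zl zr) ⊆
        (P.filter fun y => y ∈ (fc c)^[(k + 1) * s] '' Icc zl zr) := by
      intro y hy
      rw [Finset.mem_filter] at *
      exact ⟨hy.1, hchain k hy.2⟩
    have heq := Finset.eq_of_subset_of_card_le hsub hk
    refine ⟨k, le_antisymm ?_ (hchain k)⟩
    obtain ⟨u', hu', v', hv', huv', he⟩ := image_iter h ((k + 1) * s) a1 b1 hz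
    obtain ⟨u, hu, v, hv, huv, he2⟩ := image_iter h (k * s) a1 b1 hz
    have m1 : u' ∈ (P.filter fun y => y ∈ (fc c)^[(k + 1) * s] '' Icc zl zr) :=
      Finset.mem_filter.2 ⟨hu', by rw [he]; exact ⟨le_refl _, huv'.le⟩⟩
    have m2 : v' ∈ (P.filter fun y => y ∈ (fc c)^[(k + 1) * s] '' Icc zl zr) :=
      Finset.mem_filter.2 ⟨hv', by rw [he]; exact ⟨huv'.le, le_refl _⟩⟩
    rw [← heq, Finset.mem_filter, he2] at m1 m2
    rw [he, he2]
    exact Icc_subset_Icc m1.2.1 m2.2.2
  -- the interval `W`
  set W := (fc c)^[k * s] '' Icc zl zr with hW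
  obtain ⟨w1, hw1, w2, hw2, hw12, hWe⟩ := image_iter h (k * s) a1 b1 hz
  rw [← hW] at hWe
  have hzW : Icc zl zr ⊆ W := by
    have : ∀ j, Icc zl zr ⊆ (fc c)^[j * s] '' Icc zl zr := by
      intro j
      induction j with
      | zero => simp
      | succ j ih => exact ih.trans (hchain j)
    exact this k
  have hWs : (fc c)^[s] '' W = W := by
    rw [hW, ← image_add, show s + k * s = (k + 1) * s by ring, hk]
  -- periodicity
  have hex : ∃ r, 1 ≤ r ∧ (fc c)^[r] '' W = W := ⟨s, hs1, hWs⟩
  set r := Nat.find hex with hr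
  have hr1 : 1 ≤ r := (Nat.find_spec hex).1
  have hrW : (fc c)^[r] '' W = W := (Nat.find_spec hex).2
  have hrmin : ∀ i, 1 ≤ i → i < r → (fc c)^[i] '' W ≠ W := by
    intro i hi hir he
    exact Nat.find_min hex hir ⟨hi, he⟩
  have hsub_eq : ∀ j, W ⊆ (fc c)^[j] '' W → (fc c)^[j] '' W = W := by
    intro j hj
    apply le_antisymm _ hj
    have h1 : ∀ t, (fc c)^[j] '' W ⊆ (fc c)^[(t + 1) * j] '' W := by
      intro t
      induction t with
      | zero => rw [zero_add, one_mul]
      | succ t ih =>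
        refine ih.trans ?_
        rw [show (t + 1 + 1) * j = (t + 1) * j + j by ring, image_add]
        exact image_mono hj
    have h2 : ∀ t, (fc c)^[t * s] '' W = W := by
      intro t
      induction t with
      | zero => simp
      | succ t ih => rw [show (t + 1) * s = t * s + s by ring, image_add, hWs, ih]
    have h3 := h1 (s - 1)
    rw [show (s - 1 + 1) * j = j * s by rw [Nat.sub_add_cancel hs1, mul_comm], h2] at h3
    exact h3
  have claim1 : ∀ i, 0 < i → i < r → ∀ u ∈ P, ∀ v ∈ P, u < v → Icc u v ⊆ W →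
      Icc u v ⊆ (fc c)^[i] '' W → False := by
    intro i hi hir u hu v hv huv h1 h2
    obtain ⟨m, hm⟩ := hreach u hu v hv huv
    have h3 : W ⊆ (fc c)^[k * s + m] '' Icc u v := by
      rw [image_add]
      exact image_mono hm
    have h4 := hsub_eq (k * s + m) (h3.trans (image_mono h1))
    have h5 := hsub_eq (k * s + m + i) (by
      rw [image_add]
      exact h3.trans (image_mono h2))
    apply hrmin i hi hir
    rw [show k * s + m + i = i + (k * s + m) by ring, image_add, h4] at h5
    exact h5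
  rcases eq_or_lt_of_le hr1 with hr2 | hr2
  · -- period one: covering
    left
    rw [← hr2] at hrW
    have m0 : (0 : ℝ) ∈ W := hzW ⟨a2.le, b2.le⟩
    have m1 : c ∈ W := by
      rw [← hrW]
      exact ⟨0, m0, by simp [fc]⟩
    have m2 : c ^ 2 + c ∈ W := by
      rw [← hrW]
      exact ⟨c, m1, by simp [fc]⟩
    rw [hWe] at m1 m2
    intro u hu v hv huv
    obtain ⟨m, hm⟩ := hreach u hu v hv huv
    refine ⟨k * s + m, fun z hz1 hz2 => ?_⟩
    have h3 : z ∈ (fc c)^[k * s + m] '' Icc u v := by
      rw [image_add]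
      apply image_mono hm
      rw [← hW, hWe]
      exact ⟨le_trans m1.1 hz1, le_trans hz2 m2.2⟩
    obtain ⟨x, hx, hxz⟩ := h3
    exact ⟨x, hx.1, hx.2, hxz⟩
  · -- a restrictive interval
    right
    have hw1z : w1 ≤ zl := by
      have : zl ∈ W := hzW ⟨le_refl _, hz.le⟩
      rw [hWe] at this
      exact this.1
    have hw2z : zr ≤ w2 := by
      have : zr ∈ W := hzW ⟨hz.le, le_refl _⟩
      rw [hWe] at this
      exact this.2
    set b := max (-w1) w2 with hb
    have hbpos : 0 < b := lt_max_of_lt_right (by linarith)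
    have hWb : ∀ y ∈ W, |y| ≤ b := by
      intro y hy
      rw [hWe] at hy
      rw [abs_le]
      constructor
      · have := le_max_left (-w1) w2
        linarith [hy.1]
      · exact le_trans hy.2 (le_max_right _ _)
    -- a point of `W` with the same images
    have hfold : ∀ x, |x| ≤ b → ∃ y ∈ W, ∀ j, 0 < j → (fc c)^[j] x = (fc c)^[j] y := by
      intro x hx
      have habs : ∀ j, 0 < j → (fc c)^[j] |x| = (fc c)^[j] x := by
        intro j hj
        rcases abs_choice x with h1 | h1 <;> rw [h1]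
        exact iter_neg j hj x
      rcases max_choice (-w1) w2 with h1 | h1
      · refine ⟨-|x|, ?_, fun j hj => ?_⟩
        · rw [hWe]
          rw [hb, h1] at hx
          exact ⟨by linarith, by linarith [abs_nonneg x]⟩
        · rw [iter_neg j hj, habs j hj]
      · refine ⟨|x|, ?_, fun j hj => (habs j hj).symm⟩
        rw [hWe]
        rw [hb, h1] at hx
        exact ⟨by linarith [abs_nonneg x], hx⟩
    refine ⟨r, hr2, b, hbpos, ?_, ?_⟩
    · intro x hx
      obtain ⟨y, hy, hxy⟩ := hfold x hx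
      change |(fc c)^[r] x| ≤ b
      rw [hxy r (by omega)]
      apply hWb
      rw [← hrW]
      exact mem_image_of_mem _ hy
    · intro i hi hir x hx
      change b ≤ |(fc c)^[i] x|
      by_contra hcon
      push Not at hcon
      obtain ⟨y, hy, hxy⟩ := hfold x hx
      rw [hxy i hi] at hcon
      -- the image of `W`
      obtain ⟨p, hp, q, hq, hpq, hpe⟩ := image_iter h i hw1 hw2 hw12
      rw [← hWe] at hpe
      have ht : (fc c)^[i] y ∈ Icc p q := by
        rw [← hpe]; exact mem_image_of_mem _ hy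
      set t := (fc c)^[i] y with htdef
      rw [abs_lt] at hcon
      -- a small interval in both
      have hK : ∃ t1 t2, t1 < t2 ∧ ∀ z ∈ Icc t1 t2, z ∈ Icc p q ∧ |z| ≤ b := by
        rcases lt_or_ge t q with h1 | h1
        · refine ⟨t, min q ((t + b) / 2), lt_min h1 (by linarith), ?_⟩
          rintro z ⟨h2, h3⟩
          have h4 := min_le_left q ((t + b) / 2)
          have h5 := min_le_right q ((t + b) / 2)
          exact ⟨⟨by linarith [ht.1], by linarith⟩, abs_le.2 ⟨by linarith, by linarith⟩⟩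
        · refine ⟨max p ((t - b) / 2), t, max_lt (by linarith) (by linarith), ?_⟩
          rintro z ⟨h2, h3⟩
          have h4 := le_max_left p ((t - b) / 2)
          have h5 := le_max_right p ((t - b) / 2)
          exact ⟨⟨by linarith, by linarith [ht.2]⟩, abs_le.2 ⟨by linarith, by linarith⟩⟩
      obtain ⟨t1, t2, ht12, hK⟩ := hK
      obtain ⟨x1, hx1, x2, hx2, hx12⟩ := nonconst (c := c) ht12
      -- images of `x1`, `x2` belong to `f W` and to `f^(i+1) W`
      have hin : ∀ z ∈ Icc t1 t2, fc c z ∈ (fc c)^[1] '' W ∧ fc c z ∈ (fc c)^[i + 1] '' W := by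
        intro z hz
        obtain ⟨h1, h2⟩ := hK z hz
        constructor
        · obtain ⟨y', hy', he⟩ := hfold z h2
          have := he 1 one_pos
          rw [Function.iterate_one] at this
          rw [this]
          exact mem_image_of_mem _ hy'
        · rw [show i + 1 = 1 + i by ring, image_add, hpe, Function.iterate_one]
          exact mem_image_of_mem _ h1
      obtain ⟨c1, hc1, c2, hc2, hc12, hce⟩ := image_iter h 1 hw1 hw2 hw12
      obtain ⟨d1, hd1, d2, hd2, hd12, hde⟩ := image_iter h (i + 1) hw1 hw2 hw12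
      rw [← hWe] at hce hde
      have i1 := hin x1 hx1
      have i2 := hin x2 hx2
      rw [hce, hde] at i1 i2
      obtain ⟨u, hu, v, hv, huv, hs1', hs2'⟩ :=
        common hc1 hc2 hd1 hd2 hx12 i1.1 i2.1 i1.2 i2.2
      obtain ⟨u', hu', v', hv', huv', he'⟩ := image_iter h (r - 1) hu hv huv
      apply claim1 i hi hir u' hu' v' hv' huv'
      · rw [← he']
        have h1 : (fc c)^[r - 1] '' ((fc c)^[1] '' W) = W := by
          rw [← image_add, Nat.sub_add_cancel hr1, hrW]
        rw [← h1, hce]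
        exact image_mono hs1'
      · rw [← he']
        have h1 : (fc c)^[r - 1] '' ((fc c)^[i + 1] '' W) = (fc c)^[i] '' W := by
          rw [← image_add, show r - 1 + (i + 1) = i + r by omega, image_add, hrW]
        rw [← h1, hde]
        exact image_mono hs2'

end RealB
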