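import Pool.Agent.Work.MP_e3f5d9_al_helper91.RealH

/-!
# Real quadratic maps with periodic critical point
-/

set_option autoImplicit false

open R4 R4.Rl Set Filter Topology

namespace RealB

variable {c : ℝ}

lemma fc_cont (c : ℝ) : Continuous (fc c) := by unfold fc; fun_prop

lemma fc_iter_cont (c : ℝ) (n : ℕ) : Continuous (fc c)^[n] := (fc_cont c).iterate n

lemma fc_diff (c : ℝ) : Differentiable ℝ (fc c) := by unfold fc; fun_prop

lemma fc_iter_diff (c : ℝ) (n : ℕ) : Differentiable ℝ (fc c)^[n] := by
  induction n with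
  | zero => exact differentiable_id
  | succ n ih =>
    rw [Function.iterate_succ]
    exact ih.comp (fc_diff c)

/-- If `0` is periodic of exact period `n ≥ 2` then there is a restrictive interval. -/
theorem renorm_of_periodic (n : ℕ) (hn : 2 ≤ n) (h0 : (fc c)^[n] 0 = 0)
    (hmin : ∀ k, 0 < k → k < n → (fc c)^[k] 0 ≠ 0) : RealRenorm c := by
  set g := (fc c)^[n] with hg
  have hgc : Continuous g := fc_iter_cont c n
  have hgeven : ∀ x, g (-x) = g x := fun x => iter_neg n (by omega) x
  -- the basin
  let B : Set ℝ := {x | Tendsto (fun k => g^[k] x) atTop (𝓝 0)}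
  have hBsymm : ∀ x, x ∈ B → -x ∈ B := by
    intro x hx
    have : (fun k => g^[k + 1] (-x)) = fun k => g^[k + 1] x := by
      funext k
      rw [Function.iterate_succ_apply, Function.iterate_succ_apply, hgeven]
    show Tendsto (fun k => g^[k] (-x)) atTop (𝓝 0)
    rw [← tendsto_add_atTop_iff_nat 1, this, tendsto_add_atTop_iff_nat (f := fun k => g^[k] x) 1]
    exact hx
  have hBg : ∀ x, x ∈ B → g x ∈ B := by
    intro x hx
    show Tendsto (fun k => g^[k] (g x)) atTop (𝓝 0)
    have : (fun k => g^[k] (g x)) = fun k => g^[k + 1] x := by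
      funext k
      rw [Function.iterate_succ_apply]
    rw [this, tendsto_add_atTop_iff_nat (f := fun k => g^[k] x) 1]
    exact hx
  have hBg' : ∀ x, g x ∈ B → x ∈ B := by
    intro x hx
    show Tendsto (fun k => g^[k] x) atTop (𝓝 0)
    rw [← tendsto_add_atTop_iff_nat (f := fun k => g^[k] x) 1]
    have : (fun k => g^[k + 1] x) = fun k => g^[k] (g x) := by
      funext k
      rw [Function.iterate_succ_apply]
    rw [this]
    exact hx
  have hBiter : ∀ k x, g^[k] x ∈ B → x ∈ B := by
    intro k
    induction k with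
    | zero => intro x hx; exact hx
    | succ k ih =>
      intro x hx
      rw [Function.iterate_succ_apply] at hx
      exact hBg' x (ih _ hx)
  -- a neighbourhood of `0` in the basin
  obtain ⟨ε, hε, hεB⟩ : ∃ ε > 0, ∀ x, |x| < ε → x ∈ B := by
    have hd : HasDerivAt g 0 0 := by
      obtain ⟨m, rfl⟩ : ∃ m, n = m + 1 := ⟨n - 1, by omega⟩
      rw [hg, Function.iterate_succ]
      have h1 : HasDerivAt (fc c) 0 0 := by
        unfold fc
        have := (hasDerivAt_pow 2 (0 : ℝ)).add_const c
        simpa using this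
      have h2 := (fc_iter_diff c m (fc c 0)).hasDerivAt
      have h3 := h2.comp (0 : ℝ) h1
      simpa using h3
    have h1 := hd.isLittleO
    have h2 := h1.def (c := 1 / 2) (by norm_num)
    simp only [h0, sub_zero, smul_zero] at h2
    obtain ⟨ε, hε, hball⟩ := Metric.eventually_nhds_iff.1 h2
    refine ⟨ε, hε, fun x hx => ?_⟩
    have h3 : ∀ k, |g^[k] x| ≤ (1 / 2) ^ k * |x| := by
      intro k
      induction k with
      | zero => simp
      | succ k ih =>
        rw [Function.iterate_succ_apply']
        have h4 : |g^[k] x| < ε := by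
          refine lt_of_le_of_lt ih (lt_of_le_of_lt ?_ hx)
          exact mul_le_of_le_one_left (abs_nonneg _) (pow_le_one₀ (by norm_num) (by norm_num))
        have h5 := hball (y := g^[k] x) (by rw [dist_zero_right]; exact h4)
        simp only [Real.norm_eq_abs] at h5
        calc |g (g^[k] x)| ≤ 1 / 2 * |g^[k] x| := h5
          _ ≤ 1 / 2 * ((1 / 2) ^ k * |x|) := mul_le_mul_of_nonneg_left ih (by norm_num)
          _ = (1 / 2) ^ (k + 1) * |x| := by ring
    show Tendsto (fun k => g^[k] x) atTop (𝓝 0)
    apply squeeze_zero_norm h3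
    have := (tendsto_pow_atTop_nhds_zero_of_lt_one (r := (1 / 2 : ℝ)) (by norm_num)
      (by norm_num)).mul_const |x|
    simpa using this
  have hBopen : IsOpen B := by
    have : B = ⋃ k, (g^[k]) ⁻¹' {x | |x| < ε} := by
      ext x
      simp only [mem_iUnion, mem_preimage, mem_setOf_eq]
      constructor
      · intro hx
        have h1 : ∀ᶠ k in atTop, g^[k] x ∈ Metric.ball (0 : ℝ) ε :=
          hx (Metric.ball_mem_nhds 0 hε)
        obtain ⟨k, hk⟩ := h1.exists
        refine ⟨k, ?_⟩
        rwa [Metric.mem_ball, dist_zero_right, Real.norm_eq_abs] at hk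
      · rintro ⟨k, hk⟩
        exact hBiter k x (hεB _ hk)
    rw [this]
    apply isOpen_iUnion
    intro k
    exact (isOpen_lt continuous_abs continuous_const).preimage (hgc.iterate k)
  -- boundedness
  obtain ⟨R, hR, hRB⟩ : ∃ R : ℝ, 0 < R ∧ ∀ x, x ∈ B → |x| < R := by
    refine ⟨|c| + 2, by positivity, fun x hx => ?_⟩
    by_contra hcon
    push Not at hcon
    have h1 : ∀ y, |c| + 2 ≤ |y| → |y| ≤ |fc c y| := by
      intro y hy
      unfold fc
      have h2 : |y| * |y| = y ^ 2 := by rw [← abs_mul, ← sq, abs_of_nonneg (sq_nonneg y)]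
      have h3 : y ^ 2 - |c| ≤ |y ^ 2 + c| := by
        have := abs_sub_abs_le_abs_sub (y ^ 2) (-c)
        rw [abs_neg, sub_neg_eq_add, abs_of_nonneg (sq_nonneg y)] at this
        exact this
      nlinarith [abs_nonneg c]
    have h2 : ∀ k y, |c| + 2 ≤ |y| → |y| ≤ |(fc c)^[k] y| := by
      intro k
      induction k with
      | zero => intro y _; exact le_refl _
      | succ k ih =>
        intro y hy
        rw [Function.iterate_succ_apply]
        have h3 := h1 y hy
        exact h3.trans (ih _ (hy.trans h3))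
    have h3 : ∀ k y, |c| + 2 ≤ |y| → |y| ≤ |g^[k] y| := by
      intro k
      induction k with
      | zero => intro y _; exact le_refl _
      | succ k ih =>
        intro y hy
        rw [Function.iterate_succ_apply]
        have h4 := h2 n y hy
        exact h4.trans (ih _ (hy.trans h4))
    have h4 : ∀ᶠ k in atTop, g^[k] x ∈ Metric.ball (0 : ℝ) (|c| + 2) :=
      hx (Metric.ball_mem_nhds 0 (by positivity))
    obtain ⟨k, hk⟩ := h4.exists
    rw [Metric.mem_ball, dist_zero_right, Real.norm_eq_abs] at hk
    have := h3 k x hcon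
    linarith
  -- the radius
  let S : Set ℝ := {r | 0 < r ∧ ∀ x, |x| < r → x ∈ B}
  have hSne : S.Nonempty := ⟨ε, hε, hεB⟩
  have hSb : ∀ r ∈ S, r ≤ R := by
    rintro r ⟨hr, hrB⟩
    by_contra hcon
    push Not at hcon
    have := hRB R (hrB R (by rw [abs_of_pos hR]; exact hcon))
    rw [abs_of_pos hR] at this
    exact lt_irrefl _ this
  have hSbdd : BddAbove S := ⟨R, hSb⟩
  set b := sSup S with hb
  have hεb : ε ≤ b := le_csSup hSbdd ⟨hε, hεB⟩
  have hbpos : 0 < b := lt_of_lt_of_le hε hεb
  have hbB : ∀ x, |x| < b → x ∈ B := by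
    intro x hx
    obtain ⟨r, hr, hxr⟩ := exists_lt_of_lt_csSup hSne hx
    exact hr.2 x hxr
  have hbmax : ∀ r, b < r → ∃ x, |x| < r ∧ x ∉ B := by
    intro r hr
    by_contra hcon
    push Not at hcon
    have := le_csSup hSbdd (show r ∈ S from ⟨by linarith, hcon⟩)
    linarith
  -- the closed interval `[-b, b]` is not contained in the basin
  have hbnot : ¬ (∀ x, |x| ≤ b → x ∈ B) := by
    intro hcon
    have h1 : b ∈ B := hcon b (by rw [abs_of_pos hbpos])
    obtain ⟨δ, hδ, hball⟩ := Metric.isOpen_iff.1 hBopen b h1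
    obtain ⟨x, hx1, hx2⟩ := hbmax (b + δ) (by linarith)
    apply hx2
    by_cases h2 : |x| ≤ b
    · exact hcon x h2
    · push Not at h2
      have h3 : |x| ∈ B := by
        apply hball
        rw [Metric.mem_ball, Real.dist_eq, abs_of_pos (by linarith)]
        linarith
      rcases abs_choice x with h4 | h4
      · rwa [h4] at h3
      · have := hBsymm _ h3
        rw [h4, neg_neg] at this
        exact this
  -- invariance of the open interval
  have hinv : ∀ x, |x| < b → |g x| < b := by
    intro x hx
    by_contra hcon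
    push Not at hcon
    apply hbnot
    -- every value up to `|g x|` is attained up to sign
    have h1 : ∀ y, |y| ≤ b → y ∈ B := by
      intro y hy
      have h2 : ∃ z, |z| < b ∧ |g z| = |y| := by
        have hc1 : ContinuousOn (fun s : ℝ => |g (s * x)|) (Icc 0 1) := by
          apply Continuous.continuousOn
          exact continuous_abs.comp (hgc.comp (continuous_id.mul continuous_const))
        have h3 := intermediate_value_Icc (by norm_num : (0 : ℝ) ≤ 1) hc1
        have h4 : |y| ∈ Icc |g (0 * x)| |g (1 * x)| := by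
          rw [zero_mul, one_mul, h0, abs_zero]
          exact ⟨abs_nonneg y, hy.trans hcon⟩
        obtain ⟨s, hs, hsy⟩ := h3 h4
        refine ⟨s * x, ?_, hsy⟩
        rw [abs_mul, abs_of_nonneg hs.1]
        exact lt_of_le_of_lt (mul_le_of_le_one_left (abs_nonneg x) hs.2) hx
      obtain ⟨z, hz1, hz2⟩ := h2
      have h3 := hBg z (hbB z hz1)
      rcases abs_eq_abs.1 hz2 with h4 | h4
      · rwa [h4] at h3
      · rw [h4] at h3
        have := hBsymm _ h3
        rwa [neg_neg] at this
    exact h1
  refine ⟨n, hn, b, hbpos, ?_, ?_⟩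
  · intro x hx
    change |g x| ≤ b
    -- closure
    have h1 : x ∈ closure {y : ℝ | |y| < b} := by
      have : {y : ℝ | |y| < b} = Metric.ball 0 b := by
        ext y; simp [Real.dist_eq]
      rw [this, closure_ball 0 hbpos.ne', Metric.mem_closedBall, dist_zero_right]
      exact hx
    have h2 : {y : ℝ | |y| < b} ⊆ {y | |g y| ≤ b} := fun y hy => (hinv y hy).le
    have h3 : IsClosed {y | |g y| ≤ b} := isClosed_le (continuous_abs.comp hgc) continuous_const
    exact (closure_minimal h2 h3) h1
  · intro k hk hkn x hx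
    change b ≤ |(fc c)^[k] x|
    by_contra hcon
    push Not at hcon
    -- move `x` inside
    have h1 : ∃ y, |y| < b ∧ |(fc c)^[k] y| < b := by
      have h2 : x ∈ closure {y : ℝ | |y| < b} := by
        have : {y : ℝ | |y| < b} = Metric.ball 0 b := by
          ext y; simp [Real.dist_eq]
        rw [this, closure_ball 0 hbpos.ne', Metric.mem_closedBall, dist_zero_right]
        exact hx
      have h3 : {y | |(fc c)^[k] y| < b} ∈ 𝓝 x :=
        (isOpen_lt (continuous_abs.comp (fc_iter_cont c k)) continuous_const).mem_nhds hcon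
      obtain ⟨y, hy1, hy2⟩ := mem_closure_iff_nhds.1 h2 _ h3
      exact ⟨y, hy2, hy1⟩
    obtain ⟨y, hy1, hy2⟩ := h1
    have h2 : Tendsto (fun j => g^[j] y) atTop (𝓝 0) := hbB y hy1
    have h3 : Tendsto (fun j => g^[j] ((fc c)^[k] y)) atTop (𝓝 0) := hbB _ hy2
    have h4 : ∀ j, g^[j] ((fc c)^[k] y) = (fc c)^[k] (g^[j] y) := by
      intro j
      rw [hg, ← Function.iterate_mul, ← Function.iterate_add_apply, ← Function.iterate_add_apply,
        add_comm]
    have h5 : Tendsto (fun j => (fc c)^[k] (g^[j] y)) atTop (𝓝 ((fc c)^[k] 0)) :=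
      ((fc_iter_cont c k).tendsto 0).comp h2
    simp only [h4] at h3
    exact hmin k hk hkn (tendsto_nhds_unique h5 h3)

end RealB
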