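import Pool.Agent.Work.MP_e3f5d9_al_helper91.RealJ

/-!
# All real parameters: assembly
-/

set_option autoImplicit false

open Polynomial unitInterval PCF R4 R4.Rl

namespace RealB

/-- The growth theorem for real systems (proved by helper48). -/
def GrowthReal : Prop :=
  ∀ (L : Type) [Fintype L] [DecidableEq L] (D : KS L) (rk : L → ℕ), IsReal D rk →
    D.Mixing (gE D rk) → IntermediateGrowth D.grp

theorem real_final (hgrow : GrowthReal) (c : ℝ) (hfin : (postCrit (qf c)).Finite)
    (hren : ¬ RealRenorm c) (t : ℂ) (ht : t ∉ postCrit (qf c)) :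
    IntermediateGrowth (IMG (qf c) t) ↔ c ≠ 0 ∧ c ≠ -2 := by
  constructor
  · intro h
    constructor
    · rintro rfl
      exact not_ig_zero t ht h
    · rintro rfl
      exact not_ig_neg_two hfin t ht h
  · rintro ⟨hc0, hc2⟩
    have h0 : ∀ n, 1 ≤ n → orb c n ≠ 0 := by
      by_contra hcon
      push Not at hcon
      classical
      have hex : ∃ n, 1 ≤ n ∧ orb c n = 0 := hcon
      have hs := Nat.find_spec hex
      set n := Nat.find hex with hn
      have hn2 : 2 ≤ n := by
        rcases Nat.lt_or_ge n 2 with h | h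
        · exfalso
          have h1 : n = 1 := by omega
          rw [h1, orb_one] at hs
          exact hc0 hs.2
        · exact h
      apply hren
      apply renorm_of_periodic n hn2 hs.2
      intro k hk hkn h1
      exact Nat.find_min hex hkn ⟨hk, h1⟩
    obtain ⟨P, hP, hpc, hmem⟩ := exists_RP c hfin h0
    have hOD : OD c P := ⟨hP, hmem⟩
    have hcov : Cov c P := (cov_or_renorm hOD hc2).resolve_right hren
    have hig := hgrow P (ks hOD.toRP) (rk P) (isReal hOD hc2) (mixing hOD hcov)
    rw [hpc] at ht
    obtain ⟨e1⟩ := img_GG hP hpc t ht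
    obtain ⟨a0, ha0⟩ : ∃ a0 : ℝ, a0 ∉ P := P.finite_toSet.infinite_compl.nonempty
    obtain ⟨e2⟩ := GG_equiv hP a0 ha0
    exact ig_of_equiv (e1.trans e2).symm hig

end RealB
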